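import Mathlib

/-!
# Weakly continuous maps between Banach spaces: basic definitions
-/

set_option autoImplicit false
open Filter Topology

namespace Pool.Agent.H17.WH

section defs

variable {X Y : Type*} [NormedAddCommGroup X] [NormedSpace ℝ X]
  [NormedAddCommGroup Y] [NormedSpace ℝ Y]

/-- weak continuity, in terms of finitely many functionals -/
def WCont (H : Y → X) : Prop :=
  ∀ (φ : StrongDual ℝ X) (y : Y) (ε : ℝ), 0 < ε → ∃ A : Finset (StrongDual ℝ Y),
    ∀ z : Y, (∀ l ∈ A, |l (z - y)| ≤ 1) → |φ (H z) - φ (H y)| ≤ ε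

/-- the slab given by a finite set of functionals -/
def slab (A : Finset (StrongDual ℝ Y)) : Set Y := {y | ∀ l ∈ A, |l y| ≤ 1}

/-- the slab given by a tuple of functionals -/
def tslab {k : ℕ} (ψ : Fin k → StrongDual ℝ Y) : Set Y := {y | ∀ i, |ψ i y| ≤ 1}

/-- the common kernel -/
def perp (A : Finset (StrongDual ℝ Y)) : Submodule ℝ Y where
  carrier := {y | ∀ l ∈ A, l y = 0}
  add_mem' := by
    intro a b ha hb l hl
    rw [map_add, ha l hl, hb l hl, add_zero]
  zero_mem' := by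
    intro l _
    exact map_zero l
  smul_mem' := by
    intro c a ha l hl
    rw [map_smul, ha l hl, smul_zero]

/-- restriction of a functional -/
def res (Z : Submodule ℝ Y) (f : StrongDual ℝ Y) : StrongDual ℝ Z := f.comp Z.subtypeL

/-- the property `P_k` -/
def PProp (H : Y → X) (k : ℕ) (A : Finset (StrongDual ℝ Y)) (K C : ℝ) : Prop :=
  ∀ φ : StrongDual ℝ X, ‖φ‖ ≤ 1 → ∃ ψ : Fin k → StrongDual ℝ Y, (∀ i, ‖ψ i‖ ≤ K) ∧
    ∀ y ∈ slab A, y ∈ tslab ψ → |φ (H y)| ≤ C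

/-- a tuple is good for `θ` (with constants `K`, `C`) -/
def Good (H : Y → X) (A : Finset (StrongDual ℝ Y)) (K C : ℝ) {k : ℕ} (θ : StrongDual ℝ X)
    (ξ : Fin k → StrongDual ℝ Y) : Prop :=
  (∀ i, ‖ξ i‖ ≤ K) ∧ ∀ y ∈ slab A, y ∈ tslab ξ → |θ (H y)| ≤ C * ‖θ‖

end defs

section lemmas

variable {X Y : Type*} [NormedAddCommGroup X] [NormedSpace ℝ X]
  [NormedAddCommGroup Y] [NormedSpace ℝ Y]

theorem mem_slab {A : Finset (StrongDual ℝ Y)} {y : Y} : y ∈ slab A ↔ ∀ l ∈ A, |l y| ≤ 1 :=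
  Iff.rfl

theorem mem_tslab {k : ℕ} {ψ : Fin k → StrongDual ℝ Y} {y : Y} :
    y ∈ tslab ψ ↔ ∀ i, |ψ i y| ≤ 1 := Iff.rfl

theorem mem_perp {A : Finset (StrongDual ℝ Y)} {y : Y} : y ∈ perp A ↔ ∀ l ∈ A, l y = 0 :=
  Iff.rfl

theorem res_apply (Z : Submodule ℝ Y) (f : StrongDual ℝ Y) (y : Z) : res Z f y = f (y : Y) := rfl

theorem slab_anti {A B : Finset (StrongDual ℝ Y)} (h : A ⊆ B) : slab B ⊆ slab A :=
  fun _ hy l hl => hy l (h hl)

theorem perp_anti {A B : Finset (StrongDual ℝ Y)} (h : A ⊆ B) : perp B ≤ perp A :=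
  fun _ hy l hl => hy l (h hl)

theorem smul_mem_slab {A : Finset (StrongDual ℝ Y)} {y : Y} (hy : y ∈ slab A) {t : ℝ}
    (h0 : 0 ≤ t) (h1 : t ≤ 1) : t • y ∈ slab A := by
  intro l hl
  rw [map_smul, smul_eq_mul, abs_mul, abs_of_nonneg h0]
  exact mul_le_one₀ h1 (abs_nonneg _) (hy l hl)

/-- Banach–Alaoglu for ultrafilters -/
theorem exists_ulim {ι : Type*} (U : Ultrafilter ι) (f : ι → StrongDual ℝ Y) (K : ℝ)
    (hf : ∀ i, ‖f i‖ ≤ K) :
    ∃ g : StrongDual ℝ Y, ‖g‖ ≤ K ∧ ∀ y, Tendsto (fun i => f i y) U (𝓝 (g y)) := by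
  have hex : ∀ y : Y, ∃ c : ℝ, Tendsto (fun i => f i y) U (𝓝 c) := by
    intro y
    have hc : IsCompact (Set.Icc (-(K * ‖y‖)) (K * ‖y‖)) := isCompact_Icc
    have hle : ↑(U.map fun i => f i y) ≤ 𝓟 (Set.Icc (-(K * ‖y‖)) (K * ‖y‖)) := by
      rw [le_principal_iff]
      show {i | f i y ∈ Set.Icc (-(K * ‖y‖)) (K * ‖y‖)} ∈ (U : Filter ι)
      apply Filter.univ_mem'
      intro i
      have h1 : |f i y| ≤ K * ‖y‖ := by
        have := (f i).le_opNorm y
        rw [Real.norm_eq_abs] at this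
        exact this.trans (mul_le_mul_of_nonneg_right (hf i) (norm_nonneg _))
      exact abs_le.1 h1
    obtain ⟨c, _, hc'⟩ := hc.ultrafilter_le_nhds _ hle
    exact ⟨c, hc'⟩
  choose g hg using hex
  have hK : 0 ≤ K := by
    obtain ⟨i⟩ : Nonempty ι := U.neBot.nonempty_of_mem univ_mem |>.to_type
    exact (norm_nonneg _).trans (hf i)
  let G : Y →ₗ[ℝ] ℝ :=
    { toFun := g
      map_add' := by
        intro a b
        have h1 := (hg a).add (hg b)
        have h2 := hg (a + b)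
        have h3 : (fun i => f i (a + b)) = fun i => f i a + f i b := by
          ext i
          exact map_add _ _ _
        rw [h3] at h2
        exact tendsto_nhds_unique h2 h1
      map_smul' := by
        intro c a
        have h1 := (hg a).const_mul c
        have h2 := hg (c • a)
        have h3 : (fun i => f i (c • a)) = fun i => c * f i a := by
          ext i
          exact map_smul _ _ _
        rw [h3] at h2
        exact tendsto_nhds_unique h2 h1 }
  have hb : ∀ y, ‖G y‖ ≤ K * ‖y‖ := by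
    intro y
    have h1 : Tendsto (fun i => ‖f i y‖) U (𝓝 ‖g y‖) := (hg y).norm
    refine le_of_tendsto h1 (Eventually.of_forall fun i => ?_)
    exact ((f i).le_opNorm y).trans (mul_le_mul_of_nonneg_right (hf i) (norm_nonneg _))
  refine ⟨G.mkContinuous K hb, G.mkContinuous_norm_le hK hb, fun y => hg y⟩

/-- ultrafilter limits of bounded real functions -/
theorem exists_ulim_real {ι : Type*} (U : Ultrafilter ι) (f : ι → ℝ) (K : ℝ)
    (hf : ∀ᶠ i in (U : Filter ι), |f i| ≤ K) :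
    ∃ c : ℝ, |c| ≤ K ∧ Tendsto f U (𝓝 c) := by
  have hc : IsCompact (Set.Icc (-K) K) := isCompact_Icc
  have hle : ↑(U.map f) ≤ 𝓟 (Set.Icc (-K) K) := by
    rw [le_principal_iff]
    show {i | f i ∈ Set.Icc (-K) K} ∈ (U : Filter ι)
    exact hf.mono fun i hi => abs_le.1 hi
  obtain ⟨c, hcm, hc'⟩ := hc.ultrafilter_le_nhds _ hle
  exact ⟨c, abs_le.2 hcm, hc'⟩

theorem abs_le_of_scaled {H : Y → X} (hH : WCont H) (φ : StrongDual ℝ X) (y : Y) (c : ℝ)
    (h : ∀ t : ℝ, 0 ≤ t → t < 1 → |φ (H (t • y))| ≤ c) : |φ (H y)| ≤ c := by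
  by_contra hlt
  rw [not_le] at hlt
  obtain ⟨A, hA⟩ := hH φ y ((|φ (H y)| - c) / 2) (by linarith)
  set M := ∑ l ∈ A, |l y| with hM
  have hM0 : 0 ≤ M := Finset.sum_nonneg fun l _ => abs_nonneg _
  have h1 : 0 < 1 + M := by linarith
  set t := 1 - 1 / (1 + M) with ht
  have ht0 : 0 ≤ t := by
    rw [ht, sub_nonneg, div_le_one h1]
    linarith
  have ht1 : t < 1 := by
    rw [ht]
    have : 0 < 1 / (1 + M) := by positivity
    linarith
  have h2 := hA (t • y) (by
    intro l hl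
    have e1 : l (t • y - y) = -(1 / (1 + M)) * l y := by
      rw [map_sub, map_smul, smul_eq_mul, ht]
      ring
    rw [e1, abs_mul, abs_neg, abs_of_nonneg (by positivity : (0:ℝ) ≤ 1 / (1 + M))]
    have h3 : |l y| ≤ M := Finset.single_le_sum (f := fun l => |l y|)
      (fun l _ => abs_nonneg _) hl
    calc 1 / (1 + M) * |l y| ≤ 1 / (1 + M) * M := by gcongr
      _ ≤ 1 := by
        rw [one_div, inv_mul_le_iff₀ h1]
        linarith)
  have h3 := h t ht0 ht1
  have h4 : |φ (H y)| ≤ |φ (H (t • y))| + |φ (H (t • y)) - φ (H y)| := by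
    have := abs_sub_abs_le_abs_sub (φ (H y)) (φ (H (t • y)))
    rw [abs_sub_comm] at this
    linarith
  linarith

/-- limits of good tuples are good -/
theorem bound_limit {H : Y → X} (hH : WCont H) {ι : Type*} (U : Ultrafilter ι)
    (A : Finset (StrongDual ℝ Y)) {k : ℕ} (ζ : ι → StrongDual ℝ X) (θ : StrongDual ℝ X) (D : ℝ)
    (ξ : ι → Fin k → StrongDual ℝ Y) (η : Fin k → StrongDual ℝ Y)
    (h1 : ∀ y, Tendsto (fun i => ζ i (H y)) U (𝓝 (θ (H y))))
    (h2 : ∀ᶠ i in (U : Filter ι), ∀ y ∈ slab A, y ∈ tslab (ξ i) → |ζ i (H y)| ≤ D)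
    (h3 : ∀ j y, Tendsto (fun i => ξ i j y) U (𝓝 (η j y))) :
    ∀ y ∈ slab A, y ∈ tslab η → |θ (H y)| ≤ D := by
  intro y hy hyη
  apply abs_le_of_scaled hH
  intro t ht0 ht1
  have h4 : ∀ j, |η j (t • y)| < 1 := by
    intro j
    rw [map_smul, smul_eq_mul, abs_mul, abs_of_nonneg ht0]
    have := hyη j
    have h5 := abs_nonneg (η j y)
    nlinarith
  have h5 : ∀ᶠ i in (U : Filter ι), ∀ j, |ξ i j (t • y)| < 1 := by
    rw [eventually_all]
    intro j
    exact (h3 j (t • y)).abs.eventually_lt_const (h4 j)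
  refine le_of_tendsto (h1 (t • y)).abs ?_
  filter_upwards [h2, h5] with i hi1 hi2
  exact hi1 _ (smul_mem_slab hy ht0 ht1.le) fun j => (hi2 j).le

end lemmas

end Pool.Agent.H17.WH
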