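import Pool.Agent.H17.WH.Setup

/-!
# The canonical spaces `E θ`
-/

set_option autoImplicit false
open Filter Topology

namespace Pool.Agent.H17.WH

variable {X Y : Type*} [NormedAddCommGroup X] [NormedSpace ℝ X]
  [NormedAddCommGroup Y] [NormedSpace ℝ Y]

/-- all the data of Sections 2 and 3 -/
structure Full (H : Y → X) (m : ℕ) (A : Finset (StrongDual ℝ Y)) (K C : ℝ)
    (φ₁ : StrongDual ℝ X) (Q₁ : Finset Y) (B : Finset (StrongDual ℝ Y))
    (φ₂ : StrongDual ℝ X) (Q₂ : Finset Y) (R r : ℝ) : Prop where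
  hs : Setup H m A K C
  h1 : First H m A K C φ₁ Q₁ B
  h2 : Second H m K C B φ₂ Q₂ R r

/-- the open cone -/
def cone (φ : StrongDual ℝ X) (r : ℝ) : Set (StrongDual ℝ X) :=
  {θ | ∃ c : ℝ, 0 < c ∧ c • θ ∈ Metric.ball φ r}

theorem cone_open (φ : StrongDual ℝ X) (r : ℝ) : IsOpen (cone φ r) := by
  have h : cone φ r = ⋃ c ∈ Set.Ioi (0 : ℝ), {θ : StrongDual ℝ X | c • θ ∈ Metric.ball φ r} := by
    ext θ
    simp only [cone, Set.mem_iUnion, Set.mem_Ioi, exists_prop]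
    rfl
  rw [h]
  refine isOpen_biUnion fun c _ => ?_
  have : Continuous fun θ : StrongDual ℝ X => c • θ := by fun_prop
  exact Metric.isOpen_ball.preimage this

theorem cone_add {φ : StrongDual ℝ X} {r : ℝ} {θ θ' : StrongDual ℝ X} (h : θ ∈ cone φ r)
    (h' : θ' ∈ cone φ r) : θ + θ' ∈ cone φ r := by
  obtain ⟨c, hc, hcm⟩ := h
  obtain ⟨c', hc', hcm'⟩ := h'
  refine ⟨c * c' / (c + c'), by positivity, ?_⟩
  have h1 : (c * c' / (c + c')) • (θ + θ') = (c' / (c + c')) • (c • θ) + (c / (c + c')) • (c' • θ') := by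
    rw [smul_add, smul_smul, smul_smul]
    congr 2
    · ring
    · ring
  rw [h1]
  exact (convex_ball φ r) hcm hcm' (by positivity) (by positivity) (by
    field_simp
    ring)

theorem cone_smul {φ : StrongDual ℝ X} {r : ℝ} {θ : StrongDual ℝ X} (h : θ ∈ cone φ r) {c : ℝ}
    (hc : 0 < c) : c • θ ∈ cone φ r := by
  obtain ⟨d, hd, hdm⟩ := h
  refine ⟨d * c⁻¹, by positivity, ?_⟩
  rw [smul_smul, mul_assoc, inv_mul_cancel₀ hc.ne', mul_one]
  exact hdm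

section full

variable {H : Y → X} {m : ℕ} {A : Finset (StrongDual ℝ Y)} {K C : ℝ}
    {φ₁ : StrongDual ℝ X} {Q₁ : Finset Y} {B : Finset (StrongDual ℝ Y)}
    {φ₂ : StrongDual ℝ X} {Q₂ : Finset Y} {R r : ℝ} (h : Full H m A K C φ₁ Q₁ B φ₂ Q₂ R r)

/-- a chosen strictly good tuple -/
noncomputable def xi (hp : PProp H (m + 1) A K C) (θ : StrongDual ℝ X) :
    Fin (m + 1) → StrongDual ℝ Y := (exists_strict hp θ).choose

theorem xi_good (hp : PProp H (m + 1) A K C) (θ : StrongDual ℝ X) :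
    Good H A K C θ (xi hp θ) := (exists_strict hp θ).choose_spec

/-- the canonical spaces -/
noncomputable def EE (hp : PProp H (m + 1) A K C) (B : Finset (StrongDual ℝ Y))
    (θ : StrongDual ℝ X) : Submodule ℝ (StrongDual ℝ (perp B)) := sp (perp B) (xi hp θ)

include h

theorem Full.norm_ball {u : StrongDual ℝ X} (hu : u ∈ Metric.ball φ₂ r) : ‖u‖ ≤ 5 / 4 := by
  rw [Metric.mem_ball, dist_eq_norm] at hu
  have h9 : ‖u‖ ≤ ‖φ₂‖ + ‖u - φ₂‖ := by
    have : u = φ₂ + (u - φ₂) := by abel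
    conv_lhs => rw [this]
    exact norm_add_le _ _
  have := h.h2.norm_le
  have := h.h2.r1
  linarith

theorem Full.li_of_good {u : StrongDual ℝ X} (hu : u ∈ Metric.ball φ₂ r)
    {ξ : Fin (m + 1) → StrongDual ℝ Y} (hξ : Good H A K (2 * C) u ξ) :
    LinearIndependent ℝ fun i => res (perp B) (ξ i) := by
  refine full_rank h.hs h.h1 h.h2 hu (b := 0) (by simp) ?_
  rw [zero_smul, add_zero]
  exact hξ

theorem Full.li_of_good' {u : StrongDual ℝ X} (hu : u ∈ Metric.ball φ₂ r)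
    {ξ : Fin (m + 1) → StrongDual ℝ Y} (hξ : Good H A K (2 * C) (u + φ₁) ξ) :
    LinearIndependent ℝ fun i => res (perp B) (ξ i) := by
  refine full_rank h.hs h.h1 h.h2 hu (b := 1) (by simp) ?_
  rw [one_smul]
  exact hξ

omit h in
theorem sp_le_big {n : ℕ} (Z : Submodule ℝ Y) (ξ : Fin n → Fin (m + 1) → StrongDual ℝ Y)
    (i : Fin n) : sp Z (ξ i) ≤ Submodule.span ℝ (Set.range fun p : Fin n × Fin (m + 1) =>
      res Z (ξ p.1 p.2)) := by
  unfold sp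
  rw [Submodule.span_le]
  rintro _ ⟨j, rfl⟩
  exact Submodule.subset_span ⟨(i, j), rfl⟩

theorem Full.canon {u : StrongDual ℝ X} (hu : u ∈ Metric.ball φ₂ r)
    {ξ ξ' : Fin (m + 1) → StrongDual ℝ Y} (hξ : Good H A K (2 * C) u ξ)
    (hξ' : Good H A K (2 * C) (u + φ₁) ξ') : sp (perp B) ξ = sp (perp B) ξ' := by
  have hC := h.hs.C1
  have key := dim_est h.hs h.h1 (n := 2) (by norm_num) ![-u, u + φ₁] ![ξ, ξ'] (by
    intro i
    fin_cases i
    · exact hξ.neg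
    · exact hξ') 1 one_ne_zero (by
      rw [Fin.sum_univ_two]
      show -u + (u + φ₁) = (1 : ℝ) • φ₁
      rw [one_smul]
      abel) (by
      rw [Fin.sum_univ_two]
      show 2 * C * (‖-u‖ + ‖u + φ₁‖) ≤ |(1 : ℝ)| * (40 * C)
      rw [norm_neg, abs_one, one_mul]
      have h1 := h.norm_ball hu
      have h2 := norm_add_le u φ₁
      have h3 := h.h1.norm_le
      nlinarith)
  set big : Submodule ℝ (StrongDual ℝ (perp B)) :=
    Submodule.span ℝ (Set.range fun p : Fin 2 × Fin (m + 1) =>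
      res (perp B) ((![ξ, ξ'] : Fin 2 → Fin (m + 1) → StrongDual ℝ Y) p.1 p.2)) with hbig
  have hfd : FiniteDimensional ℝ big := FiniteDimensional.span_of_finite ℝ (Set.finite_range _)
  have h1 : sp (perp B) ξ ≤ big := sp_le_big (perp B) ![ξ, ξ'] 0
  have h2 : sp (perp B) ξ' ≤ big := sp_le_big (perp B) ![ξ, ξ'] 1
  have d1 : Module.finrank ℝ (sp (perp B) ξ) = m + 1 := by
    have := finrank_span_eq_card (h.li_of_good hu hξ)
    rw [Fintype.card_fin] at this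
    exact this
  have d2 : Module.finrank ℝ (sp (perp B) ξ') = m + 1 := by
    have := finrank_span_eq_card (h.li_of_good' hu hξ')
    rw [Fintype.card_fin] at this
    exact this
  have e1 : sp (perp B) ξ = big := Submodule.eq_of_le_of_finrank_le h1 (by omega)
  have e2 : sp (perp B) ξ' = big := Submodule.eq_of_le_of_finrank_le h2 (by omega)
  rw [e1, e2]

/-- good tuples of `u + φ₁` span `E u` -/
theorem Full.canon_shift {u : StrongDual ℝ X} (hu : u ∈ Metric.ball φ₂ r)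
    {ξ' : Fin (m + 1) → StrongDual ℝ Y}
    (hξ' : Good H A K (2 * C) (u + φ₁) ξ') : sp (perp B) ξ' = EE h.hs.pos B u := by
  have hC := h.hs.C1
  exact (h.canon hu ((xi_good h.hs.pos u).mono (by linarith)) hξ').symm

theorem Full.canon_ball {u : StrongDual ℝ X} (hu : u ∈ Metric.ball φ₂ r)
    {ξ ξ' : Fin (m + 1) → StrongDual ℝ Y} (hξ : Good H A K (2 * C) u ξ)
    (hξ' : Good H A K (2 * C) u ξ') : sp (perp B) ξ = sp (perp B) ξ' := by
  have hC := h.hs.C1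
  have h1 := (xi_good h.hs.pos (u + φ₁)).mono (by linarith : C ≤ 2 * C)
  rw [h.canon hu hξ h1, h.canon hu hξ' h1]

/-- good tuples of `θ` in the cone span `E θ` -/
theorem Full.canon_cone {θ : StrongDual ℝ X} (hθ : θ ∈ cone φ₂ r)
    {ξ : Fin (m + 1) → StrongDual ℝ Y} (hξ : Good H A K (2 * C) θ ξ) :
    LinearIndependent ℝ (fun i => res (perp B) (ξ i)) ∧ sp (perp B) ξ = EE h.hs.pos B θ := by
  have hC := h.hs.C1
  obtain ⟨c, hc, hcm⟩ := hθ
  exact ⟨h.li_of_good hcm (hξ.smul c), h.canon_ball hcm (hξ.smul c)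
    (((xi_good h.hs.pos θ).mono (by linarith)).smul c)⟩

theorem Full.dim {θ : StrongDual ℝ X} (hθ : θ ∈ cone φ₂ r) :
    Module.finrank ℝ (EE h.hs.pos B θ) = m + 1 := by
  have hC := h.hs.C1
  have h1 := (h.canon_cone hθ ((xi_good h.hs.pos θ).mono (by linarith))).1
  have := finrank_span_eq_card h1
  rw [Fintype.card_fin] at this
  exact this

theorem Full.smul {θ : StrongDual ℝ X} (hθ : θ ∈ cone φ₂ r) {c : ℝ} (hc : 0 < c) :
    EE h.hs.pos B (c • θ) = EE h.hs.pos B θ := by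
  have hC := h.hs.C1
  exact ((h.canon_cone (cone_smul hθ hc)
    (((xi_good h.hs.pos θ).mono (by linarith)).smul c)).2).symm

omit h in
theorem EE_fd (hp : PProp H (m + 1) A K C) (B : Finset (StrongDual ℝ Y)) (θ : StrongDual ℝ X) :
    FiniteDimensional ℝ (EE hp B θ) := FiniteDimensional.span_of_finite ℝ (Set.finite_range _)

theorem Full.zero_notMem : (0 : StrongDual ℝ X) ∉ cone φ₂ r := by
  rintro ⟨c, hc, hcm⟩
  rw [smul_zero, Metric.mem_ball, dist_zero_left] at hcm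
  obtain ⟨p, hp, _, hpL⟩ := h.h2.cover (fun _ => 0) (fun i => by
    rw [norm_zero]
    have := h.hs.K1
    positivity)
  have h1 := φ₂.le_opNorm (H p)
  rw [Real.norm_eq_abs] at h1
  have h2 : ‖φ₂‖ * ‖H p‖ ≤ r * ‖H p‖ := mul_le_mul_of_nonneg_right hcm.le (norm_nonneg _)
  have h3 := h.h2.rQ p hp
  have := h.hs.C1
  linarith

theorem Full.e2_aux {θ θ' : StrongDual ℝ X} {c c' : ℝ} (hc : 0 < c) (hc' : 0 < c')
    (hcm : c • θ ∈ Metric.ball φ₂ r) (hcm' : c' • θ' ∈ Metric.ball φ₂ r) (hcc : c' ≤ c) :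
    Module.finrank ℝ ↥(EE h.hs.pos B θ ⊔ EE h.hs.pos B θ' ⊔ EE h.hs.pos B (θ + θ')) ≤
      2 * (m + 1) := by
  have hC := h.hs.C1
  have hθ : θ ∈ cone φ₂ r := ⟨c, hc, hcm⟩
  have hθ' : θ' ∈ cone φ₂ r := ⟨c', hc', hcm'⟩
  -- the shifted tuple
  set ξ₂ := xi h.hs.pos (c' • θ' + φ₁) with hξ₂
  have hg₂ : Good H A K (2 * C) (c' • θ' + φ₁) ξ₂ :=
    (xi_good h.hs.pos (c' • θ' + φ₁)).mono (by linarith)
  have hsp₂ : sp (perp B) ξ₂ = EE h.hs.pos B θ' := by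
    rw [h.canon_shift hcm' hg₂, h.smul hθ' hc']
  have hg₂' : Good H A K (2 * C) (θ' + c'⁻¹ • φ₁) ξ₂ := by
    have h1 := hg₂.smul c'⁻¹
    rw [smul_add, smul_smul, inv_mul_cancel₀ hc'.ne', one_smul] at h1
    exact h1
  have hn1 : ‖θ‖ ≤ c'⁻¹ * (5 / 4) := by
    have h1 := h.norm_ball hcm
    rw [norm_smul, Real.norm_eq_abs, abs_of_pos hc] at h1
    have h2 : ‖θ‖ ≤ c⁻¹ * (5 / 4) := by
      rw [le_inv_mul_iff₀ hc]
      exact h1
    have h3 : c⁻¹ ≤ c'⁻¹ := inv_anti₀ hc' hcc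
    nlinarith
  have hn2 : ‖θ'‖ ≤ c'⁻¹ * (5 / 4) := by
    have h1 := h.norm_ball hcm'
    rw [norm_smul, Real.norm_eq_abs, abs_of_pos hc'] at h1
    rw [le_inv_mul_iff₀ hc']
    exact h1
  have hinv : 0 < c'⁻¹ := inv_pos.2 hc'
  have key := dim_est h.hs h.h1 (n := 3) le_rfl ![θ, θ' + c'⁻¹ • φ₁, -(θ + θ')]
    ![xi h.hs.pos θ, ξ₂, xi h.hs.pos (θ + θ')] (by
    intro i
    fin_cases i
    · exact (xi_good h.hs.pos θ).mono (by linarith)
    · exact hg₂'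
    · exact ((xi_good h.hs.pos (θ + θ')).mono (by linarith)).neg) c'⁻¹ hinv.ne' (by
      rw [Fin.sum_univ_three]
      show θ + (θ' + c'⁻¹ • φ₁) + -(θ + θ') = c'⁻¹ • φ₁
      abel) (by
      rw [Fin.sum_univ_three]
      show 2 * C * (‖θ‖ + ‖θ' + c'⁻¹ • φ₁‖ + ‖-(θ + θ')‖) ≤ |c'⁻¹| * (40 * C)
      rw [norm_neg, abs_of_pos hinv]
      have h1 := norm_add_le θ' (c'⁻¹ • φ₁)
      rw [norm_smul, Real.norm_eq_abs, abs_of_pos hinv] at h1
      have h2 := norm_add_le θ θ'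
      have h3 : c'⁻¹ * ‖φ₁‖ ≤ c'⁻¹ * 1 := mul_le_mul_of_nonneg_left h.h1.norm_le hinv.le
      have h4 : ‖θ‖ + ‖θ' + c'⁻¹ • φ₁‖ + ‖θ + θ'‖ ≤ 6 * c'⁻¹ := by linarith
      have h5 : 2 * C * (‖θ‖ + ‖θ' + c'⁻¹ • φ₁‖ + ‖θ + θ'‖) ≤ 2 * C * (6 * c'⁻¹) :=
        mul_le_mul_of_nonneg_left h4 (by linarith)
      have h6 : 0 ≤ c'⁻¹ * C := by positivity
      nlinarith)
  set ΞΞ : Fin 3 → Fin (m + 1) → StrongDual ℝ Y :=
    ![xi h.hs.pos θ, ξ₂, xi h.hs.pos (θ + θ')] with hΞ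
  set big : Submodule ℝ (StrongDual ℝ (perp B)) :=
    Submodule.span ℝ (Set.range fun p : Fin 3 × Fin (m + 1) =>
      res (perp B) (ΞΞ p.1 p.2)) with hbig
  have hfd : FiniteDimensional ℝ big := FiniteDimensional.span_of_finite ℝ (Set.finite_range _)
  have b1 : EE h.hs.pos B θ ≤ big := sp_le_big (perp B) ΞΞ 0
  have b2 : EE h.hs.pos B θ' ≤ big := by
    rw [← hsp₂]
    exact sp_le_big (perp B) ΞΞ 1
  have b3 : EE h.hs.pos B (θ + θ') ≤ big := sp_le_big (perp B) ΞΞ 2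
  have b4 : EE h.hs.pos B θ ⊔ EE h.hs.pos B θ' ⊔ EE h.hs.pos B (θ + θ') ≤ big :=
    sup_le (sup_le b1 b2) b3
  have := Submodule.finrank_mono b4
  omega

theorem Full.e2 {θ θ' : StrongDual ℝ X} (hθ : θ ∈ cone φ₂ r) (hθ' : θ' ∈ cone φ₂ r) :
    Module.finrank ℝ ↥(EE h.hs.pos B θ ⊔ EE h.hs.pos B θ' ⊔ EE h.hs.pos B (θ + θ')) ≤
      2 * (m + 1) := by
  obtain ⟨c, hc, hcm⟩ := hθ
  obtain ⟨c', hc', hcm'⟩ := hθ'
  rcases le_total c' c with hcc | hcc
  · exact h.e2_aux hc hc' hcm hcm' hcc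
  · have := h.e2_aux hc' hc hcm' hcm hcc
    rw [add_comm θ' θ, sup_comm (EE h.hs.pos B θ')] at this
    exact this

end full

end Pool.Agent.H17.WH
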