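import Pool.Agent.H17.WH.LDdef

/-!
# From a finite-codimensional subspace to the whole space
-/

set_option autoImplicit false
open Filter Topology

namespace Pool.Agent.H17.WH

variable {X Y : Type*} [NormedAddCommGroup X] [NormedSpace ℝ X]
  [NormedAddCommGroup Y] [NormedSpace ℝ Y]

/-- a finite-codimensional subspace is the range of a bounded projection -/
theorem exists_proj (B : Finset (StrongDual ℝ Y)) : ∃ (P : Y →L[ℝ] perp B) (D : ℝ), 0 ≤ D ∧
    ∀ y : Y, ‖y‖ ≤ ‖P y‖ + D * ∑ l : B, |(l : StrongDual ℝ Y) y| := by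
  classical
  set L : Y →L[ℝ] (B → ℝ) := ContinuousLinearMap.pi fun l : B => (l : StrongDual ℝ Y) with hL
  obtain ⟨g, hg⟩ := LinearMap.exists_rightInverse_of_surjective L.toLinearMap.rangeRestrict
    (LinearMap.range_rangeRestrict L.toLinearMap)
  set G : LinearMap.range L.toLinearMap →L[ℝ] Y := LinearMap.toContinuousLinearMap g with hG
  set R : Y →L[ℝ] LinearMap.range L.toLinearMap :=
    L.codRestrict (LinearMap.range L.toLinearMap) (fun y => ⟨y, rfl⟩) with hR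
  have hGR : ∀ y, L (G (R y)) = L y := by
    intro y
    have h3 : L.toLinearMap.rangeRestrict (g (R y)) = R y := LinearMap.congr_fun hg _
    exact congrArg Subtype.val h3
  have hmem : ∀ y, y - G (R y) ∈ perp B := by
    intro y l hl
    have h6 : l (G (R y)) = l y := congrFun (hGR y) ⟨l, hl⟩
    rw [map_sub, h6, sub_self]
  set P : Y →L[ℝ] perp B :=
    (ContinuousLinearMap.id ℝ Y - G.comp R).codRestrict (perp B) hmem with hP
  refine ⟨P, ‖G‖, G.opNorm_nonneg, ?_⟩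
  intro y
  have h1 : ‖R y‖ ≤ ∑ l : B, |(l : StrongDual ℝ Y) y| := by
    have h3 : ‖R y‖ = ‖L y‖ := rfl
    rw [h3, pi_norm_le_iff_of_nonneg (Finset.sum_nonneg fun _ _ => abs_nonneg _)]
    intro l
    exact Finset.single_le_sum (f := fun l : B => |(l : StrongDual ℝ Y) y|)
      (fun _ _ => abs_nonneg _) (Finset.mem_univ l)
  have h2 : ‖G (R y)‖ ≤ ‖G‖ * ∑ l : B, |(l : StrongDual ℝ Y) y| :=
    (G.le_opNorm _).trans (mul_le_mul_of_nonneg_left h1 G.opNorm_nonneg)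
  have h3 : ‖P y‖ = ‖y - G (R y)‖ := rfl
  have h4 : ‖y‖ ≤ ‖y - G (R y)‖ + ‖G (R y)‖ := by
    have := norm_add_le (y - G (R y)) (G (R y))
    rwa [sub_add_cancel] at this
  rw [h3]
  linarith

/-- `Y` embeds into a finite power of `X` -/
theorem exists_embedding [Nontrivial X] {k : ℕ} {B : Finset (StrongDual ℝ Y)}
    (N : Fin k → (perp B →L[ℝ] X)) (C : ℝ) (hN : ∀ y : perp B, ‖y‖ ≤ C * ∑ j, ‖N j y‖) :
    ∃ (n : ℕ) (J : Y →L[ℝ] (Fin n → X)) (c : ℝ), 0 < c ∧ ∀ y, c * ‖y‖ ≤ ‖J y‖ := by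
  classical
  obtain ⟨x₀, hx₀⟩ := exists_ne (0 : X)
  have hx₀' : 0 < ‖x₀‖ := norm_pos_iff.2 hx₀
  obtain ⟨P, D, hD, hP⟩ := exists_proj B
  set e : Fin (Fintype.card (Fin k ⊕ B)) ≃ Fin k ⊕ B := (Fintype.equivFin _).symm with he
  set f : Fin k ⊕ B → (Y →L[ℝ] X) :=
    Sum.elim (fun j => (N j).comp P) (fun l => (l : StrongDual ℝ Y).smulRight x₀) with hf
  set J : Y →L[ℝ] (Fin (Fintype.card (Fin k ⊕ B)) → X) :=
    ContinuousLinearMap.pi fun i => f (e i) with hJ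
  have hle : ∀ s y, ‖f s y‖ ≤ ‖J y‖ := by
    intro s y
    have h1 := norm_le_pi_norm (J y) (e.symm s)
    have h2 : J y (e.symm s) = f s y := by
      show f (e (e.symm s)) y = f s y
      rw [e.apply_symm_apply]
    rwa [h2] at h1
  set M : ℝ := |C| * k + D * (B.card * ‖x₀‖⁻¹) + 1 with hM
  have hM0 : 0 < M := by positivity
  refine ⟨_, J, M⁻¹, inv_pos.2 hM0, ?_⟩
  intro y
  rw [inv_mul_le_iff₀ hM0]
  have h1 := hP y
  have h2 := hN (P y)
  have h3 : C * ∑ j, ‖N j (P y)‖ ≤ |C| * (k * ‖J y‖) := by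
    have h4 : ∑ j, ‖N j (P y)‖ ≤ k * ‖J y‖ := by
      calc ∑ j, ‖N j (P y)‖ ≤ ∑ _j : Fin k, ‖J y‖ :=
            Finset.sum_le_sum fun j _ => hle (Sum.inl j) y
        _ = k * ‖J y‖ := by
          rw [Finset.sum_const, Finset.card_univ, Fintype.card_fin, nsmul_eq_mul]
    have h5 : 0 ≤ ∑ j, ‖N j (P y)‖ := Finset.sum_nonneg fun _ _ => norm_nonneg _
    calc C * ∑ j, ‖N j (P y)‖ ≤ |C| * ∑ j, ‖N j (P y)‖ :=
          mul_le_mul_of_nonneg_right (le_abs_self _) h5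
      _ ≤ |C| * (k * ‖J y‖) := mul_le_mul_of_nonneg_left h4 (abs_nonneg _)
  have h4 : ∑ l : B, |(l : StrongDual ℝ Y) y| ≤ B.card * (‖J y‖ * ‖x₀‖⁻¹) := by
    calc ∑ l : B, |(l : StrongDual ℝ Y) y| ≤ ∑ _l : B, ‖J y‖ * ‖x₀‖⁻¹ := by
          refine Finset.sum_le_sum fun l _ => ?_
          have h5 := hle (Sum.inr l) y
          have h6 : f (Sum.inr l) y = (l : StrongDual ℝ Y) y • x₀ := rfl
          rw [h6, norm_smul, Real.norm_eq_abs] at h5
          rw [← div_eq_mul_inv, le_div_iff₀ hx₀']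
          exact h5
      _ = B.card * (‖J y‖ * ‖x₀‖⁻¹) := by
          rw [Finset.sum_const, Finset.card_univ, nsmul_eq_mul, Fintype.card_coe]
  have h5 : D * ∑ l : B, |(l : StrongDual ℝ Y) y| ≤ D * (B.card * (‖J y‖ * ‖x₀‖⁻¹)) :=
    mul_le_mul_of_nonneg_left h4 hD
  have h6 : M * ‖J y‖ = |C| * (k * ‖J y‖) + D * (B.card * (‖J y‖ * ‖x₀‖⁻¹)) + ‖J y‖ := by
    rw [hM]
    ring
  have h7 := norm_nonneg (J y)
  linarith

end Pool.Agent.H17.WH
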