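import Pool.Agent.H17.WH.Canon

/-!
# Limits of good tuples: openness and closedness of the family
-/

set_option autoImplicit false
open Filter Topology

namespace Pool.Agent.H17.WH

section general

variable {Y : Type*} [NormedAddCommGroup Y] [NormedSpace ℝ Y]

theorem norm_res_le (Z : Submodule ℝ Y) (f : StrongDual ℝ Y) : ‖res Z f‖ ≤ ‖f‖ := by
  refine ContinuousLinearMap.opNorm_le_bound _ (norm_nonneg _) fun z => ?_
  exact f.le_opNorm (z : Y)

theorem exists_lower_near_dual (Z : Submodule ℝ Y) {k : ℕ} {t : Fin k → StrongDual ℝ Z}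
    (ht : LinearIndependent ℝ t) :
    ∃ c : ℝ, 0 < c ∧ ∃ δ : ℝ, 0 < δ ∧ ∀ t' : Fin k → StrongDual ℝ Z, (∀ j, ‖t' j - t j‖ ≤ δ) →
      ∀ x : Fin k → ℝ, c * ‖x‖ ≤ ‖∑ j, x j • t' j‖ :=
  exists_lower_near (W := StrongDual ℝ Z) (t := t) ht

/-- limits of tuples in the span of `τ i` lie in the span of the limit of `τ i` -/
theorem limit_span {ι : Type*} (U : Ultrafilter ι) (Z : Submodule ℝ Y) {k l : ℕ} {K : ℝ}
    (ξ : ι → Fin k → StrongDual ℝ Y) (hξ : ∀ i a, ‖ξ i a‖ ≤ K) (η : Fin k → StrongDual ℝ Y)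
    (hη : ∀ a y, Tendsto (fun i => ξ i a y) U (𝓝 (η a y)))
    (τ : ι → Fin l → StrongDual ℝ Z) (t : Fin l → StrongDual ℝ Z)
    (ht : ∀ j z, Tendsto (fun i => τ i j z) U (𝓝 (t j z)))
    {c : ℝ} (hc : 0 < c)
    (hlow : ∀ᶠ i in (U : Filter ι), ∀ x : Fin l → ℝ, c * ‖x‖ ≤ ‖∑ j, x j • τ i j‖)
    (hmem : ∀ᶠ i in (U : Filter ι), ∀ a, res Z (ξ i a) ∈ Submodule.span ℝ (Set.range (τ i))) :
    ∀ a, res Z (η a) ∈ Submodule.span ℝ (Set.range t) := by
  classical
  intro a
  have hex : ∀ i, ∃ x : Fin l → ℝ, res Z (ξ i a) ∈ Submodule.span ℝ (Set.range (τ i)) →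
      ∑ j, x j • τ i j = res Z (ξ i a) := by
    intro i
    by_cases h : res Z (ξ i a) ∈ Submodule.span ℝ (Set.range (τ i))
    · rw [Submodule.mem_span_range_iff_exists_fun] at h
      obtain ⟨x, hx⟩ := h
      exact ⟨x, fun _ => hx⟩
    · exact ⟨0, fun h' => absurd h' h⟩
  choose x hx using hex
  have hb : ∀ j, ∀ᶠ i in (U : Filter ι), |x i j| ≤ K / c := by
    intro j
    filter_upwards [hlow, hmem] with i hi1 hi2
    have h1 := hi1 (x i)
    rw [hx i (hi2 a)] at h1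
    have h2 : ‖res Z (ξ i a)‖ ≤ K := (norm_res_le Z _).trans (hξ i a)
    have h3 : |x i j| ≤ ‖x i‖ := norm_le_pi_norm (x i) j
    rw [le_div_iff₀ hc]
    calc |x i j| * c ≤ ‖x i‖ * c := mul_le_mul_of_nonneg_right h3 hc.le
      _ = c * ‖x i‖ := mul_comm _ _
      _ ≤ K := h1.trans h2
  have hlim : ∀ j, ∃ χ : ℝ, Tendsto (fun i => x i j) U (𝓝 χ) := fun j => by
    obtain ⟨χ, -, h⟩ := exists_ulim_real U (fun i => x i j) (K / c) (hb j)
    exact ⟨χ, h⟩
  choose χ hχ using hlim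
  rw [Submodule.mem_span_range_iff_exists_fun]
  refine ⟨χ, ?_⟩
  ext z
  have h1 : Tendsto (fun i => ξ i a (z : Y)) U (𝓝 (η a (z : Y))) := hη a z
  have h2 : Tendsto (fun i => ∑ j, x i j * τ i j z) U (𝓝 (∑ j, χ j * t j z)) := by
    apply tendsto_finsetSum
    intro j _
    exact (hχ j).mul (ht j z)
  have h3 : (fun i => ξ i a (z : Y)) =ᶠ[(U : Filter ι)] fun i => ∑ j, x i j * τ i j z := by
    filter_upwards [hmem] with i hi
    have h4 := hx i (hi a)
    have h5 : res Z (ξ i a) z = (∑ j, x i j • τ i j) z := by rw [h4]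
    rw [sum_apply] at h5
    exact h5
  have h4 := tendsto_nhds_unique (h2.congr' h3.symm) h1
  rw [sum_apply]
  exact h4

end general

variable {X Y : Type*} [NormedAddCommGroup X] [NormedSpace ℝ X]
  [NormedAddCommGroup Y] [NormedSpace ℝ Y]

section full

variable {H : Y → X} {m : ℕ} {A : Finset (StrongDual ℝ Y)} {K C : ℝ}
    {φ₁ : StrongDual ℝ X} {Q₁ : Finset Y} {B : Finset (StrongDual ℝ Y)}
    {φ₂ : StrongDual ℝ X} {Q₂ : Finset Y} {R r : ℝ} (h : Full H m A K C φ₁ Q₁ B φ₂ Q₂ R r)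

include h

/-- strictly good tuples of a net converging to `θ` have good limits -/
theorem Full.good_limit {ι : Type*} (U : Ultrafilter ι) {θ : StrongDual ℝ X}
    (hθ : θ ∈ cone φ₂ r) (ζ : ι → StrongDual ℝ X) (hζ : Tendsto ζ U (𝓝 θ))
    (η : Fin (m + 1) → StrongDual ℝ Y) (hηK : ∀ a, ‖η a‖ ≤ K)
    (hη : ∀ a y, Tendsto (fun i => xi h.hs.pos (ζ i) a y) U (𝓝 (η a y))) :
    Good H A K (2 * C) θ η := by
  refine ⟨hηK, ?_⟩
  have hC := h.hs.C1
  have hne : θ ≠ 0 := by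
    intro h0
    rw [h0] at hθ
    exact h.zero_notMem hθ
  have hpos : 0 < ‖θ‖ := norm_pos_iff.2 hne
  have hev : ∀ᶠ i in (U : Filter ι), ‖ζ i‖ < 2 * ‖θ‖ :=
    hζ.norm.eventually_lt_const (by linarith)
  refine bound_limit h.hs.wc U A ζ θ (2 * C * ‖θ‖) (fun i => xi h.hs.pos (ζ i)) η ?_ ?_ hη
  · intro y
    have h2 : Continuous fun f : StrongDual ℝ X => f (H y) := by fun_prop
    exact (h2.tendsto θ).comp hζ
  · filter_upwards [hev] with i hi y hy hyξ
    have h1 := (xi_good h.hs.pos (ζ i)).2 y hy hyξ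
    nlinarith

theorem Full.e3a {θ : StrongDual ℝ X} (hθ : θ ∈ cone φ₂ r)
    (F : Submodule ℝ (StrongDual ℝ (perp B))) (hF : F.FG)
    (hd : Disjoint (EE h.hs.pos B θ) F) : ∀ᶠ θ' in 𝓝 θ, Disjoint (EE h.hs.pos B θ') F := by
  classical
  by_contra hcon
  rw [Filter.not_eventually] at hcon
  have hne : (𝓝 θ ⊓ 𝓟 {θ' | ¬ Disjoint (EE h.hs.pos B θ') F}).NeBot :=
    frequently_mem_iff_neBot.1 hcon
  set U := Ultrafilter.of (𝓝 θ ⊓ 𝓟 {θ' | ¬ Disjoint (EE h.hs.pos B θ') F}) with hU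
  have hUle : (U : Filter (StrongDual ℝ X)) ≤ 𝓝 θ ⊓ 𝓟 {θ' | ¬ Disjoint (EE h.hs.pos B θ') F} :=
    Ultrafilter.of_le _
  have hUθ : Tendsto (fun θ' : StrongDual ℝ X => θ') U (𝓝 θ) := hUle.trans inf_le_left
  have hUd : ∀ᶠ θ' in (U : Filter (StrongDual ℝ X)), ¬ Disjoint (EE h.hs.pos B θ') F :=
    le_principal_iff.1 (hUle.trans inf_le_right)
  have hex : ∀ θ' : StrongDual ℝ X, ∃ c : Fin (m + 1) → ℝ, (∀ i, |c i| ≤ 1) ∧
      (¬ Disjoint (EE h.hs.pos B θ') F → 1 ≤ ∑ i, |c i| ∧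
        ∑ i, c i • res (perp B) (xi h.hs.pos θ' i) ∈ F) := by
    intro θ'
    by_cases hdis : Disjoint (EE h.hs.pos B θ') F
    · exact ⟨0, fun i => by simp, fun h' => absurd hdis h'⟩
    · have h1 : ∃ x ∈ EE h.hs.pos B θ', x ∈ F ∧ x ≠ 0 := by
        by_contra hno
        push Not at hno
        exact hdis (Submodule.disjoint_def.2 hno)
      obtain ⟨x, hx, hxF, hx0⟩ := h1
      unfold EE sp at hx
      rw [Submodule.mem_span_range_iff_exists_fun] at hx
      obtain ⟨g, hg⟩ := hx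
      obtain ⟨i₀, hi₀⟩ := Finite.exists_max fun i => |g i|
      have hpos : 0 < |g i₀| := by
        by_contra hle
        apply hx0
        rw [← hg]
        refine Finset.sum_eq_zero fun i _ => ?_
        have h2 : |g i| ≤ 0 := (hi₀ i).trans (not_lt.1 hle)
        have h3 : g i = 0 := abs_eq_zero.1 (le_antisymm h2 (abs_nonneg _))
        rw [h3, zero_smul]
      refine ⟨fun i => (g i₀)⁻¹ * g i, ?_, fun _ => ⟨?_, ?_⟩⟩
      · intro i
        rw [abs_mul, abs_inv, inv_mul_le_iff₀ hpos, mul_one]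
        exact hi₀ i
      · have h2 : |(g i₀)⁻¹ * g i₀| = 1 := by
          rw [inv_mul_cancel₀ (abs_pos.1 hpos), abs_one]
        rw [← h2]
        exact Finset.single_le_sum (f := fun i => |(g i₀)⁻¹ * g i|)
          (fun i _ => abs_nonneg _) (Finset.mem_univ i₀)
      · have h2 : ∑ i, ((g i₀)⁻¹ * g i) • res (perp B) (xi h.hs.pos θ' i) = (g i₀)⁻¹ • x := by
          rw [← hg, Finset.smul_sum]
          exact Finset.sum_congr rfl fun i _ => mul_smul _ _ _
        rw [h2]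
        exact F.smul_mem _ hxF
  choose c hc1 hc2 using hex
  have hlim : ∀ a : Fin (m + 1), ∃ g : StrongDual ℝ Y, ‖g‖ ≤ K ∧
      ∀ y, Tendsto (fun θ' => xi h.hs.pos θ' a y) U (𝓝 (g y)) := fun a =>
    exists_ulim U (fun θ' => xi h.hs.pos θ' a) K fun θ' => (xi_good h.hs.pos θ').1 a
  choose η hηK hη using hlim
  have hlimc : ∀ a : Fin (m + 1), ∃ γ : ℝ, Tendsto (fun θ' => c θ' a) U (𝓝 γ) := fun a => by
    obtain ⟨γ, -, hγ⟩ := exists_ulim_real U (fun θ' => c θ' a) 1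
      (Eventually.of_forall fun θ' => hc1 θ' a)
    exact ⟨γ, hγ⟩
  choose γ hγ using hlimc
  have hgood := h.good_limit U hθ (fun θ' => θ') hUθ η hηK hη
  obtain ⟨hli, hsp⟩ := h.canon_cone hθ hgood
  have hfF : ∑ a, γ a • res (perp B) (η a) ∈ F := by
    refine mem_of_ulim U hF (fun θ' => ∑ a, c θ' a • res (perp B) (xi h.hs.pos θ' a)) _ ?_ ?_
    · filter_upwards [hUd] with θ' hθ'
      exact (hc2 θ' hθ').2
    · intro z
      have h1 : Tendsto (fun θ' => ∑ a, c θ' a * xi h.hs.pos θ' a (z : Y)) U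
          (𝓝 (∑ a, γ a * η a (z : Y))) := by
        apply tendsto_finsetSum
        intro a _
        exact (hγ a).mul (hη a z)
      have h2 : (fun θ' => (∑ a, c θ' a • res (perp B) (xi h.hs.pos θ' a)) z) =
          fun θ' => ∑ a, c θ' a * xi h.hs.pos θ' a (z : Y) := by
        ext1 θ'
        rw [sum_apply]
        rfl
      have h3 : (∑ a, γ a • res (perp B) (η a)) z = ∑ a, γ a * η a (z : Y) := by
        rw [sum_apply]
        rfl
      rw [h2, h3]
      exact h1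
  have hfE : ∑ a, γ a • res (perp B) (η a) ∈ EE h.hs.pos B θ := by
    rw [← hsp]
    unfold sp
    exact Submodule.sum_mem _ fun a _ => Submodule.smul_mem _ _ (Submodule.subset_span ⟨a, rfl⟩)
  have h0 := Submodule.disjoint_def.1 hd _ hfE hfF
  have hγ0 := Fintype.linearIndependent_iff.1 hli γ h0
  have hsum : 1 ≤ ∑ a, |γ a| := by
    have h1 : Tendsto (fun θ' => ∑ a, |c θ' a|) U (𝓝 (∑ a, |γ a|)) := by
      apply tendsto_finsetSum
      intro a _
      exact (hγ a).abs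
    refine ge_of_tendsto h1 ?_
    filter_upwards [hUd] with θ' hθ'
    exact (hc2 θ' hθ').1
  have h1 : ∑ a, |γ a| = 0 := Finset.sum_eq_zero fun a _ => by rw [hγ0 a, abs_zero]
  linarith

theorem Full.e3b {θ : StrongDual ℝ X} (hθ : θ ∈ cone φ₂ r) (u : ℕ → StrongDual ℝ X)
    (τ : ℕ → Fin (m + 1) → StrongDual ℝ (perp B)) (t : Fin (m + 1) → StrongDual ℝ (perp B))
    (hu : Tendsto u atTop (𝓝 θ)) (hτ : Tendsto τ atTop (𝓝 t)) (hli : LinearIndependent ℝ t)
    (hev : ∀ᶠ n in atTop, EE h.hs.pos B (u n) = Submodule.span ℝ (Set.range (τ n))) :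
    EE h.hs.pos B θ = Submodule.span ℝ (Set.range t) := by
  classical
  set U := hyperfilter ℕ with hU
  have hUle : (U : Filter ℕ) ≤ atTop := Nat.hyperfilter_le_atTop
  have hlim : ∀ a : Fin (m + 1), ∃ g : StrongDual ℝ Y, ‖g‖ ≤ K ∧
      ∀ y, Tendsto (fun n => xi h.hs.pos (u n) a y) U (𝓝 (g y)) := fun a =>
    exists_ulim U (fun n => xi h.hs.pos (u n) a) K fun n => (xi_good h.hs.pos (u n)).1 a
  choose η hηK hη using hlim
  have hgood := h.good_limit U hθ u (hu.mono_left hUle) η hηK hη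
  obtain ⟨hliη, hsp⟩ := h.canon_cone hθ hgood
  obtain ⟨c, hc, δ, hδ, hlow⟩ := exists_lower_near_dual (perp B) hli
  have hmem := limit_span U (perp B) (fun n => xi h.hs.pos (u n))
    (fun n a => (xi_good h.hs.pos (u n)).1 a) η hη τ t (by
      intro j z
      rw [tendsto_pi_nhds] at hτ
      have h1 := (hτ j).mono_left hUle
      have h2 : Continuous fun f : StrongDual ℝ (perp B) => f z := by fun_prop
      exact (h2.tendsto _).comp h1) hc (by
      have h1 : ∀ᶠ n in atTop, ∀ j, ‖τ n j - t j‖ ≤ δ := by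
        rw [eventually_all]
        intro j
        rw [tendsto_pi_nhds] at hτ
        have h2 := (hτ j).sub_const (t j)
        rw [sub_self] at h2
        have h3 : Tendsto (fun n => ‖τ n j - t j‖) atTop (𝓝 0) := by
          have h4 := Filter.Tendsto.norm (E := StrongDual ℝ (perp B)) h2
          convert h4 using 2
          exact (norm_zero (E := StrongDual ℝ (perp B))).symm
        exact (h3.eventually_lt_const hδ).mono fun n hn => hn.le
      filter_upwards [hUle h1] with n hn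
      exact hlow (τ n) hn) (by
      filter_upwards [hUle hev] with n hn a
      rw [← hn]
      exact Submodule.subset_span ⟨a, rfl⟩)
  have hle : EE h.hs.pos B θ ≤ Submodule.span ℝ (Set.range t) := by
    rw [← hsp]
    unfold sp
    rw [Submodule.span_le]
    rintro _ ⟨a, rfl⟩
    exact hmem a
  have hfd : FiniteDimensional ℝ (Submodule.span ℝ (Set.range t)) :=
    FiniteDimensional.span_of_finite ℝ (Set.finite_range _)
  have hfr := finrank_span_eq_card hli
  rw [Fintype.card_fin] at hfr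
  apply Submodule.eq_of_le_of_finrank_le hle
  rw [h.dim hθ, hfr]

theorem Full.e4 {θ : StrongDual ℝ X} (hθ : θ ∈ cone φ₂ r)
    (F : Submodule ℝ (StrongDual ℝ (perp B))) (hF : F.FG) (N : Set (StrongDual ℝ X))
    (hN : N ∈ 𝓝 θ) : ∃ θ' ∈ N, θ' ∈ cone φ₂ r ∧ Disjoint (EE h.hs.pos B θ') F := by
  classical
  have hC := h.hs.C1
  obtain ⟨s, hs⟩ := hF
  -- extensions of the generators of `F`
  have hext : ∀ g : StrongDual ℝ (perp B), ∃ f : StrongDual ℝ Y, ∀ z : perp B, f (z : Y) = g z := by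
    intro g
    obtain ⟨f, hf, -⟩ := exists_extension_norm_eq (perp B) g
    exact ⟨f, hf⟩
  choose ext hextg using hext
  set η : Finset (StrongDual ℝ Y) := B ∪ (s.image ext ∪ Finset.univ.image (xi h.hs.pos θ)) with hη
  obtain ⟨R', hR'1, hR'⟩ := exists_R η ((m + 1) * K)
  obtain ⟨δ, hδ, hball⟩ := Metric.mem_nhds_iff.1 (inter_mem hN ((cone_open φ₂ r).mem_nhds hθ))
  set t : ℝ := min (δ / 2) 1 with ht
  have ht0 : 0 < t := lt_min (by linarith) one_pos
  have ht1 : t ≤ 1 := min_le_right _ _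
  have htδ : t < δ := (min_le_left _ _).trans_lt (by linarith)
  obtain ⟨φ₃, hφ₃, Q₃, hQ₃, hcov⟩ := neg_pprop
    (h.hs.neg (η.image fun l => R' • l) (2 * (2 * (m + 1) * K)) (2 * C * (2 * ‖θ‖ + 1) / t))
  set θ' : StrongDual ℝ X := θ + t • φ₃ with hθ'
  have htn : ‖t • φ₃‖ ≤ t := by
    rw [norm_smul, Real.norm_eq_abs, abs_of_pos ht0]
    nlinarith
  have hmem : θ' ∈ N ∩ cone φ₂ r := by
    apply hball
    rw [Metric.mem_ball, dist_eq_norm, hθ', add_sub_cancel_left]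
    exact htn.trans_lt htδ
  refine ⟨θ', hmem.1, hmem.2, ?_⟩
  have hli : LinearIndependent ℝ fun i => res (perp η) (xi h.hs.pos θ' i) := by
    by_contra hdep
    obtain ⟨ψ, hψ, hψ'⟩ := drop η m K R' hR' (xi h.hs.pos θ') (xi_good h.hs.pos θ').1 hdep
    obtain ⟨p, hp, hpψ, hpL⟩ := hcov ψ hψ
    have hpη : ∀ l ∈ η, R' * |l p| ≤ 1 := mem_slab_image (zero_le_one.trans hR'1) (hQ₃ p hp)
    have hpξ' := hψ' p hpη hpψ
    have hpη1 : ∀ l ∈ η, |l p| ≤ 1 := by
      intro l hl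
      have h3 := hpη l hl
      have h5 := abs_nonneg (l p)
      nlinarith
    have hpA : p ∈ slab A := fun l hl =>
      hpη1 l (Finset.mem_union_left _ (h.h1.sub hl))
    have hpξ : p ∈ tslab (xi h.hs.pos θ) := fun i =>
      hpη1 _ (Finset.mem_union_right _ (Finset.mem_union_right _
        (Finset.mem_image_of_mem _ (Finset.mem_univ i))))
    have b1 := (xi_good h.hs.pos θ').2 p hpA hpξ'
    have b2 := (xi_good h.hs.pos θ).2 p hpA hpξ
    have b3 : θ' (H p) = θ (H p) + t * φ₃ (H p) := rfl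
    rw [b3] at b1
    have b4 : ‖θ'‖ ≤ ‖θ‖ + t := (norm_add_le _ _).trans (by linarith)
    have b5 : |t * φ₃ (H p)| ≤ |θ (H p) + t * φ₃ (H p)| + |θ (H p)| := by
      have : t * φ₃ (H p) = (θ (H p) + t * φ₃ (H p)) - θ (H p) := by ring
      rw [this]
      have h6 : θ (H p) + (θ (H p) + t * φ₃ (H p) - θ (H p)) = θ (H p) + t * φ₃ (H p) := by ring
      rw [h6]
      exact abs_sub _ _
    rw [abs_mul, abs_of_pos ht0] at b5
    rw [div_lt_iff₀ ht0] at hpL
    have b6 : C * ‖θ'‖ ≤ C * (‖θ‖ + t) := mul_le_mul_of_nonneg_left b4 (by linarith)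
    have b7 : 0 ≤ ‖θ‖ := norm_nonneg _
    nlinarith
  rw [Submodule.disjoint_def]
  intro x hx hxF
  unfold EE sp at hx
  rw [Submodule.mem_span_range_iff_exists_fun] at hx
  obtain ⟨c, hc⟩ := hx
  have hperp : ∀ y ∈ perp η, y ∈ perp B := fun y hy l hl => hy l (Finset.mem_union_left _ hl)
  have hvan : ∀ (y : Y) (hy : y ∈ perp η), x ⟨y, hperp y hy⟩ = 0 := by
    intro y hy
    rw [← hs] at hxF
    clear hc
    induction hxF using Submodule.span_induction with
    | mem g hg =>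
      rw [← hextg g]
      exact hy _ (Finset.mem_union_right _ (Finset.mem_union_left _
        (Finset.mem_image_of_mem _ hg)))
    | zero => rfl
    | add a b _ _ ha hb =>
      have : (a + b) ⟨y, hperp y hy⟩ = a ⟨y, hperp y hy⟩ + b ⟨y, hperp y hy⟩ := rfl
      rw [this, ha, hb, add_zero]
    | smul a g _ hg =>
      have : (a • g) ⟨y, hperp y hy⟩ = a * g ⟨y, hperp y hy⟩ := rfl
      rw [this, hg, mul_zero]
  have hc0 : ∀ i, c i = 0 := by
    apply Fintype.linearIndependent_iff.1 hli c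
    ext y
    have h1 := hvan y y.2
    rw [← hc, sum_apply] at h1
    rw [sum_apply]
    exact h1
  rw [← hc]
  exact Finset.sum_eq_zero fun i _ => by rw [hc0 i, zero_smul]

end full

end Pool.Agent.H17.WH
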