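import Pool.Agent.H17.WH.Link
import Pool.Agent.H17.WH.Limits

/-!
# Existence of the family of subspaces
-/

set_option autoImplicit false
open Filter Topology

namespace Pool.Agent.H17.WH

variable {X Y : Type*} [NormedAddCommGroup X] [NormedSpace ℝ X]
  [NormedAddCommGroup Y] [NormedSpace ℝ Y]

theorem Full.nonempty {H : Y → X} {m : ℕ} {A : Finset (StrongDual ℝ Y)} {K C : ℝ}
    {φ₁ : StrongDual ℝ X} {Q₁ : Finset Y} {B : Finset (StrongDual ℝ Y)}
    {φ₂ : StrongDual ℝ X} {Q₂ : Finset Y} {R r : ℝ} (h : Full H m A K C φ₁ Q₁ B φ₂ Q₂ R r) :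
    (cone φ₂ r).Nonempty :=
  ⟨φ₂, 1, one_pos, by
    rw [one_smul]
    exact Metric.mem_ball_self h.h2.r0⟩

theorem Full.link {H : Y → X} {m : ℕ} {A : Finset (StrongDual ℝ Y)} {K C : ℝ}
    {φ₁ : StrongDual ℝ X} {Q₁ : Finset Y} {B : Finset (StrongDual ℝ Y)}
    {φ₂ : StrongDual ℝ X} {Q₂ : Finset Y} {R r : ℝ} (h : Full H m A K C φ₁ Q₁ B φ₂ Q₂ R r) :
    Link H (m + 1) A K C (perp B) (cone φ₂ r) (EE h.hs.pos B) where
  K_pos := zero_lt_one.trans_le h.hs.K1
  C_pos := zero_lt_one.trans_le h.hs.C1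
  Z_le := perp_anti h.h1.sub
  Z_perp := ⟨B, rfl⟩
  fam :=
    { isOpen := cone_open φ₂ r
      nonempty := h.nonempty
      add_mem := fun h1 h2 => cone_add h1 h2
      smul_mem := fun h1 h2 => cone_smul h1 h2
      fd := fun θ => EE_fd h.hs.pos B θ
      dim := fun hθ => h.dim hθ
      smul := fun hθ hc => h.smul hθ hc
      e2 := fun hθ hθ' => h.e2 hθ hθ'
      e3a := fun hθ F hF hd => h.e3a hθ F (Module.Finite.iff_fg.1 hF) hd
      e3b := fun hθ u τ t hu hτ hli hev => h.e3b hθ u τ t hu hτ hli hev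
      e4 := fun hθ F hF N hN => h.e4 hθ F (Module.Finite.iff_fg.1 hF) N hN }
  strict := fun θ => ⟨xi h.hs.pos θ, xi_good h.hs.pos θ⟩
  good_span := fun _ hθ _ hξ => (h.canon_cone hθ hξ).2

theorem PProp.mono {H : Y → X} {k : ℕ} {A : Finset (StrongDual ℝ Y)} {K C K' C' : ℝ}
    (h : PProp H k A K C) (hK : K ≤ K') (hC : C ≤ C') : PProp H k A K' C' := by
  intro φ hφ
  obtain ⟨ψ, h1, h2⟩ := h φ hφ
  exact ⟨ψ, fun i => (h1 i).trans hK, fun y hy hyψ => (h2 y hy hyψ).trans hC⟩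

/-- Sections 1 to 3: either `H` is bounded on a slab, or there is a family of subspaces. -/
theorem exists_link (H : Y → X) (hH : WCont H) (h0 : H 0 = 0) :
    (∃ (A : Finset (StrongDual ℝ Y)) (C : ℝ), ∀ y ∈ slab A, ‖H y‖ ≤ C) ∨
    ∃ (m : ℕ) (A : Finset (StrongDual ℝ Y)) (K C : ℝ) (B : Finset (StrongDual ℝ Y))
      (O : Set (StrongDual ℝ X)) (E : StrongDual ℝ X → Submodule ℝ (StrongDual ℝ (perp B))),
      Link H (m + 1) A K C (perp B) O E := by
  classical
  have hex : ∃ k : ℕ, ∃ (A : Finset (StrongDual ℝ Y)) (K C : ℝ), PProp H k A K C :=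
    exists_pprop H hH h0
  obtain ⟨A, K, C, hP⟩ := Nat.find_spec hex
  rcases hk : Nat.find hex with _ | m
  · left
    rw [hk] at hP
    refine ⟨A, max C 0, ?_⟩
    intro y hy
    apply NormedSpace.norm_le_dual_bound ℝ _ (le_max_right _ _)
    intro f
    obtain ⟨ξ, hξ⟩ := exists_strict hP f
    have h1 := hξ.2 y hy (fun i => i.elim0)
    rw [Real.norm_eq_abs]
    exact h1.trans (mul_le_mul_of_nonneg_right (le_max_left _ _) (norm_nonneg _))
  · right
    rw [hk] at hP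
    have hs : Setup H m A (max K 1) (max C 1) :=
      ⟨hH, le_max_right _ _, le_max_right _ _, hP.mono (le_max_left _ _) (le_max_left _ _), by
        intro A' K' C' h
        have h1 : m < Nat.find hex := by rw [hk]; exact Nat.lt_succ_self m
        exact Nat.find_min hex h1 ⟨A', K', C', h⟩⟩
    obtain ⟨φ₁, Q₁, B, h1⟩ := hs.exists_first h0
    obtain ⟨φ₂, Q₂, R, r, h2⟩ := hs.exists_second B
    have hfull : Full H m A (max K 1) (max C 1) φ₁ Q₁ B φ₂ Q₂ R r := ⟨hs, h1, h2⟩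
    exact ⟨m, A, _, _, B, _, _, hfull.link⟩

end Pool.Agent.H17.WH
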