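import Pool.Agent.H17.WH.Basic

/-!
# Gauss bases of subspaces of `ℝ^I`, separation, and the dimension estimate
-/

set_option autoImplicit false
open Filter Topology

namespace Pool.Agent.H17.WH

/-- Gauss elimination with maximal pivots: a basis with controlled coefficients. -/
theorem gauss {I : Type*} [Fintype I] (d : ℕ) : ∀ (N : Submodule ℝ (I → ℝ)),
    Module.finrank ℝ N ≤ d →
    ∃ c : Fin d → (I → ℝ), (∀ l, c l ∈ N ∧ ∀ i, |c l i| ≤ 1) ∧
      ∀ v ∈ N, (∀ i, |v i| ≤ 1) → ∃ α : Fin d → ℝ, (∀ l, |α l| ≤ 2 ^ d) ∧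
        v = ∑ l, α l • c l := by
  induction d with
  | zero =>
    intro N hN
    have hN' : N = ⊥ := Submodule.finrank_eq_zero.1 (Nat.le_zero.1 hN)
    refine ⟨fun l => l.elim0, fun l => l.elim0, ?_⟩
    intro v hv _
    rw [hN', Submodule.mem_bot] at hv
    exact ⟨fun l => l.elim0, fun l => l.elim0, by simp [hv]⟩
  | succ d ih =>
    intro N hN
    by_cases hbot : N = ⊥
    · refine ⟨fun _ => 0, fun l => ⟨N.zero_mem, fun i => by simp⟩, ?_⟩
      intro v hv _
      rw [hbot, Submodule.mem_bot] at hv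
      exact ⟨fun _ => 0, fun l => by simp, by simp [hv]⟩
    · obtain ⟨v₀, hv₀, hne⟩ := Submodule.exists_mem_ne_zero_of_ne_bot hbot
      have hI : Nonempty I := by
        by_contra hI
        rw [not_nonempty_iff] at hI
        exact hne (Subsingleton.elim _ _)
      obtain ⟨i₀, hi₀⟩ := Finite.exists_max fun i => |v₀ i|
      have hpos : 0 < |v₀ i₀| := by
        by_contra hle
        apply hne
        ext i
        have h1 := hi₀ i
        have h2 : |v₀ i| ≤ 0 := h1.trans (not_lt.1 hle)
        exact abs_eq_zero.1 (le_antisymm h2 (abs_nonneg _))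
      have hne' : v₀ i₀ ≠ 0 := abs_pos.1 hpos
      set c₀ : I → ℝ := (v₀ i₀)⁻¹ • v₀ with hc₀
      have hc₀N : c₀ ∈ N := N.smul_mem _ hv₀
      have hc₀1 : c₀ i₀ = 1 := by
        rw [hc₀, Pi.smul_apply, smul_eq_mul, inv_mul_cancel₀ hne']
      have hc₀le : ∀ i, |c₀ i| ≤ 1 := by
        intro i
        rw [hc₀, Pi.smul_apply, smul_eq_mul, abs_mul, abs_inv, inv_mul_le_iff₀ hpos, mul_one]
        exact hi₀ i
      set N' : Submodule ℝ (I → ℝ) := N ⊓ LinearMap.ker (LinearMap.proj i₀ : (I → ℝ) →ₗ[ℝ] ℝ)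
        with hN'
      have hlt : N' < N := by
        refine lt_of_le_of_ne inf_le_left ?_
        intro he
        have : c₀ ∈ N' := by
          rw [he]
          exact hc₀N
        have h2 : c₀ i₀ = 0 := this.2
        rw [hc₀1] at h2
        exact one_ne_zero h2
      have hfr : Module.finrank ℝ N' ≤ d := by
        have := Submodule.finrank_lt_finrank_of_lt hlt
        omega
      obtain ⟨c, hc, hcv⟩ := ih N' hfr
      refine ⟨Fin.cons c₀ c, ?_, ?_⟩
      · intro l
        refine Fin.cases ?_ (fun l => ?_) l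
        · rw [Fin.cons_zero]
          exact ⟨hc₀N, hc₀le⟩
        · rw [Fin.cons_succ]
          exact ⟨(hc l).1.1, (hc l).2⟩
      · intro v hv hv1
        have hw : (1 / 2 : ℝ) • (v - v i₀ • c₀) ∈ N' := by
          refine ⟨N.smul_mem _ (N.sub_mem hv (N.smul_mem _ hc₀N)), ?_⟩
          show ((1 / 2 : ℝ) • (v - v i₀ • c₀)) i₀ = 0
          rw [Pi.smul_apply, Pi.sub_apply, Pi.smul_apply, hc₀1]
          simp
        obtain ⟨α, hα, hαv⟩ := hcv _ hw (by
          intro i
          rw [Pi.smul_apply, Pi.sub_apply, Pi.smul_apply, smul_eq_mul, smul_eq_mul, abs_mul,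
            abs_of_pos (by norm_num : (0:ℝ) < 1 / 2)]
          have h1 : |v i - v i₀ * c₀ i| ≤ |v i| + |v i₀ * c₀ i| := abs_sub _ _
          have h2 : |v i₀ * c₀ i| ≤ 1 := by
            rw [abs_mul]
            exact mul_le_one₀ (hv1 i₀) (abs_nonneg _) (hc₀le i)
          have h3 := hv1 i
          linarith)
        refine ⟨Fin.cons (v i₀) fun l => 2 * α l, ?_, ?_⟩
        · intro l
          refine Fin.cases ?_ (fun l => ?_) l
          · rw [Fin.cons_zero]
            exact (hv1 i₀).trans (one_le_pow₀ (by norm_num))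
          · rw [Fin.cons_succ, abs_mul, abs_of_pos (by norm_num : (0:ℝ) < 2), pow_succ]
            have := hα l
            linarith
        · rw [Fin.sum_univ_succ]
          simp only [Fin.cons_zero, Fin.cons_succ]
          have h1 : ∑ l, (2 * α l) • c l = (2 : ℝ) • ∑ l, α l • c l := by
            rw [Finset.smul_sum]
            exact Finset.sum_congr rfl fun l _ => mul_smul _ _ _
          rw [h1, ← hαv]
          clear_value c₀
          module

/-- separation of an affine subspace from the cube -/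
theorem sep {I : Type*} [Fintype I] (S : Submodule ℝ (I → ℝ)) (a : I → ℝ)
    (h : ∀ s ∈ S, ∃ i, 1 < |a i + s i|) :
    ∃ c : I → ℝ, (∀ s ∈ S, ∑ i, c i * s i = 0) ∧ (∑ i, |c i|) ≤ 1 ∧ 1 < ∑ i, c i * a i := by
  classical
  have hcomp : IsCompact (Metric.closedBall (0 : I → ℝ) 1) := isCompact_closedBall _ _
  have hScl : IsClosed (S : Set (I → ℝ)) := Submodule.closed_of_finiteDimensional S
  obtain ⟨f, u, v, hfu, huv, hvf⟩ := geometric_hahn_banach_compact_closed
    (convex_closedBall (0 : I → ℝ) 1) hcomp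
    (t := {x | x - a ∈ S}) (by
      intro x hx y hy α β hα hβ hαβ
      have h1 : α • x + β • y - a = α • (x - a) + β • (y - a) := by
        have : β = 1 - α := by linarith
        subst this
        module
      show α • x + β • y - a ∈ S
      rw [h1]
      exact S.add_mem (S.smul_mem _ hx) (S.smul_mem _ hy))
    (by
      have : Continuous fun x : I → ℝ => x - a := by fun_prop
      exact hScl.preimage this)
    (by
      rw [Set.disjoint_left]
      intro x hx hxt
      obtain ⟨i, hi⟩ := h _ hxt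
      have h1 : |x i| ≤ 1 := by
        have h2 := norm_le_pi_norm x i
        rw [mem_closedBall_zero_iff] at hx
        exact h2.trans hx
      have h2 : a i + (x - a) i = x i := by
        rw [Pi.sub_apply]
        ring
      rw [h2] at hi
      linarith)
  set c : I → ℝ := fun i => f (Pi.single i 1) with hc
  have hf : ∀ x : I → ℝ, f x = ∑ i, c i * x i := by
    intro x
    have : x = ∑ i, x i • (Pi.single i (1 : ℝ) : I → ℝ) := by
      ext j
      simp [Finset.sum_apply, Pi.single_apply]
    conv_lhs => rw [this]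
    rw [map_sum]
    refine Finset.sum_congr rfl fun i _ => ?_
    rw [map_smul, smul_eq_mul, hc]
    ring
  have ha : v < f a := hvf a (by
    show a - a ∈ S
    rw [sub_self]
    exact S.zero_mem)
  have hS : ∀ s ∈ S, f s = 0 := by
    intro s hs
    by_contra hne
    have h1 := hvf (a + ((v - f a) / f s) • s) (by
      show a + ((v - f a) / f s) • s - a ∈ S
      rw [add_sub_cancel_left]
      exact S.smul_mem _ hs)
    rw [map_add, map_smul, smul_eq_mul, div_mul_cancel₀ _ hne] at h1
    linarith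
  have hL : ∑ i, |c i| < u := by
    have h1 := hfu (fun i => SignType.sign (c i)) (by
      rw [mem_closedBall_zero_iff, pi_norm_le_iff_of_nonneg zero_le_one]
      intro i
      rcases lt_trichotomy (c i) 0 with hlt | heq | hgt
      · simp [sign_neg hlt]
      · simp [heq]
      · simp [sign_pos hgt])
    rw [hf] at h1
    refine lt_of_eq_of_lt (Finset.sum_congr rfl fun i _ => ?_) h1
    rw [self_mul_sign]
  have hL0 : 0 ≤ ∑ i, |c i| := Finset.sum_nonneg fun i _ => abs_nonneg _
  have hLpos : 0 < ∑ i, |c i| := by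
    refine lt_of_le_of_ne hL0 ?_
    intro he
    have h1 : ∀ i, c i = 0 := by
      intro i
      have := (Finset.sum_eq_zero_iff_of_nonneg (fun i _ => abs_nonneg (c i))).1 he.symm i
        (Finset.mem_univ i)
      exact abs_eq_zero.1 this
    have h2 : f a = 0 := by
      rw [hf]
      exact Finset.sum_eq_zero fun i _ => by rw [h1 i, zero_mul]
    linarith
  refine ⟨fun i => (∑ i, |c i|)⁻¹ * c i, ?_, ?_, ?_⟩
  · intro s hs
    have h1 : ∑ i, (∑ i, |c i|)⁻¹ * c i * s i = (∑ i, |c i|)⁻¹ * ∑ i, c i * s i := by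
      rw [Finset.mul_sum]
      exact Finset.sum_congr rfl fun i _ => by ring
    rw [h1, ← hf, hS s hs, mul_zero]
  · have h1 : ∑ i, |(∑ i, |c i|)⁻¹ * c i| = (∑ i, |c i|)⁻¹ * ∑ i, |c i| := by
      rw [Finset.mul_sum]
      refine Finset.sum_congr rfl fun i _ => ?_
      rw [abs_mul, abs_inv, abs_of_pos hLpos]
    rw [h1, inv_mul_cancel₀ hLpos.ne']
  · have h1 : ∑ i, (∑ i, |c i|)⁻¹ * c i * a i = (∑ i, |c i|)⁻¹ * ∑ i, c i * a i := by
      rw [Finset.mul_sum]
      exact Finset.sum_congr rfl fun i _ => by ring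
    rw [h1, ← hf, lt_inv_mul_iff₀ hLpos, mul_one]
    linarith

variable {Y : Type*} [NormedAddCommGroup Y] [NormedSpace ℝ Y]

/-- the dimension estimate -/
theorem dim_core {I : Type*} [Fintype I] (x : I → StrongDual ℝ Y) (K : ℝ) (hx : ∀ i, ‖x i‖ ≤ K)
    (Z : Submodule ℝ Y) (m : ℕ) (B : Set Y)
    (h1 : ∀ p ∈ B, ∀ y ∈ Z, ∃ i, 1 < |x i (p + y)|)
    (K' : ℝ) (hK' : 2 ^ m * (m + 1) * (Fintype.card I * K) ≤ K')
    (h2 : ∀ ψ : Fin m → StrongDual ℝ Y, (∀ i, ‖ψ i‖ ≤ K') → ∃ p ∈ B, p ∈ tslab ψ) :
    Module.finrank ℝ (Submodule.span ℝ (Set.range fun i => res Z (x i))) + m + 1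
      ≤ Fintype.card I := by
  classical
  set L : (I → ℝ) →ₗ[ℝ] StrongDual ℝ Z := Fintype.linearCombination ℝ (fun i => res Z (x i))
    with hLdef
  have hrange : LinearMap.range L = Submodule.span ℝ (Set.range fun i => res Z (x i)) :=
    Fintype.range_linearCombination ℝ _
  have hrn := LinearMap.finrank_range_add_finrank_ker L
  rw [hrange, Module.finrank_fintype_fun_eq_card] at hrn
  by_contra hcon
  have hker : Module.finrank ℝ (LinearMap.ker L) ≤ m := by omega
  obtain ⟨c, hc, hcv⟩ := gauss m _ hker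
  have hpow : (0 : ℝ) < 2 ^ m * (m + 1) := by positivity
  obtain ⟨p, hpB, hp⟩ := h2 (fun l => ((2 : ℝ) ^ m * (m + 1)) • ∑ i, c l i • x i) (by
    intro l
    rw [norm_smul, Real.norm_eq_abs, abs_of_pos hpow]
    refine le_trans ?_ hK'
    refine mul_le_mul_of_nonneg_left ?_ hpow.le
    calc ‖∑ i, c l i • x i‖ ≤ ∑ i, ‖c l i • x i‖ := norm_sum_le _ _
      _ ≤ ∑ _i : I, K := by
        refine Finset.sum_le_sum fun i _ => ?_
        rw [norm_smul, Real.norm_eq_abs]
        calc |c l i| * ‖x i‖ ≤ 1 * ‖x i‖ :=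
              mul_le_mul_of_nonneg_right ((hc l).2 i) (norm_nonneg _)
          _ ≤ K := by
            rw [one_mul]
            exact hx i
      _ = Fintype.card I * K := by
        rw [Finset.sum_const, Finset.card_univ, nsmul_eq_mul])
  obtain ⟨v, hvS, hv1, hva⟩ := sep (Z.map (LinearMap.pi fun i => (x i).toLinearMap))
    (fun i => x i p) (by
      rintro s ⟨y, hy, rfl⟩
      obtain ⟨i, hi⟩ := h1 p hpB y hy
      refine ⟨i, ?_⟩
      rw [map_add] at hi
      exact hi)
  have hvN : v ∈ LinearMap.ker L := by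
    rw [LinearMap.mem_ker, hLdef, Fintype.linearCombination_apply]
    ext z
    have := hvS (LinearMap.pi (fun i => (x i).toLinearMap) (z : Y)) ⟨z, z.2, rfl⟩
    rw [sum_apply]
    simp only [smul_apply, res_apply, smul_eq_mul, zero_apply]
    exact this
  obtain ⟨α, hα, hαv⟩ := hcv v hvN (by
    intro i
    exact (Finset.single_le_sum (f := fun i => |v i|) (fun i _ => abs_nonneg _)
      (Finset.mem_univ i)).trans hv1)
  have h3 : ∑ i, v i * x i p = ∑ l, α l * ∑ i, c l i * x i p := by
    have h4 : ∀ i, v i = ∑ l, α l * c l i := by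
      intro i
      have := congrFun hαv i
      rw [this, Finset.sum_apply]
      rfl
    calc ∑ i, v i * x i p = ∑ i, ∑ l, α l * (c l i * x i p) := by
          refine Finset.sum_congr rfl fun i _ => ?_
          rw [h4 i, Finset.sum_mul]
          exact Finset.sum_congr rfl fun l _ => by ring
      _ = ∑ l, ∑ i, α l * (c l i * x i p) := Finset.sum_comm
      _ = ∑ l, α l * ∑ i, c l i * x i p := by
          refine Finset.sum_congr rfl fun l _ => ?_
          rw [Finset.mul_sum]
  have h4 : ∀ l, |α l * ∑ i, c l i * x i p| ≤ 1 / (m + 1) := by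
    intro l
    have h5 := hp l
    have h6 : (((2 : ℝ) ^ m * (m + 1)) • ∑ i, c l i • x i) p =
        2 ^ m * (m + 1) * ∑ i, c l i * x i p := by
      rw [smul_apply, sum_apply, smul_eq_mul]
      rfl
    rw [h6, abs_mul, abs_of_pos hpow] at h5
    rw [abs_mul, le_div_iff₀ (by positivity)]
    have h7 := hα l
    have h8 := abs_nonneg (∑ i, c l i * x i p)
    calc |α l| * |∑ i, c l i * x i p| * (m + 1)
        ≤ 2 ^ m * |∑ i, c l i * x i p| * (m + 1) := by gcongr
      _ = 2 ^ m * (m + 1) * |∑ i, c l i * x i p| := by ring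
      _ ≤ 1 := h5
  have h5 : |∑ i, v i * x i p| ≤ m * (1 / (m + 1)) := by
    rw [h3]
    calc |∑ l, α l * ∑ i, c l i * x i p| ≤ ∑ l, |α l * ∑ i, c l i * x i p| :=
          Finset.abs_sum_le_sum_abs _ _
      _ ≤ ∑ _l : Fin m, (1 / ((m : ℝ) + 1)) := Finset.sum_le_sum fun l _ => h4 l
      _ = m * (1 / (m + 1)) := by
          rw [Finset.sum_const, Finset.card_univ, Fintype.card_fin, nsmul_eq_mul]
  have h6 : (m : ℝ) * (1 / (m + 1)) < 1 := by
    rw [mul_one_div, div_lt_one (by positivity)]
    linarith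
  have h7 := le_abs_self (∑ i, v i * x i p)
  linarith

end Pool.Agent.H17.WH
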