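import Pool.Agent.H17.WH.Basic
import Pool.Agent.H14WH.Weak

/-!
# Weakly continuous maps and weak homeomorphisms
-/

set_option autoImplicit false
open Filter Topology

namespace Pool.Agent.H17.WH

variable {X Y : Type*} [NormedAddCommGroup X] [NormedSpace ℝ X]
  [NormedAddCommGroup Y] [NormedSpace ℝ Y]

/-- a map that is continuous for the weak topologies satisfies `WCont` -/
theorem wcont_of_continuous (H : Y → X)
    (hH : Continuous fun y : WeakSpace ℝ Y => toWeakSpace ℝ X (H ((toWeakSpace ℝ Y).symm y))) :
    WCont H := by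
  classical
  intro φ y ε hε
  have hφ : Continuous fun x : WeakSpace ℝ X => φ ((toWeakSpace ℝ X).symm x) :=
    WeakBilin.eval_continuous (topDualPairing ℝ X).flip φ
  obtain ⟨C, _, hC⟩ := Pool.Agent.H14WH.exists_countable_control_weak
    (fun y : WeakSpace ℝ Y => φ (H ((toWeakSpace ℝ Y).symm y))) (hφ.comp hH)
  obtain ⟨A, _, η, hη, hA⟩ := hC y ε hε
  refine ⟨A.image fun l => (2 / η) • l, ?_⟩
  intro z hz
  have h1 := hA z (by
    intro f hf
    have h2 := hz _ (Finset.mem_image_of_mem _ hf)
    have h3 : ((2 / η) • f) (z - y) = 2 / η * (f z - f y) := by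
      rw [map_sub]
      show 2 / η * f z - 2 / η * f y = _
      ring
    rw [h3, abs_mul, abs_of_pos (by positivity), div_mul_eq_mul_div, div_le_iff₀ hη] at h2
    linarith)
  exact h1.le

end Pool.Agent.H17.WH
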