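import Pool.Agent.H17.WH.FamEx

/-!
# Linear domination: statement and consequences
-/

set_option autoImplicit false
open Filter Topology

namespace Pool.Agent.H17.WH

variable {X Y : Type*} [NormedAddCommGroup X] [NormedSpace ℝ X]
  [NormedAddCommGroup Y] [NormedSpace ℝ Y]

/-- linear domination of `H` on translates of a finite-codimensional subspace -/
def LD (H : Y → X) : Prop :=
  ∃ (k : ℕ) (B₂ : Finset (StrongDual ℝ Y)) (N : Fin k → (perp B₂ →L[ℝ] X)) (η₀ C₂ : ℝ),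
    0 < η₀ ∧ 0 < C₂ ∧ ∀ c : Y, ‖c‖ ≤ η₀ → ∀ y : perp B₂, ‖H (c + y)‖ ≤ C₂ * (1 + ∑ j, ‖N j y‖)

theorem ld_of_bounded {H : Y → X} {A : Finset (StrongDual ℝ Y)} {C : ℝ}
    (h : ∀ y ∈ slab A, ‖H y‖ ≤ C) : LD H := by
  classical
  set M := ∑ l ∈ A, ‖l‖ with hM
  have hM0 : 0 ≤ M := Finset.sum_nonneg fun _ _ => norm_nonneg _
  refine ⟨0, A, fun j => j.elim0, 1 / (1 + M), max C 1, by positivity, by positivity, ?_⟩
  intro c hc y
  have h1 : c + (y : Y) ∈ slab A := by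
    intro l hl
    have h2 : l (y : Y) = 0 := y.2 l hl
    rw [map_add, h2, add_zero]
    have h3 := l.le_opNorm c
    rw [Real.norm_eq_abs] at h3
    have h4 : ‖l‖ ≤ M := Finset.single_le_sum (f := fun l => ‖l‖)
      (fun _ _ => norm_nonneg _) hl
    calc |l c| ≤ ‖l‖ * ‖c‖ := h3
      _ ≤ M * (1 / (1 + M)) := mul_le_mul h4 hc (norm_nonneg _) hM0
      _ ≤ 1 := by
        rw [mul_one_div, div_le_one (by positivity)]
        linarith
  have h2 := h _ h1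
  simp only [Finset.univ_eq_empty, Finset.sum_empty, add_zero, mul_one]
  exact h2.trans (le_max_left _ _)

/-- decomposition of the elements of a slab -/
theorem exists_decomp (B : Finset (StrongDual ℝ Y)) (η : ℝ) (hη : 0 < η) :
    ∃ A : Finset (StrongDual ℝ Y), ∀ z ∈ slab A, ∃ c : Y, ‖c‖ ≤ η ∧ z - c ∈ perp B := by
  classical
  set L : Y →ₗ[ℝ] (B → ℝ) := LinearMap.pi fun l => (l : StrongDual ℝ Y).toLinearMap with hL
  obtain ⟨g, hg⟩ := LinearMap.exists_rightInverse_of_surjective L.rangeRestrict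
    (LinearMap.range_rangeRestrict L)
  set G : LinearMap.range L →L[ℝ] Y := LinearMap.toContinuousLinearMap g with hG
  set δ : ℝ := η / (‖G‖ + 1) with hδ
  have hG0 : 0 ≤ ‖G‖ := G.opNorm_nonneg
  have hδ0 : 0 < δ := by positivity
  refine ⟨B.image fun l => δ⁻¹ • l, ?_⟩
  intro z hz
  refine ⟨g (L.rangeRestrict z), ?_, ?_⟩
  · have h1 : ‖G (L.rangeRestrict z)‖ ≤ ‖G‖ * ‖L.rangeRestrict z‖ := G.le_opNorm _
    have h2 : ‖L.rangeRestrict z‖ ≤ δ := by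
      have h3 : ‖L.rangeRestrict z‖ = ‖L z‖ := rfl
      rw [h3, pi_norm_le_iff_of_nonneg hδ0.le]
      intro l
      have h4 := mem_slab_image (inv_nonneg.2 hδ0.le) hz l l.2
      rw [inv_mul_le_iff₀ hδ0, mul_one] at h4
      exact h4
    have h3 : ‖G‖ * ‖L.rangeRestrict z‖ ≤ ‖G‖ * δ := mul_le_mul_of_nonneg_left h2 hG0
    have h4 : ‖G‖ * δ ≤ η := by
      rw [hδ, mul_div_assoc', div_le_iff₀ (by positivity)]
      nlinarith
    exact (h1.trans h3).trans h4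
  · intro l hl
    have h3 : L.rangeRestrict (g (L.rangeRestrict z)) = L.rangeRestrict z :=
      LinearMap.congr_fun hg _
    have h4 := congrArg Subtype.val h3
    have h5 : L (g (L.rangeRestrict z)) = L z := h4
    have h6 := congrFun h5 ⟨l, hl⟩
    have h7 : l (g (L.rangeRestrict z)) = l z := h6
    rw [map_sub, h7, sub_self]

/-- linear growth on a weak neighbourhood of `0` -/
theorem LD.growth {H : Y → X} (h : LD H) : ∃ (A : Finset (StrongDual ℝ Y)) (C : ℝ), 0 < C ∧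
    ∀ z ∈ slab A, ‖H z‖ ≤ C * (1 + ‖z‖) := by
  classical
  obtain ⟨k, B₂, N, η₀, C₂, hη, hC, h⟩ := h
  obtain ⟨A, hA⟩ := exists_decomp B₂ η₀ hη
  set S := ∑ j, ‖N j‖ with hS
  have hS0 : 0 ≤ S := Finset.sum_nonneg fun j _ => (N j).opNorm_nonneg
  refine ⟨A, C₂ * (1 + S * (1 + η₀)), by positivity, ?_⟩
  intro z hz
  obtain ⟨c, hc, hzc⟩ := hA z hz
  have h1 := h c hc ⟨z - c, hzc⟩
  have h2 : c + ((⟨z - c, hzc⟩ : perp B₂) : Y) = z := by
    show c + (z - c) = z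
    abel
  rw [h2] at h1
  have h3 : ‖(⟨z - c, hzc⟩ : perp B₂)‖ ≤ ‖z‖ + η₀ := by
    have : ‖(⟨z - c, hzc⟩ : perp B₂)‖ = ‖z - c‖ := rfl
    rw [this]
    exact (norm_sub_le _ _).trans (by linarith)
  have h4 : ∑ j, ‖N j ⟨z - c, hzc⟩‖ ≤ S * (‖z‖ + η₀) := by
    rw [hS, Finset.sum_mul]
    refine Finset.sum_le_sum fun j _ => ?_
    exact ((N j).le_opNorm _).trans (mul_le_mul_of_nonneg_left h3 (N j).opNorm_nonneg)
  refine h1.trans ?_
  rw [mul_assoc]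
  refine mul_le_mul_of_nonneg_left ?_ hC.le
  have h5 := norm_nonneg z
  have h6 : S * (‖z‖ + η₀) ≤ S * (1 + η₀) * (1 + ‖z‖) := by
    rw [mul_assoc]
    refine mul_le_mul_of_nonneg_left ?_ hS0
    nlinarith
  nlinarith

/-- Section 7 -/
theorem embed_of_ld {H : Y → X} {h : X → Y} (hH : WCont H) (H0 : H 0 = 0)
    (hinv : ∀ y, h (H y) = y) (hLD : LD H) (hLD' : LD h) :
    ∃ (k : ℕ) (B₃ : Finset (StrongDual ℝ Y)) (N : Fin k → (perp B₃ →L[ℝ] X)) (C : ℝ),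
      ∀ y : perp B₃, ‖y‖ ≤ C * ∑ j, ‖N j y‖ := by
  classical
  obtain ⟨A, C₄, hC₄, hgr⟩ := hLD'.growth
  obtain ⟨k, B₂, N, η₀, C₂, hη, hC₂, hld⟩ := hLD
  have hwc := fun φ : StrongDual ℝ X => hH φ 0 1 one_pos
  choose D hD using hwc
  set B₃ : Finset (StrongDual ℝ Y) := B₂ ∪ A.biUnion D with hB₃
  have hle : perp B₃ ≤ perp B₂ := perp_anti Finset.subset_union_left
  set ι : perp B₃ →L[ℝ] perp B₂ :=
    (perp B₃).subtypeL.codRestrict (perp B₂) (fun y => hle y.2) with hι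
  refine ⟨k, B₃, fun j => (N j).comp ι, C₄ * C₂, ?_⟩
  have key : ∀ y : perp B₃, ‖y‖ ≤ C₄ * (1 + C₂) + C₄ * C₂ * ∑ j, ‖N j (ι y)‖ := by
    intro y
    have h1 : H y ∈ slab A := by
      intro φ hφ
      have h2 := hD φ y (by
        intro l hl
        have h3 : l (y : Y) = 0 := y.2 l (Finset.mem_union_right _
          (Finset.mem_biUnion.2 ⟨φ, hφ, hl⟩))
        rw [sub_zero, h3, abs_zero]
        exact zero_le_one)
      rw [H0, map_zero, sub_zero] at h2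
      exact h2
    have h2 := hgr _ h1
    rw [hinv] at h2
    have h3 := hld 0 (by rw [norm_zero]; exact hη.le) (ι y)
    have h4 : (0 : Y) + ((ι y : perp B₂) : Y) = (y : Y) := zero_add _
    rw [h4] at h3
    have h5 : ‖y‖ = ‖(y : Y)‖ := rfl
    rw [h5]
    calc ‖(y : Y)‖ ≤ C₄ * (1 + ‖H y‖) := h2
      _ ≤ C₄ * (1 + C₂ * (1 + ∑ j, ‖N j (ι y)‖)) := by gcongr
      _ = C₄ * (1 + C₂) + C₄ * C₂ * ∑ j, ‖N j (ι y)‖ := by ring
  intro y
  by_contra hlt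
  rw [not_le] at hlt
  set d : ℝ := ‖y‖ - C₄ * C₂ * ∑ j, ‖N j (ι y)‖ with hd
  have hd0 : 0 < d := by
    rw [hd]
    have : C₄ * C₂ * ∑ j, ‖N j (ι y)‖ < ‖y‖ := hlt
    linarith
  obtain ⟨n, hn⟩ := exists_nat_gt (C₄ * (1 + C₂) / d)
  rw [div_lt_iff₀ hd0] at hn
  have h1 := key ((n : ℝ) • y)
  have h2 : ∑ j, ‖N j (ι ((n : ℝ) • y))‖ = n * ∑ j, ‖N j (ι y)‖ := by
    rw [Finset.mul_sum]
    refine Finset.sum_congr rfl fun j _ => ?_
    rw [map_smul, map_smul, norm_smul, Real.norm_natCast]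
  rw [h2, norm_smul, Real.norm_natCast] at h1
  have h3 : (n : ℝ) * d ≤ C₄ * (1 + C₂) := by
    rw [hd]
    linarith
  linarith

end Pool.Agent.H17.WH
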