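import Pool.Agent.H17.WH.TRb

/-!
# The additive extension, closedness, and the linear representation
-/

set_option autoImplicit false
open Filter Topology

namespace Pool.Agent.H17.WH

variable {V W : Type*} [NormedAddCommGroup V] [NormedSpace ℝ V] [NormedAddCommGroup W]
    [NormedSpace ℝ W] {k : ℕ} {O : Set V} {E : V → Submodule ℝ W}

theorem Fam.exists_generic (hE : Fam k O E) (F : Submodule ℝ W) [FiniteDimensional ℝ F]
    (Φ : Finset V) : ∀ U : Set V, IsOpen U → U.Nonempty → (∀ θ ∈ U, ∀ φ ∈ Φ, θ + φ ∈ O) →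
      ∃ U' ⊆ U, IsOpen U' ∧ U'.Nonempty ∧ ∀ θ ∈ U', ∀ φ ∈ Φ, Disjoint (E (θ + φ)) F := by
  classical
  induction Φ using Finset.induction_on with
  | empty =>
    intro U hU hne _
    exact ⟨U, subset_rfl, hU, hne, fun θ _ φ hφ => absurd hφ (Finset.notMem_empty φ)⟩
  | insert φ Φ _ ih =>
    intro U hU hne hUO
    obtain ⟨U₁, hU₁, hU₁o, ⟨θ, hθ⟩, hU₁d⟩ := ih U hU hne fun θ hθ ψ hψ =>
      hUO θ hθ ψ (Finset.mem_insert_of_mem hψ)
    have hO : θ + φ ∈ O := hUO θ (hU₁ hθ) φ (Finset.mem_insert_self _ _)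
    have hcont : Continuous fun x : V => x - φ := by fun_prop
    have hnh : {x : V | x - φ ∈ U₁} ∈ 𝓝 (θ + φ) := by
      apply (hU₁o.preimage hcont).mem_nhds
      show θ + φ - φ ∈ U₁
      rw [add_sub_cancel_right]
      exact hθ
    obtain ⟨θ₂, hθ₂, hθ₂O, hθ₂d⟩ := hE.e4 hO F inferInstance _ hnh
    obtain ⟨t, ht, hto, hθ₂t⟩ := eventually_nhds_iff.1 (hE.e3a hθ₂O F inferInstance hθ₂d)
    have hcont' : Continuous fun x : V => x + φ := by fun_prop
    refine ⟨U₁ ∩ {x | x + φ ∈ t}, Set.inter_subset_left.trans hU₁,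
      hU₁o.inter (hto.preimage hcont'), ⟨θ₂ - φ, hθ₂, ?_⟩, ?_⟩
    · show θ₂ - φ + φ ∈ t
      rw [sub_add_cancel]
      exact hθ₂t
    · intro x hx ψ hψ
      rcases Finset.mem_insert.1 hψ with rfl | hψ
      · exact ht _ hx.2
      · exact hU₁d x hx.1 ψ hψ

theorem Fam.exists_open (hE : Fam k O E) (Φ : Finset V) :
    ∃ U : Set V, IsOpen U ∧ U.Nonempty ∧ ∀ θ ∈ U, ∀ φ ∈ Φ, θ + φ ∈ O := by
  classical
  obtain ⟨θ, hθ⟩ := hE.nonempty
  obtain ⟨r, hr, hball⟩ := Metric.isOpen_iff.1 hE.isOpen θ hθ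
  set M := ∑ φ ∈ Φ, ‖φ‖ with hM
  have hM0 : 0 ≤ M := Finset.sum_nonneg fun _ _ => norm_nonneg _
  set c : ℝ := M / r + 1 with hc
  have hc0 : 0 < c := by positivity
  refine ⟨⋂ φ ∈ Φ, {x | x + φ ∈ O}, ?_, ⟨c • θ, ?_⟩, ?_⟩
  · apply isOpen_biInter_finset
    intro φ _
    have : Continuous fun x : V => x + φ := by fun_prop
    exact hE.isOpen.preimage this
  · rw [Set.mem_iInter₂]
    intro φ hφ
    show c • θ + φ ∈ O
    have h1 : c • θ + φ = c • (θ + c⁻¹ • φ) := by
      rw [smul_add, smul_smul, mul_inv_cancel₀ hc0.ne', one_smul]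
    rw [h1]
    apply hE.smul_mem _ hc0
    apply hball
    rw [Metric.mem_ball, dist_eq_norm, add_sub_cancel_left, norm_smul, norm_inv,
      Real.norm_eq_abs, abs_of_pos hc0, inv_mul_lt_iff₀ hc0]
    have h2 : ‖φ‖ ≤ M := Finset.single_le_sum (f := fun φ => ‖φ‖) (fun _ _ => norm_nonneg _) hφ
    have h3 : c * r = M + r := by
      rw [hc]
      field_simp
    rw [h3]
    linarith
  · intro x hx φ hφ
    rw [Set.mem_iInter₂] at hx
    exact hx φ hφ

section base

variable {θ₀ : V} {e : Fin k → W} (hB : Base k O E θ₀ e)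

include hB

theorem Base.exists_inG (Φ : Finset V) : ∃ θ, ∀ φ ∈ Φ, InG O E θ₀ (θ + φ) := by
  have := hB.fam.fd
  obtain ⟨U, hU, hne, hUO⟩ := hB.fam.exists_open Φ
  obtain ⟨U', hU'U, _, ⟨θ, hθ⟩, h⟩ := hB.fam.exists_generic (E θ₀) Φ U hU hne hUO
  exact ⟨θ, fun φ hφ => ⟨hUO θ (hU'U hθ) φ hφ, h θ hθ φ hφ⟩⟩

theorem Base.diff_unique {θ ϑ φ : V} (h1 : InG O E θ₀ θ) (h2 : InG O E θ₀ (θ + φ))
    (h3 : InG O E θ₀ ϑ) (h4 : InG O E θ₀ (ϑ + φ)) {w w' v v' : Fin k → W}
    (hw : IsT E θ₀ e θ w) (hw' : IsT E θ₀ e (θ + φ) w') (hv : IsT E θ₀ e ϑ v)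
    (hv' : IsT E θ₀ e (ϑ + φ) v') : w' - w = v' - v := by
  have := hB.fam.fd
  obtain ⟨ω, -, hω, hd⟩ := hB.fam.e4 hB.mem
    (E θ₀ ⊔ E (θ + φ) ⊔ E ϑ ⊔ (E (ϑ + φ) ⊔ E θ)) inferInstance Set.univ univ_mem
  have hGω : InG O E θ₀ ω :=
    ⟨hω, hd.mono_right (le_sup_left.trans (le_sup_left.trans le_sup_left))⟩
  obtain ⟨u, hu⟩ := hB.exists_isT hGω
  obtain ⟨g1, t1⟩ := hB.isT_add₃ h2 h3 hω (hd.mono_right le_sup_left) hw' hv hu
  obtain ⟨g2, t2⟩ := hB.isT_add₃ h4 h1 hω (hd.mono_right (sup_le (sup_le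
    (le_sup_left.trans (le_sup_left.trans le_sup_left)) (le_sup_left.trans le_sup_right))
    (le_sup_right.trans le_sup_right))) hv' hw hu
  have he : ϑ + (θ + φ + ω) = θ + (ϑ + φ + ω) := by abel
  rw [he] at t1
  have h5 := hB.isT_unique g2 t1 t2
  ext1 j
  have h6 := congrFun h5 j
  rw [Pi.sub_apply, Pi.sub_apply]
  have h7 : v j + w' j + u j = w j + v' j + u j := by
    rw [add_assoc, add_assoc]
    exact h6
  have h8 : v j + w' j = w j + v' j := add_right_cancel h7
  rw [sub_eq_sub_iff_add_eq_add, add_comm, h8, add_comm]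

/-- the additive representation -/
theorem Base.exists_additive : ∃ T : V →+ (Fin k → W), ∀ θ, InG O E θ₀ θ →
    IsT E θ₀ e θ (T θ) := by
  classical
  have := hB.fam.fd
  have hex : ∀ φ : V, ∃ S : Fin k → W, ∀ θ, InG O E θ₀ θ → InG O E θ₀ (θ + φ) →
      ∀ w w' : Fin k → W, IsT E θ₀ e θ w → IsT E θ₀ e (θ + φ) w' → S = w' - w := by
    intro φ
    obtain ⟨ϑ, hϑ⟩ := hB.exists_inG {0, φ}
    have h3 : InG O E θ₀ ϑ := by
      have := hϑ 0 (by simp)
      rwa [add_zero] at this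
    have h4 : InG O E θ₀ (ϑ + φ) := hϑ φ (by simp)
    obtain ⟨v, hv⟩ := hB.exists_isT h3
    obtain ⟨v', hv'⟩ := hB.exists_isT h4
    exact ⟨v' - v, fun θ h1 h2 w w' hw hw' => hB.diff_unique h3 h4 h1 h2 hv hv' hw hw'⟩
  choose T hT using hex
  have hadd : ∀ φ ψ, T (φ + ψ) = T φ + T ψ := by
    intro φ ψ
    obtain ⟨θ, hθ⟩ := hB.exists_inG {0, φ, φ + ψ}
    have h1 : InG O E θ₀ θ := by
      have := hθ 0 (by simp)
      rwa [add_zero] at this
    have h2 : InG O E θ₀ (θ + φ) := hθ φ (by simp)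
    have h3 : InG O E θ₀ (θ + (φ + ψ)) := hθ (φ + ψ) (by simp)
    obtain ⟨w, hw⟩ := hB.exists_isT h1
    obtain ⟨w', hw'⟩ := hB.exists_isT h2
    obtain ⟨w₂, hw₂⟩ := hB.exists_isT h3
    have e1 := hT (φ + ψ) θ h1 h3 w w₂ hw hw₂
    have e2 := hT φ θ h1 h2 w w' hw hw'
    have e3 := hT ψ (θ + φ) h2 (by rw [add_assoc]; exact h3) w' w₂ hw'
      (by rw [add_assoc]; exact hw₂)
    rw [e1, e2, e3]
    abel
  refine ⟨AddMonoidHom.mk' T hadd, ?_⟩
  intro φ hφ
  show IsT E θ₀ e φ (T φ)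
  obtain ⟨θ, -, hθ, hd⟩ := hB.fam.e4 hB.mem (E θ₀ ⊔ E φ) inferInstance Set.univ univ_mem
  have hGθ : InG O E θ₀ θ := ⟨hθ, hd.mono_right le_sup_left⟩
  obtain ⟨v, hv⟩ := hB.exists_isT hφ
  obtain ⟨w, hw⟩ := hB.exists_isT hGθ
  obtain ⟨g, t⟩ := hB.isT_add hφ hθ hd hv hw
  have e1 := hT φ θ hGθ (by rw [add_comm]; exact g) w _ hw (by rw [add_comm]; exact t)
  have e2 : T φ = v := by
    rw [e1]
    ext1 j
    rw [Pi.sub_apply]
    exact add_sub_cancel_right _ _
  rw [e2]
  exact hv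

/-- (e): the additive representation is closed -/
theorem Base.closed (T : V →+ (Fin k → W)) (hT : ∀ θ, InG O E θ₀ θ → IsT E θ₀ e θ (T θ))
    (u : ℕ → V) (φ : V) (S : Fin k → W) (hu : Tendsto u atTop (𝓝 φ))
    (hS : Tendsto (fun n => T (u n)) atTop (𝓝 S)) : S = T φ := by
  classical
  have := hB.fam.fd
  obtain ⟨θ, hθ⟩ := hB.exists_inG {0, φ}
  have h1 : InG O E θ₀ θ := by
    have := hθ 0 (by simp)
    rwa [add_zero] at this
  have h2 : InG O E θ₀ (θ + φ) := hθ φ (by simp)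
  set ζ : V := θ + φ with hζ
  have huζ : Tendsto (fun n => θ + u n) atTop (𝓝 ζ) := hu.const_add θ
  have hev : ∀ᶠ n in atTop, InG O E θ₀ (θ + u n) := by
    have h3 := huζ.eventually (hB.fam.isOpen.eventually_mem h2.1)
    have h4 := huζ.eventually (hB.fam.e3a h2.1 (E θ₀) inferInstance h2.2)
    filter_upwards [h3, h4] with n hn1 hn2
    exact ⟨hn1, hn2⟩
  -- scaling
  have hscale : ∀ (N : ℕ) (x : V), T ((1 / ((N : ℝ) + 1)) • x) = (1 / ((N : ℝ) + 1)) • T x := by
    intro N x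
    have h3 : T x = (N + 1 : ℕ) • T ((1 / ((N : ℝ) + 1)) • x) := by
      rw [← map_nsmul]
      congr 1
      rw [← Nat.cast_smul_eq_nsmul ℝ, smul_smul]
      push_cast
      rw [mul_one_div, div_self (by positivity), one_smul]
    rw [h3, ← Nat.cast_smul_eq_nsmul ℝ, smul_smul]
    push_cast
    rw [one_div, inv_mul_cancel₀ (by positivity), one_smul]
  have hspan : ∀ (N : ℕ) (x : V), InG O E θ₀ x → Submodule.span ℝ
      (Set.range fun j => e j + (1 / ((N : ℝ) + 1)) • T x j) =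
        E (θ₀ + (1 / ((N : ℝ) + 1)) • x) := by
    intro N x hx
    have hpos : (0 : ℝ) < 1 / ((N : ℝ) + 1) := by positivity
    have hg : InG O E θ₀ ((1 / ((N : ℝ) + 1)) • x) := by
      refine ⟨hB.fam.smul_mem hx.1 hpos, ?_⟩
      rw [hB.fam.smul hx.1 hpos]
      exact hx.2
    have h3 := hB.add_span hg (hT _ hg)
    rw [hscale] at h3
    exact h3
  set U : Fin k → W := T θ + S with hU
  set U' : Fin k → W := T ζ with hU'
  have hlimT : Tendsto (fun n => T (θ + u n)) atTop (𝓝 U) := by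
    have h3 : (fun n => T (θ + u n)) = fun n => T θ + T (u n) := by
      ext1 n
      exact map_add _ _ _
    rw [h3]
    exact hS.const_add _
  -- linear independence for small scales
  have hli : ∀ᶠ N : ℕ in atTop,
      LinearIndependent ℝ fun j => e j + (1 / ((N : ℝ) + 1)) • U j := by
    have hopen := isOpen_setOfPred_linearIndependent (𝕜 := ℝ) (E := W) (ι := Fin k)
    have hmem : e ∈ {f : Fin k → W | LinearIndependent ℝ f} := hB.li
    have h3 : Tendsto (fun N : ℕ => fun j => e j + (1 / ((N : ℝ) + 1)) • U j) atTop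
        (𝓝 e) := by
      rw [tendsto_pi_nhds]
      intro j
      have h4 : Tendsto (fun N : ℕ => (1 / ((N : ℝ) + 1)) • U j) atTop (𝓝 ((0 : ℝ) • U j)) :=
        tendsto_one_div_add_atTop_nhds_zero_nat.smul_const _
      rw [zero_smul] at h4
      have h5 := h4.const_add (e j)
      rw [add_zero] at h5
      exact h5
    exact h3.eventually (hopen.eventually_mem hmem)
  have hkey : ∀ᶠ N : ℕ in atTop, ∀ j, ∃ a : Fin k → ℝ,
      e j + (1 / ((N : ℝ) + 1)) • U j = ∑ i, a i • (e i + (1 / ((N : ℝ) + 1)) • U' i) := by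
    filter_upwards [hli] with N hN
    have hpos : (0 : ℝ) < 1 / ((N : ℝ) + 1) := by positivity
    have h3 : E (θ₀ + (1 / ((N : ℝ) + 1)) • ζ) = Submodule.span ℝ
        (Set.range fun j => e j + (1 / ((N : ℝ) + 1)) • U j) := by
      refine hB.fam.e3b (hB.fam.add_mem hB.mem (hB.fam.smul_mem h2.1 hpos))
        (fun n => θ₀ + (1 / ((N : ℝ) + 1)) • (θ + u n))
        (fun n j => e j + (1 / ((N : ℝ) + 1)) • T (θ + u n) j) _ ?_ ?_ hN ?_
      · exact (huζ.const_smul _).const_add _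
      · rw [tendsto_pi_nhds]
        intro j
        rw [tendsto_pi_nhds] at hlimT
        exact ((hlimT j).const_smul _).const_add _
      · filter_upwards [hev] with n hn
        exact (hspan N _ hn).symm
    intro j
    have h4 : e j + (1 / ((N : ℝ) + 1)) • U j ∈ E (θ₀ + (1 / ((N : ℝ) + 1)) • ζ) := by
      rw [h3]
      exact Submodule.subset_span ⟨j, rfl⟩
    rw [← hspan N ζ h2, Submodule.mem_span_range_iff_exists_fun] at h4
    obtain ⟨a, ha⟩ := h4
    exact ⟨a, ha.symm⟩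
  obtain ⟨N₀, hN₀⟩ := eventually_atTop.1 hkey
  have hU'mem : ∀ j, U' j ∈ E ζ := fun j => (hT ζ h2 j).1
  have hU'li : LinearIndependent ℝ U' := hB.isT_li h2 (hT ζ h2)
  have hUU' : U = U' := by
    ext1 j
    obtain ⟨a, ha⟩ := hN₀ N₀ le_rfl j
    obtain ⟨b, hb⟩ := hN₀ (N₀ + 1) (Nat.le_succ _) j
    set s : ℝ := 1 / ((N₀ : ℝ) + 1) with hs
    set s' : ℝ := 1 / (((N₀ + 1 : ℕ) : ℝ) + 1) with hs'
    have hs0 : s ≠ 0 := by positivity
    have hs0' : s' ≠ 0 := by positivity
    have hss : s' - s ≠ 0 := by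
      have h3 : s' < s := by
        rw [hs, hs']
        push_cast
        apply one_div_lt_one_div_of_lt (by positivity)
        linarith
      linarith
    have ha' : s • U j = (∑ i, a i • e i - e j) + s • ∑ i, a i • U' i := by
      have h3 : ∑ i, a i • (e i + s • U' i) = ∑ i, a i • e i + s • ∑ i, a i • U' i := by
        rw [Finset.smul_sum, ← Finset.sum_add_distrib]
        refine Finset.sum_congr rfl fun i _ => ?_
        rw [smul_add, smul_comm]
      rw [h3] at ha
      have h4 : s • U j = (e j + s • U j) - e j := by abel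
      rw [h4, ha]
      abel
    have hb' : s' • U j = (∑ i, b i • e i - e j) + s' • ∑ i, b i • U' i := by
      have h3 : ∑ i, b i • (e i + s' • U' i) = ∑ i, b i • e i + s' • ∑ i, b i • U' i := by
        rw [Finset.smul_sum, ← Finset.sum_add_distrib]
        refine Finset.sum_congr rfl fun i _ => ?_
        rw [smul_add, smul_comm]
      rw [h3] at hb
      have h4 : s' • U j = (e j + s' • U j) - e j := by abel
      rw [h4, hb]
      abel
    have hx : s' • (∑ i, a i • e i - e j) - s • (∑ i, b i • e i - e j) ∈ E θ₀ := by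
      have he := hB.e_mem
      exact Submodule.sub_mem _ (Submodule.smul_mem _ _ (Submodule.sub_mem _
        (hB.sum_mem_of he a) (he j))) (Submodule.smul_mem _ _ (Submodule.sub_mem _
        (hB.sum_mem_of he b) (he j)))
    have hrel : s' • (∑ i, a i • e i - e j) - s • (∑ i, b i • e i - e j) =
        (s * s') • (∑ i, b i • U' i - ∑ i, a i • U' i) := by
      have h3 : s' • (s • U j) = s • (s' • U j) := smul_comm _ _ _
      rw [ha', hb', smul_add, smul_add] at h3
      have h4 : s' • (∑ i, a i • e i - e j) - s • (∑ i, b i • e i - e j) =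
          s • s' • ∑ i, b i • U' i - s' • s • ∑ i, a i • U' i := by
        rw [sub_eq_sub_iff_add_eq_add, h3]
        abel
      rw [h4, smul_smul, smul_smul, mul_comm s' s, smul_sub]
    have hy : ∑ i, b i • U' i - ∑ i, a i • U' i ∈ E ζ :=
      Submodule.sub_mem _ (hB.sum_mem_of hU'mem b) (hB.sum_mem_of hU'mem a)
    have hz : (s * s') • (∑ i, b i • U' i - ∑ i, a i • U' i) = 0 :=
      Submodule.disjoint_def.1 h2.2 _ (Submodule.smul_mem _ _ hy) (by
        rw [← hrel]
        exact hx)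
    have hz' : ∑ i, b i • U' i - ∑ i, a i • U' i = 0 := by
      rcases smul_eq_zero.1 hz with h3 | h3
      · exact absurd h3 (mul_ne_zero hs0 hs0')
      · exact h3
    have hba : ∀ i, b i = a i := by
      have h3 : ∑ i, (b i - a i) • U' i = 0 := by
        simp only [sub_smul, Finset.sum_sub_distrib]
        exact hz'
      intro i
      have := Fintype.linearIndependent_iff.1 hU'li _ h3 i
      linarith
    have hea : ∑ i, a i • e i - e j = 0 := by
      rw [hz] at hrel
      have h3 : ∑ i, b i • e i = ∑ i, a i • e i :=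
        Finset.sum_congr rfl fun i _ => by rw [hba i]
      rw [h3, ← sub_smul] at hrel
      rcases smul_eq_zero.1 hrel with h4 | h4
      · exact absurd h4 hss
      · exact h4
    have haδ : ∀ i, a i = (Pi.single j (1 : ℝ) : Fin k → ℝ) i := by
      have h3 : ∑ i, (a i - (Pi.single j (1 : ℝ) : Fin k → ℝ) i) • e i = 0 := by
        simp only [sub_smul, Finset.sum_sub_distrib]
        have h4 : ∑ i, (Pi.single j (1 : ℝ) : Fin k → ℝ) i • e i = e j := by
          simp [Pi.single_apply]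
        rw [h4]
        exact hea
      intro i
      have := Fintype.linearIndependent_iff.1 hB.li _ h3 i
      linarith
    have h5 : ∑ i, a i • U' i = U' j := by
      have h6 : ∑ i, a i • U' i = ∑ i, (Pi.single j (1 : ℝ) : Fin k → ℝ) i • U' i :=
        Finset.sum_congr rfl fun i _ => by rw [haδ i]
      rw [h6]
      simp [Pi.single_apply]
    rw [hea, zero_add, h5] at ha'
    exact smul_right_injective _ hs0 ha'
  have h3 : T θ + S = T θ + T φ := by
    have h4 : T ζ = T θ + T φ := map_add _ _ _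
    rw [← h4]
    exact hUU'
  exact add_left_cancel h3

/-- (f) -/
theorem Base.all (T : V →+ (Fin k → W)) (hT : ∀ θ, InG O E θ₀ θ → IsT E θ₀ e θ (T θ))
    {ζ : V} (hζ : ζ ∈ O) :
    LinearIndependent ℝ (T ζ) ∧ Submodule.span ℝ (Set.range (T ζ)) = E ζ := by
  have := hB.fam.fd
  have hfr : FiniteDimensional ℝ (Submodule.span ℝ (Set.range (T ζ))) :=
    FiniteDimensional.span_of_finite ℝ (Set.finite_range _)
  obtain ⟨θ, -, hθ, hd⟩ := hB.fam.e4 hB.mem (E θ₀ ⊔ E ζ ⊔ Submodule.span ℝ (Set.range (T ζ)))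
    inferInstance Set.univ univ_mem
  have hζθ : Disjoint (E ζ) (E θ) := (hd.mono_right (le_sup_right.trans le_sup_left)).symm
  have ha := hB.fam.disjoint_add hζ hθ hζθ
  have ha' := hB.fam.disjoint_add hθ hζ hζθ.symm
  rw [add_comm] at ha'
  have hle := hB.fam.le_sup hζ hθ hζθ
  have hGθ : InG O E θ₀ θ := ⟨hθ, hd.mono_right (le_sup_left.trans le_sup_left)⟩
  have hG : InG O E θ₀ (ζ + θ) := by
    refine ⟨hB.fam.add_mem hζ hθ, ?_⟩
    rw [Submodule.disjoint_def]
    intro x hx hx0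
    obtain ⟨z, hz, n, hn, hzn⟩ := Submodule.mem_sup.1 (hle hx)
    have hn0 : n = 0 := Submodule.disjoint_def.1 hd n hn (by
      have : n = x + -z := by
        rw [← hzn]
        abel
      rw [this]
      exact Submodule.mem_sup_left (Submodule.add_mem_sup hx0 (Submodule.neg_mem _ hz)))
    rw [hn0, add_zero] at hzn
    exact Submodule.disjoint_def.1 ha' x hx (by rw [← hzn]; exact hz)
  have hadd : ∀ j, T (ζ + θ) j = T ζ j + T θ j := by
    intro j
    rw [map_add]
    rfl
  have hmem : ∀ j, T ζ j ∈ E ζ := by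
    intro j
    have h1 := (hT _ hG j).1
    rw [hadd] at h1
    obtain ⟨z, hz, n, hn, hzn⟩ := Submodule.mem_sup.1 (hle h1)
    have h2 : n - T θ j = 0 := Submodule.disjoint_def.1 hd _
      (Submodule.sub_mem _ hn (hT _ hGθ j).1) (by
        have : n - T θ j = -z + T ζ j := by
          have h3 : n = T ζ j + T θ j - z := by
            rw [← hzn]
            abel
          rw [h3]
          abel
        rw [this]
        refine Submodule.add_mem _ (Submodule.mem_sup_left (Submodule.mem_sup_right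
          (Submodule.neg_mem _ hz))) (Submodule.mem_sup_right (Submodule.subset_span ⟨j, rfl⟩)))
    have h3 : T ζ j = z := by
      have h4 : z = T ζ j + T θ j - n := by
        rw [← hzn]
        abel
      rw [h4, ← sub_eq_zero.1 h2]
      have h5 : n = T θ j := sub_eq_zero.1 h2
      rw [h5]
      abel
    rw [h3]
    exact hz
  have hli : LinearIndependent ℝ (T ζ) := by
    rw [Fintype.linearIndependent_iff]
    intro c hc
    have h1 : ∑ j, c j • T θ j = 0 := Submodule.disjoint_def.1 ha _ (by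
      have h2 : ∑ j, c j • T θ j = ∑ j, c j • T (ζ + θ) j := by
        have h3 : ∑ j, c j • T (ζ + θ) j = ∑ j, c j • T ζ j + ∑ j, c j • T θ j := by
          rw [← Finset.sum_add_distrib]
          refine Finset.sum_congr rfl fun j _ => ?_
          rw [hadd, smul_add]
        rw [h3, hc, zero_add]
      rw [h2]
      exact hB.sum_mem_of (fun j => (hT _ hG j).1) c)
      (hB.sum_mem_of (fun j => (hT _ hGθ j).1) c)
    exact Fintype.linearIndependent_iff.1 (hB.isT_li hGθ (hT _ hGθ)) c h1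
  exact ⟨hli, span_eq_of_li (hB.fam.dim hζ) hmem hli⟩

end base

/-- Theorem R: the family is given by a bounded linear operator. -/
theorem Fam.rep [CompleteSpace V] [CompleteSpace W] (hE : Fam k O E) :
    ∃ T : V →L[ℝ] (Fin k → W), ∀ ζ ∈ O,
      LinearIndependent ℝ (T ζ) ∧ Submodule.span ℝ (Set.range (T ζ)) = E ζ := by
  have := hE.fd
  obtain ⟨θ₀, h₀⟩ := hE.nonempty
  have hdim := hE.dim h₀
  set b := Module.finBasisOfFinrankEq ℝ (E θ₀) hdim with hb
  have hB : Base k O E θ₀ (fun j => (b j : W)) := by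
    refine ⟨hE, h₀, ?_, ?_⟩
    · have h1 := b.linearIndependent.map' (E θ₀).subtype (Submodule.ker_subtype _)
      exact h1
    · have h1 : Set.range (fun j => (b j : W)) = (E θ₀).subtype '' Set.range b := by
        rw [← Set.range_comp]
        rfl
      rw [h1, Submodule.span_image, b.span_eq, Submodule.map_top, Submodule.range_subtype]
  obtain ⟨T, hT⟩ := hB.exists_additive
  have hlin : ∀ (c : ℝ) (φ : V), T (c • φ) = c • T φ := by
    intro c φ
    obtain ⟨q, -, -, hq⟩ := Real.exists_seq_rat_strictMono_tendsto c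
    symm
    refine hB.closed T hT (fun n => (q n : ℝ) • φ) (c • φ) (c • T φ) (hq.smul_const φ) ?_
    have h1 : (fun n => T ((q n : ℝ) • φ)) = fun n => (q n : ℝ) • T φ := by
      ext1 n
      exact map_ratCast_smul T ℝ ℝ (q n) φ
    rw [h1]
    exact hq.smul_const (T φ)
  let T' : V →ₗ[ℝ] (Fin k → W) :=
    { toFun := T
      map_add' := map_add T
      map_smul' := hlin }
  have hcont : Continuous T' := by
    apply LinearMap.continuous_of_seq_closed_graph
    intro u x y hu hy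
    exact hB.closed T hT u x y hu hy
  refine ⟨⟨T', hcont⟩, ?_⟩
  intro ζ hζ
  exact hB.all T hT hζ

end Pool.Agent.H17.WH
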