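import Pool.Agent.H17.WH.Basic
import Pool.Agent.H17.WH.TRc

/-!
# The interface between the construction of the family and its use
-/

set_option autoImplicit false
open Filter Topology

namespace Pool.Agent.H17.WH

variable {X Y : Type*} [NormedAddCommGroup X] [NormedSpace ℝ X]
  [NormedAddCommGroup Y] [NormedSpace ℝ Y]

/-- The family of subspaces `E θ` of the dual of `Z` attached to a weakly continuous map. -/
structure Link (H : Y → X) (k : ℕ) (A : Finset (StrongDual ℝ Y)) (K C : ℝ) (Z : Submodule ℝ Y)
    (O : Set (StrongDual ℝ X)) (E : StrongDual ℝ X → Submodule ℝ (StrongDual ℝ Z)) : Prop where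
  K_pos : 0 < K
  C_pos : 0 < C
  /-- `Z` lies in the common kernel of `A` and is the common kernel of a finite set -/
  Z_le : Z ≤ perp A
  Z_perp : ∃ B : Finset (StrongDual ℝ Y), Z = perp B
  fam : Fam (V := StrongDual ℝ X) (W := StrongDual ℝ Z) k O E
  /-- strictly good tuples exist -/
  strict : ∀ θ : StrongDual ℝ X, ∃ ξ : Fin k → StrongDual ℝ Y, Good H A K C θ ξ
  /-- every good tuple of `θ` in `O` spans `E θ` on `Z` -/
  good_span : ∀ θ ∈ O, ∀ ξ : Fin k → StrongDual ℝ Y, Good H A K (2 * C) θ ξ →
    Submodule.span ℝ (Set.range fun i => res Z (ξ i)) = E θ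

end Pool.Agent.H17.WH
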