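import Pool.Agent.H17.WH.Rank

/-!
# Lower bounds for independent tuples, and weak-star closedness of finite-dimensional spaces
-/

set_option autoImplicit false
open Filter Topology

namespace Pool.Agent.H17.WH

section norm

variable {W : Type*} [NormedAddCommGroup W] [NormedSpace ℝ W]

theorem exists_lower {k : ℕ} {t : Fin k → W} (ht : LinearIndependent ℝ t) :
    ∃ c : ℝ, 0 < c ∧ ∀ x : Fin k → ℝ, c * ‖x‖ ≤ ‖∑ j, x j • t j‖ := by
  have hinj : LinearMap.ker (Fintype.linearCombination ℝ t) = ⊥ := by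
    rw [LinearMap.ker_eq_bot']
    intro x hx
    rw [Fintype.linearCombination_apply] at hx
    ext j
    exact Fintype.linearIndependent_iff.1 ht x hx j
  obtain ⟨D, hD, hanti⟩ := LinearMap.exists_antilipschitzWith _ hinj
  have hD' : (0 : ℝ) < D := hD
  refine ⟨(D : ℝ)⁻¹, by positivity, ?_⟩
  intro x
  have h1 := hanti.le_mul_dist x 0
  rw [dist_zero_right, map_zero, dist_zero_right, Fintype.linearCombination_apply] at h1
  rw [inv_mul_le_iff₀ hD']
  exact h1

/-- a lower bound that holds in a neighbourhood -/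
theorem exists_lower_near {k : ℕ} {t : Fin k → W} (ht : LinearIndependent ℝ t) :
    ∃ c : ℝ, 0 < c ∧ ∃ δ : ℝ, 0 < δ ∧ ∀ t' : Fin k → W, (∀ j, ‖t' j - t j‖ ≤ δ) →
      ∀ x : Fin k → ℝ, c * ‖x‖ ≤ ‖∑ j, x j • t' j‖ := by
  obtain ⟨c, hc, h⟩ := exists_lower ht
  refine ⟨c / 2, by positivity, c / (2 * (k + 1)), by positivity, ?_⟩
  intro t' ht' x
  have h1 := h x
  have h2 : ‖∑ j, x j • (t' j - t j)‖ ≤ c / 2 * ‖x‖ := by
    calc ‖∑ j, x j • (t' j - t j)‖ ≤ ∑ j, ‖x j • (t' j - t j)‖ := norm_sum_le _ _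
      _ ≤ ∑ _j : Fin k, ‖x‖ * (c / (2 * (k + 1))) := by
        refine Finset.sum_le_sum fun j _ => ?_
        rw [norm_smul]
        exact mul_le_mul (norm_le_pi_norm x j) (ht' j) (norm_nonneg _) (norm_nonneg _)
      _ = k * (‖x‖ * (c / (2 * (k + 1)))) := by
        rw [Finset.sum_const, Finset.card_univ, Fintype.card_fin, nsmul_eq_mul]
      _ ≤ c / 2 * ‖x‖ := by
        have h3 : (k : ℝ) * (‖x‖ * (c / (2 * (k + 1)))) = (k / (k + 1)) * (c / 2 * ‖x‖) := by
          field_simp
        rw [h3]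
        have h4 : (k : ℝ) / (k + 1) ≤ 1 := by
          rw [div_le_one (by positivity)]
          linarith
        have h5 : 0 ≤ c / 2 * ‖x‖ := by positivity
        nlinarith
  have h3 : ∑ j, x j • t j = ∑ j, x j • t' j - ∑ j, x j • (t' j - t j) := by
    rw [← Finset.sum_sub_distrib]
    refine Finset.sum_congr rfl fun j _ => ?_
    rw [smul_sub]
    abel
  have h4 : ‖∑ j, x j • t j‖ ≤ ‖∑ j, x j • t' j‖ + ‖∑ j, x j • (t' j - t j)‖ := by
    rw [h3]
    exact norm_sub_le _ _
  linarith

end norm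

section weakstar

variable {Y : Type*} [NormedAddCommGroup Y] [NormedSpace ℝ Y]

/-- a finite-dimensional space of functionals is determined by its common kernel -/
theorem mem_of_ker {F : Submodule ℝ (StrongDual ℝ Y)} (hF : F.FG) (f : StrongDual ℝ Y)
    (h : ∀ y : Y, (∀ g ∈ F, g y = 0) → f y = 0) : f ∈ F := by
  classical
  obtain ⟨s, hs⟩ := hF
  obtain ⟨c, hc⟩ := mem_span_of_perp s f (by
    intro y hy
    apply h
    intro g hg
    rw [← hs] at hg
    induction hg using Submodule.span_induction with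
    | mem x hx => exact hy x hx
    | zero => rfl
    | add x z _ _ hx hz =>
      have : (x + z) y = x y + z y := rfl
      rw [this, hx, hz, add_zero]
    | smul a x _ hx =>
      have : (a • x) y = a * x y := rfl
      rw [this, hx, mul_zero])
  rw [hc]
  refine Submodule.sum_mem _ fun l _ => Submodule.smul_mem _ _ ?_
  rw [← hs]
  exact Submodule.subset_span l.2

/-- finite-dimensional spaces of functionals are closed under pointwise limits -/
theorem mem_of_ulim {ι : Type*} (U : Ultrafilter ι) {F : Submodule ℝ (StrongDual ℝ Y)}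
    (hF : F.FG) (f : ι → StrongDual ℝ Y) (g : StrongDual ℝ Y)
    (hf : ∀ᶠ i in (U : Filter ι), f i ∈ F)
    (hlim : ∀ y, Tendsto (fun i => f i y) U (𝓝 (g y))) : g ∈ F := by
  apply mem_of_ker hF
  intro y hy
  have h1 : Tendsto (fun i => f i y) U (𝓝 0) := by
    apply Tendsto.congr' (f₁ := fun _ => (0 : ℝ)) _ tendsto_const_nhds
    filter_upwards [hf] with i hi
    exact (hy _ hi).symm
  exact tendsto_nhds_unique (hlim y) h1

end weakstar

end Pool.Agent.H17.WH
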