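import Pool.Agent.H17.WH.FamEx

/-!
# Section 6: linear domination from the representation
-/

set_option autoImplicit false
open Filter Topology

namespace Pool.Agent.H17.WH

variable {X Y : Type*} [NormedAddCommGroup X] [NormedSpace ℝ X]
  [NormedAddCommGroup Y] [NormedSpace ℝ Y]

theorem bound_of_pi {V W : Type*} [NormedAddCommGroup V] [NormedSpace ℝ V] [NormedAddCommGroup W]
    [NormedSpace ℝ W] {k : ℕ} (T : V →L[ℝ] (Fin k → W)) :
    ∃ M : ℝ, 0 ≤ M ∧ ∀ φ j, ‖T φ j‖ ≤ M * ‖φ‖ :=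
  ⟨‖T‖, T.opNorm_nonneg, fun φ j => (norm_le_pi_norm (T φ) j).trans (T.le_opNorm φ)⟩

theorem Link.ld {H : Y → X} {k : ℕ}
    {A : Finset (StrongDual ℝ Y)} {K C : ℝ} {Z : Submodule ℝ Y} {O : Set (StrongDual ℝ X)}
    {E : StrongDual ℝ X → Submodule ℝ (StrongDual ℝ Z)} (hL : Link H k A K C Z O E)
    (T : StrongDual ℝ X →L[ℝ] (Fin k → StrongDual ℝ Z))
    (hT : ∀ ζ ∈ O, LinearIndependent ℝ (T ζ) ∧ Submodule.span ℝ (Set.range (T ζ)) = E ζ)
    (N : Fin k → (Z →L[ℝ] X))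
    (hN : ∀ (φ : StrongDual ℝ X) (j : Fin k) (z : Z), φ (N j z) = T φ j z) :
    ∃ (B₂ : Finset (StrongDual ℝ Y)) (hle : perp B₂ ≤ Z) (η₀ C₂ : ℝ), 0 < η₀ ∧ 0 < C₂ ∧
      ∀ c : Y, ‖c‖ ≤ η₀ → ∀ (y : Y) (hy : y ∈ perp B₂),
        ‖H (c + y)‖ ≤ C₂ * (1 + ∑ j, ‖N j ⟨y, hle hy⟩‖) := by
  classical
  have hK := hL.K_pos
  have hC := hL.C_pos
  obtain ⟨B, hB⟩ := hL.Z_perp
  obtain ⟨θ₀, h₀⟩ := hL.fam.nonempty
  have hli := (hT θ₀ h₀).1
  obtain ⟨c₀, hc₀, δ, hδ, hlow⟩ := exists_lower_near_dual Z hli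
  -- a radius `r'`
  obtain ⟨r, hr, hball⟩ := Metric.isOpen_iff.1 hL.fam.isOpen θ₀ h₀
  obtain ⟨τ, hT0, hTb⟩ := bound_of_pi (V := StrongDual ℝ X) (W := StrongDual ℝ Z) T
  obtain ⟨s₀, hs₀, hs₀1, hs₀r, hs₀δ⟩ : ∃ s₀ : ℝ, 0 < s₀ ∧ s₀ ≤ 1 ∧ s₀ < r ∧ τ * s₀ ≤ δ := by
    refine ⟨min (min 1 (r / 2)) (δ / (τ + 1)), by positivity,
      (min_le_left _ _).trans (min_le_left _ _), ?_, ?_⟩
    · exact ((min_le_left _ _).trans (min_le_right _ _)).trans_lt (by linarith)
    · calc τ * min (min 1 (r / 2)) (δ / (τ + 1)) ≤ τ * (δ / (τ + 1)) :=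
            mul_le_mul_of_nonneg_left (min_le_right _ _) hT0
        _ ≤ δ := by
          rw [mul_div_assoc', div_le_iff₀ (by positivity)]
          nlinarith
  -- extensions of `T θ₀ j`
  have hext : ∀ j : Fin k, ∃ f : StrongDual ℝ Y, ∀ z : Z, f (z : Y) = T θ₀ j z := by
    intro j
    obtain ⟨f, hf, -⟩ := exists_extension_norm_eq Z (T θ₀ j)
    exact ⟨f, hf⟩
  choose ext hextg using hext
  set B₂ : Finset (StrongDual ℝ Y) := B ∪ Finset.univ.image ext with hB₂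
  have hle : perp B₂ ≤ Z := by
    rw [hB]
    exact perp_anti Finset.subset_union_left
  have hvan : ∀ (y : Y) (hy : y ∈ perp B₂) (j : Fin k), T θ₀ j ⟨y, hle hy⟩ = 0 := by
    intro y hy j
    rw [← hextg]
    exact hy _ (Finset.mem_union_right _ (Finset.mem_image_of_mem _ (Finset.mem_univ j)))
  set M := ∑ l ∈ A, ‖l‖ with hM
  have hM0 : 0 ≤ M := Finset.sum_nonneg fun _ _ => norm_nonneg _
  set D : ℝ := K / c₀ with hD
  have hD0 : 0 < D := by positivity
  set C₂ : ℝ := C * (2 * ‖θ₀‖ + 1) * (s₀⁻¹ + 2 * D + 1) with hC₂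
  refine ⟨B₂, hle, 1 / (2 * K + M + 1), C₂, by positivity, by positivity, ?_⟩
  intro c hc y hy
  have hcK : K * ‖c‖ ≤ 1 / 2 := by
    calc K * ‖c‖ ≤ K * (1 / (2 * K + M + 1)) := mul_le_mul_of_nonneg_left hc hK.le
      _ ≤ 1 / 2 := by
        rw [mul_one_div, div_le_div_iff₀ (by positivity) (by norm_num)]
        linarith
  have hcA : c + y ∈ slab A := by
    intro l hl
    have h2 : l y = 0 := (hL.Z_le (hle hy)) l hl
    rw [map_add, h2, add_zero]
    have h3 := l.le_opNorm c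
    rw [Real.norm_eq_abs] at h3
    have h4 : ‖l‖ ≤ M := Finset.single_le_sum (f := fun l => ‖l‖)
      (fun _ _ => norm_nonneg _) hl
    calc |l c| ≤ ‖l‖ * ‖c‖ := h3
      _ ≤ M * (1 / (2 * K + M + 1)) := mul_le_mul h4 hc (norm_nonneg _) hM0
      _ ≤ 1 := by
        rw [mul_one_div, div_le_one (by positivity)]
        linarith
  set z : Z := ⟨y, hle hy⟩ with hz
  set S : ℝ := ∑ j, ‖N j z‖ with hS
  have hS0 : 0 ≤ S := Finset.sum_nonneg fun _ _ => norm_nonneg _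
  -- the scale
  set s : ℝ := min s₀ (1 / (2 * D * S + 1)) with hs
  have hs0 : 0 < s := by positivity
  have hss₀ : s ≤ s₀ := min_le_left _ _
  have hsS : s * (D * S) ≤ 1 / 2 := by
    calc s * (D * S) ≤ 1 / (2 * D * S + 1) * (D * S) :=
          mul_le_mul_of_nonneg_right (min_le_right _ _) (by positivity)
      _ ≤ 1 / 2 := by
        rw [one_div_mul_eq_div, div_le_div_iff₀ (by positivity) (by norm_num)]
        nlinarith
  have hsinv : s⁻¹ ≤ s₀⁻¹ + (2 * D * S + 1) := by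
    rcases min_choice s₀ (1 / (2 * D * S + 1)) with h | h
    · rw [hs, h]
      have : 0 ≤ 2 * D * S + 1 := by positivity
      linarith
    · rw [hs, h, one_div, inv_inv]
      have : 0 ≤ s₀⁻¹ := by positivity
      linarith
  -- the estimate for a functional of norm at most one
  have key : ∀ φ : StrongDual ℝ X, ‖φ‖ ≤ 1 → |φ (H (c + y))| ≤ C * (2 * ‖θ₀‖ + 1) * s⁻¹ := by
    intro φ hφ
    set ζ : StrongDual ℝ X := θ₀ + s • φ with hζ
    have hsφ : ‖s • φ‖ ≤ s := by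
      rw [norm_smul, Real.norm_eq_abs, abs_of_pos hs0]
      nlinarith
    have hζO : ζ ∈ O := by
      apply hball
      rw [Metric.mem_ball, dist_eq_norm, hζ, add_sub_cancel_left]
      exact (hsφ.trans hss₀).trans_lt hs₀r
    obtain ⟨ξ, hξ⟩ := hL.strict ζ
    have hsp := hL.good_span ζ hζO ξ (hξ.mono (by linarith))
    have hnear : ∀ j, ‖T ζ j - T θ₀ j‖ ≤ δ := by
      intro j
      have h1 : T ζ j - T θ₀ j = T (s • φ) j := by
        rw [hζ, map_add]
        show T θ₀ j + T (s • φ) j - T θ₀ j = _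
        abel
      rw [h1]
      have h2 : ‖T (s • φ) j‖ ≤ τ * ‖s • φ‖ := hTb _ j
      have h4 : τ * ‖s • φ‖ ≤ τ * s₀ := mul_le_mul_of_nonneg_left (hsφ.trans hss₀) hT0
      linarith
    have hξT : ∀ i, ∃ x : Fin k → ℝ, res Z (ξ i) = ∑ j, x j • T ζ j ∧ ‖x‖ ≤ D := by
      intro i
      have h1 : res Z (ξ i) ∈ Submodule.span ℝ (Set.range (T ζ)) := by
        rw [(hT ζ hζO).2, ← hsp]
        exact Submodule.subset_span ⟨i, rfl⟩
      rw [Submodule.mem_span_range_iff_exists_fun] at h1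
      obtain ⟨x, hx⟩ := h1
      refine ⟨x, hx.symm, ?_⟩
      have h2 := hlow (T ζ) hnear x
      rw [hx] at h2
      have h3 : ‖res Z (ξ i)‖ ≤ K := (norm_res_le Z _).trans (hξ.1 i)
      rw [hD, le_div_iff₀ hc₀, mul_comm]
      exact h2.trans h3
    have hmem : c + y ∈ tslab ξ := by
      intro i
      obtain ⟨x, hx, hxD⟩ := hξT i
      have h1 : ξ i y = s * ∑ j, x j * φ (N j z) := by
        have h2 : ξ i y = res Z (ξ i) z := rfl
        rw [h2, hx, sum_apply, Finset.mul_sum]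
        refine Finset.sum_congr rfl fun j _ => ?_
        have h3 : (x j • T ζ j) z = x j * T ζ j z := rfl
        have h4 : T ζ j z = T θ₀ j z + s * T φ j z := by
          rw [hζ, map_add, map_smul]
          rfl
        rw [h3, h4, hvan y hy j, zero_add, hN]
        ring
      have h2 : |∑ j, x j * φ (N j z)| ≤ D * S := by
        calc |∑ j, x j * φ (N j z)| ≤ ∑ j, |x j * φ (N j z)| := Finset.abs_sum_le_sum_abs _ _
          _ ≤ ∑ j, D * ‖N j z‖ := by
            refine Finset.sum_le_sum fun j _ => ?_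
            rw [abs_mul]
            have h3 : |x j| ≤ D := (norm_le_pi_norm x j).trans hxD
            have h4 : |φ (N j z)| ≤ ‖N j z‖ := by
              have h5 := φ.le_opNorm (N j z)
              rw [Real.norm_eq_abs] at h5
              have h6 := norm_nonneg (N j z)
              nlinarith
            exact mul_le_mul h3 h4 (abs_nonneg _) hD0.le
          _ = D * S := by rw [hS, Finset.mul_sum]
      have h3 : |ξ i y| ≤ 1 / 2 := by
        rw [h1, abs_mul, abs_of_pos hs0]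
        exact (mul_le_mul_of_nonneg_left h2 hs0.le).trans hsS
      have h4 : |ξ i c| ≤ 1 / 2 := by
        have h5 := (ξ i).le_opNorm c
        rw [Real.norm_eq_abs] at h5
        exact (h5.trans (mul_le_mul_of_nonneg_right (hξ.1 i) (norm_nonneg _))).trans hcK
      rw [map_add]
      exact (abs_add_le _ _).trans (by linarith)
    have b1 := hξ.2 _ hcA hmem
    -- the reference functional
    obtain ⟨ξ₀, hξ₀⟩ := hL.strict θ₀
    have hsp₀ := hL.good_span θ₀ h₀ ξ₀ (hξ₀.mono (by linarith))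
    have hmem₀ : c + y ∈ tslab ξ₀ := by
      intro i
      have h1 : res Z (ξ₀ i) ∈ Submodule.span ℝ (Set.range (T θ₀)) := by
        rw [(hT θ₀ h₀).2, ← hsp₀]
        exact Submodule.subset_span ⟨i, rfl⟩
      rw [Submodule.mem_span_range_iff_exists_fun] at h1
      obtain ⟨x, hx⟩ := h1
      have h2 : ξ₀ i y = 0 := by
        have h3 : ξ₀ i y = res Z (ξ₀ i) z := rfl
        rw [h3, ← hx, sum_apply]
        refine Finset.sum_eq_zero fun j _ => ?_
        have h4 : (x j • T θ₀ j) z = x j * T θ₀ j z := rfl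
        rw [h4, hvan y hy j, mul_zero]
      have h4 : |ξ₀ i c| ≤ 1 / 2 := by
        have h5 := (ξ₀ i).le_opNorm c
        rw [Real.norm_eq_abs] at h5
        exact (h5.trans (mul_le_mul_of_nonneg_right (hξ₀.1 i) (norm_nonneg _))).trans hcK
      rw [map_add, h2, add_zero]
      linarith
    have b2 := hξ₀.2 _ hcA hmem₀
    have b3 : ζ (H (c + y)) = θ₀ (H (c + y)) + s * φ (H (c + y)) := rfl
    rw [b3] at b1
    have hs1 : s ≤ 1 := hss₀.trans hs₀1
    have b4 : ‖ζ‖ ≤ ‖θ₀‖ + 1 := (norm_add_le _ _).trans (by linarith)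
    have b5 : |s * φ (H (c + y))| ≤ C * (2 * ‖θ₀‖ + 1) := by
      have h6 : s * φ (H (c + y)) =
          (θ₀ (H (c + y)) + s * φ (H (c + y))) - θ₀ (H (c + y)) := by ring
      rw [h6]
      refine (abs_sub _ _).trans ?_
      have h7 : C * ‖ζ‖ ≤ C * (‖θ₀‖ + 1) := mul_le_mul_of_nonneg_left b4 hC.le
      nlinarith
    rw [abs_mul, abs_of_pos hs0] at b5
    rw [← div_eq_mul_inv, le_div_iff₀ hs0, mul_comm]
    exact b5
  have hnorm : ‖H (c + y)‖ ≤ C * (2 * ‖θ₀‖ + 1) * s⁻¹ := by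
    apply NormedSpace.norm_le_dual_bound ℝ _ (by positivity)
    intro f
    have h1 := key (‖f‖⁻¹ • f) (by
      rw [norm_smul, norm_inv, norm_norm]
      exact inv_mul_le_one)
    have h2 : (‖f‖⁻¹ • f) (H (c + y)) = ‖f‖⁻¹ * f (H (c + y)) := rfl
    rw [h2, abs_mul, abs_inv, abs_norm] at h1
    rw [Real.norm_eq_abs]
    rcases (norm_nonneg f).eq_or_lt with h0 | h0
    · have hf : f = 0 := (norm_eq_zero (E := StrongDual ℝ X)).1 h0.symm
      rw [hf, norm_zero, mul_zero]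
      simp
    · rw [inv_mul_le_iff₀ h0] at h1
      linarith
  refine hnorm.trans ?_
  have hfac : 0 ≤ C * (2 * ‖θ₀‖ + 1) := by positivity
  have hs₀i : 0 ≤ s₀⁻¹ := by positivity
  have hfin : s⁻¹ ≤ (s₀⁻¹ + 2 * D + 1) * (1 + S) := by
    refine hsinv.trans ?_
    have : 0 ≤ s₀⁻¹ * S := by positivity
    nlinarith
  calc C * (2 * ‖θ₀‖ + 1) * s⁻¹
      ≤ C * (2 * ‖θ₀‖ + 1) * ((s₀⁻¹ + 2 * D + 1) * (1 + S)) :=
        mul_le_mul_of_nonneg_left hfin hfac
    _ = C₂ * (1 + S) := by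
        rw [hC₂]
        ring

end Pool.Agent.H17.WH
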