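import Pool.Agent.H17.WH.LDdef
import Pool.Agent.H17.WH.S6
import Pool.Agent.H41.WHU.N5
import Pool.Agent.H17.WH.Homeo

/-!
# The main theorem
-/

set_option autoImplicit false
open Filter Topology

namespace Pool.Agent.H17.WH

variable {X Y : Type*} [NormedAddCommGroup X] [NormedSpace ℝ X]
  [NormedAddCommGroup Y] [NormedSpace ℝ Y]

theorem ld_of_wcont [CompleteSpace X] (H : Y → X) (hH : WCont H) (h0 : H 0 = 0) : LD H := by
  rcases exists_link H hH h0 with ⟨A, C, h⟩ | ⟨m, A, K, C, B, O, E, hL⟩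
  · exact ld_of_bounded h
  · obtain ⟨T, hT⟩ := Fam.rep (V := StrongDual ℝ X) (W := StrongDual ℝ (perp B)) hL.fam
    obtain ⟨N, hN⟩ := Pool.Agent.H41.WHU.exists_N hH hL T hT
    obtain ⟨B₂, hle, η, C₂, hη, hC₂, h⟩ := hL.ld T hT N hN
    set ι : perp B₂ →L[ℝ] perp B :=
      (perp B₂).subtypeL.codRestrict (perp B) (fun y => hle y.2) with hι
    exact ⟨m + 1, B₂, fun j => (N j).comp ι, η, C₂, hη, hC₂, fun c hc y => h c hc y y.2⟩

/-- The main theorem: a Banach space `Y` that is a retract of `X` for weakly continuous maps has a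
closed finite-codimensional subspace that embeds into a finite power of `X`. -/
theorem main_embed [CompleteSpace X] [CompleteSpace Y] (H : Y → X) (h : X → Y) (hH : WCont H)
    (hh : WCont h) (H0 : H 0 = 0) (h0 : h 0 = 0) (hinv : ∀ y, h (H y) = y) :
    ∃ (k : ℕ) (B₃ : Finset (StrongDual ℝ Y)) (N : Fin k → (perp B₃ →L[ℝ] X)) (C : ℝ),
      ∀ y : perp B₃, ‖y‖ ≤ C * ∑ j, ‖N j y‖ :=
  embed_of_ld hH H0 hinv (ld_of_wcont H hH H0) (ld_of_wcont h hh h0)

theorem embed_of_retract [CompleteSpace X] [CompleteSpace Y] (H : WeakSpace ℝ Y → WeakSpace ℝ X)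
    (h : WeakSpace ℝ X → WeakSpace ℝ Y) (hH : Continuous H) (hh : Continuous h)
    (hinv : ∀ y, h (H y) = y) :
    ∃ (k : ℕ) (B₃ : Finset (StrongDual ℝ Y)) (N : Fin k → (perp B₃ →L[ℝ] X)) (C : ℝ),
      ∀ y : perp B₃, ‖y‖ ≤ C * ∑ j, ‖N j y‖ := by
  set x₀ : WeakSpace ℝ X := H 0 with hx₀
  refine main_embed
    (fun y => (toWeakSpace ℝ X).symm (H (toWeakSpace ℝ Y y) - x₀))
    (fun x => (toWeakSpace ℝ Y).symm (h (toWeakSpace ℝ X x + x₀))) ?_ ?_ ?_ ?_ ?_
  · apply wcont_of_continuous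
    have h1 : Continuous fun y : WeakSpace ℝ Y => H y - x₀ := hH.sub continuous_const
    exact h1
  · apply wcont_of_continuous
    have h1 : Continuous fun x : WeakSpace ℝ X => h (x + x₀) :=
      hh.comp (continuous_id.add continuous_const)
    exact h1
  · show (toWeakSpace ℝ X).symm (H (toWeakSpace ℝ Y 0) - x₀) = 0
    rw [map_zero, hx₀, sub_self, map_zero]
  · show (toWeakSpace ℝ Y).symm (h (toWeakSpace ℝ X 0 + x₀)) = 0
    rw [map_zero, zero_add, hx₀, hinv, map_zero]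
  · intro y
    show (toWeakSpace ℝ Y).symm (h (toWeakSpace ℝ X ((toWeakSpace ℝ X).symm
      (H (toWeakSpace ℝ Y y) - x₀)) + x₀)) = y
    rw [LinearEquiv.apply_symm_apply, sub_add_cancel, hinv, LinearEquiv.symm_apply_apply]

theorem embed_of_homeo [CompleteSpace X] [CompleteSpace Y] (e : WeakSpace ℝ X ≃ₜ WeakSpace ℝ Y) :
    ∃ (k : ℕ) (B₃ : Finset (StrongDual ℝ Y)) (N : Fin k → (perp B₃ →L[ℝ] X)) (C : ℝ),
      ∀ y : perp B₃, ‖y‖ ≤ C * ∑ j, ‖N j y‖ :=
  embed_of_retract e.symm e e.symm.continuous e.continuous fun y => e.apply_symm_apply y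

end Pool.Agent.H17.WH
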