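import Pool.Agent.H17.WH.Basic

/-!
# The property `P_k` holds for some `k` (Baire), and the finite form of its failure
-/

set_option autoImplicit false
open Filter Topology

namespace Pool.Agent.H17.WH

variable {X Y : Type*} [NormedAddCommGroup X] [NormedSpace ℝ X]
  [NormedAddCommGroup Y] [NormedSpace ℝ Y]

/-- the functionals controlled by `n` functionals of norm at most `n` -/
def ESet (H : Y → X) (n : ℕ) : Set (StrongDual ℝ X) :=
  {φ | ∃ ψ : Fin n → StrongDual ℝ Y, (∀ i, ‖ψ i‖ ≤ n) ∧ ∀ y ∈ tslab ψ, |φ (H y)| ≤ n}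

theorem slab_empty : slab (∅ : Finset (StrongDual ℝ Y)) = Set.univ := by
  ext y
  simp [slab]

theorem iUnion_ESet (H : Y → X) (hH : WCont H) (h0 : H 0 = 0) : ⋃ n, ESet H n = Set.univ := by
  rw [Set.eq_univ_iff_forall]
  intro φ
  obtain ⟨A, hA⟩ := hH φ 0 1 one_pos
  obtain ⟨n, hn⟩ := exists_nat_ge ((∑ l ∈ A, ‖l‖) + A.card + 1)
  have hs : 0 ≤ ∑ l ∈ A, ‖l‖ := Finset.sum_nonneg fun l _ => norm_nonneg _
  have hcard : A.card ≤ n := by
    have : (A.card : ℝ) ≤ n := by linarith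
    exact_mod_cast this
  have hn1 : (1 : ℝ) ≤ n := by
    have : (0 : ℝ) ≤ A.card := Nat.cast_nonneg _
    linarith
  have hnorm : ∀ l ∈ A, ‖l‖ ≤ n := by
    intro l hl
    have h1 : ‖l‖ ≤ ∑ l ∈ A, ‖l‖ := Finset.single_le_sum (f := fun l => ‖l‖)
      (fun l _ => norm_nonneg _) hl
    have : (0 : ℝ) ≤ A.card := Nat.cast_nonneg _
    linarith
  refine Set.mem_iUnion.2 ⟨n, fun i => A.toList.getD i 0, ?_, ?_⟩
  · intro i
    by_cases hi : (i : ℕ) < A.toList.length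
    · show ‖A.toList.getD i 0‖ ≤ n
      rw [List.getD_eq_getElem _ _ hi]
      exact hnorm _ (by
        rw [← Finset.mem_toList]
        exact List.getElem_mem hi)
    · show ‖A.toList.getD i 0‖ ≤ n
      rw [List.getD_eq_default _ _ (not_lt.1 hi), norm_zero]
      linarith
  · intro y hy
    have h1 := hA y (by
      intro l hl
      rw [sub_zero]
      obtain ⟨i, hi, hl'⟩ := List.getElem_of_mem (Finset.mem_toList.2 hl)
      have hlen : i < n := lt_of_lt_of_le hi (by rw [Finset.length_toList]; exact hcard)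
      have h2 := hy ⟨i, hlen⟩
      have h3 : A.toList.getD i 0 = l := by
        rw [List.getD_eq_getElem _ _ hi]
        exact hl'
      have h4 : (fun i : Fin n => A.toList.getD i 0) ⟨i, hlen⟩ = l := h3
      rw [h4] at h2
      exact h2)
    rw [h0, map_zero, sub_zero] at h1
    exact h1.trans hn1

theorem isClosed_ESet (H : Y → X) (hH : WCont H) (n : ℕ) : IsClosed (ESet H n) := by
  apply IsSeqClosed.isClosed
  intro u φ hu hφ
  choose ψ hψ hψ' using hu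
  have hlim : ∀ i : Fin n, ∃ g : StrongDual ℝ Y, ‖g‖ ≤ n ∧
      ∀ y, Tendsto (fun j => ψ j i y) (hyperfilter ℕ) (𝓝 (g y)) := fun i =>
    exists_ulim (hyperfilter ℕ) (fun j => ψ j i) n fun j => hψ j i
  choose g hg hg' using hlim
  refine ⟨g, hg, ?_⟩
  intro y hy
  have hmem : y ∈ slab (∅ : Finset (StrongDual ℝ Y)) := by
    rw [slab_empty]
    trivial
  refine bound_limit hH (hyperfilter ℕ) ∅ u φ n ψ g ?_ ?_ ?_ y hmem hy
  · intro z
    have h1 : Tendsto (fun i => u i (H z)) atTop (𝓝 (φ (H z))) := by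
      have h2 : Continuous fun f : StrongDual ℝ X => f (H z) := by fun_prop
      exact (h2.tendsto φ).comp hφ
    exact h1.mono_left Nat.hyperfilter_le_atTop
  · exact Eventually.of_forall fun i z _ hz => hψ' i z hz
  · intro j z
    exact hg' j z

/-- Section 1: `P_k` holds for some `k`. -/
theorem exists_pprop (H : Y → X) (hH : WCont H) (h0 : H 0 = 0) :
    ∃ (k : ℕ) (A : Finset (StrongDual ℝ Y)) (K C : ℝ), PProp H k A K C := by
  classical
  obtain ⟨n, φ₀, hφ₀⟩ := nonempty_interior_of_iUnion_of_closed (isClosed_ESet H hH)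
    (iUnion_ESet H hH h0)
  rw [mem_interior_iff_mem_nhds, Metric.mem_nhds_iff] at hφ₀
  obtain ⟨r, hr, hball⟩ := hφ₀
  obtain ⟨ψ₀, hψ₀, hψ₀'⟩ := hball (Metric.mem_ball_self hr)
  refine ⟨n, Finset.univ.image ψ₀, n, 4 * n / r, ?_⟩
  intro φ hφ
  have h1 : φ₀ + (r / 2) • φ ∈ Metric.ball φ₀ r := by
    rw [Metric.mem_ball, dist_eq_norm, add_sub_cancel_left, norm_smul, Real.norm_eq_abs,
      abs_of_pos (by linarith)]
    nlinarith
  obtain ⟨ψ, hψ, hψ'⟩ := hball h1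
  refine ⟨ψ, hψ, ?_⟩
  intro y hy hyψ
  have h2 := hψ' y hyψ
  have h3 := hψ₀' y (fun i => hy _ (Finset.mem_image_of_mem _ (Finset.mem_univ i)))
  have h4 : (φ₀ + (r / 2) • φ) (H y) = φ₀ (H y) + r / 2 * φ (H y) := rfl
  rw [h4] at h2
  have h5 : |r / 2 * φ (H y)| ≤ 2 * n := by
    have := abs_sub_abs_le_abs_sub (r / 2 * φ (H y)) (-(φ₀ (H y)))
    rw [abs_neg, sub_neg_eq_add, add_comm (r / 2 * φ (H y))] at this
    linarith
  rw [abs_mul, abs_of_pos (by linarith : 0 < r / 2)] at h5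
  rw [le_div_iff₀ hr]
  linarith

/-- the finite form of the failure of `P_m` -/
theorem neg_pprop {H : Y → X} {m : ℕ} {A : Finset (StrongDual ℝ Y)} {K L : ℝ}
    (hn : ¬ PProp H m A (2 * K) L) :
    ∃ φ : StrongDual ℝ X, ‖φ‖ ≤ 1 ∧ ∃ Q : Finset Y, (∀ p ∈ Q, p ∈ slab A) ∧
      ∀ ψ : Fin m → StrongDual ℝ Y, (∀ i, ‖ψ i‖ ≤ K) → ∃ p ∈ Q, p ∈ tslab ψ ∧ L < |φ (H p)| := by
  classical
  unfold PProp at hn
  push Not at hn
  obtain ⟨φ, hφ, hψ⟩ := hn
  refine ⟨φ, hφ, ?_⟩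
  by_contra hcon
  push Not at hcon
  -- the bad points
  have hQ : ∀ Q : Finset {y : Y // y ∈ slab A ∧ L < |φ (H y)|},
      ∃ ψ : Fin m → StrongDual ℝ Y, (∀ i, ‖ψ i‖ ≤ K) ∧ ∀ p ∈ Q, (p : Y) ∉ tslab ψ := by
    intro Q
    obtain ⟨ψ, hψK, hψQ⟩ := hcon (Q.image Subtype.val) (by
      intro p hp
      obtain ⟨q, _, rfl⟩ := Finset.mem_image.1 hp
      exact q.2.1)
    refine ⟨ψ, hψK, ?_⟩
    intro p hp hmem
    have := hψQ p (Finset.mem_image_of_mem _ hp) hmem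
    exact absurd p.2.2 (not_lt.2 this)
  choose ψ hψK hψQ using hQ
  have hne : (atTop : Filter (Finset {y : Y // y ∈ slab A ∧ L < |φ (H y)|})).NeBot := inferInstance
  set U := Ultrafilter.of (atTop : Filter (Finset {y : Y // y ∈ slab A ∧ L < |φ (H y)|})) with hU
  have hlim : ∀ i : Fin m, ∃ g : StrongDual ℝ Y, ‖g‖ ≤ K ∧
      ∀ y, Tendsto (fun Q => ψ Q i y) U (𝓝 (g y)) := fun i =>
    exists_ulim U (fun Q => ψ Q i) K fun Q => hψK Q i
  choose g hg hg' using hlim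
  obtain ⟨y, hyA, hyg, hyL⟩ := hψ (fun i => (2 : ℝ) • g i) (by
    intro i
    rw [norm_smul, Real.norm_eq_abs, abs_of_pos (by norm_num : (0:ℝ) < 2)]
    linarith [hg i])
  have h1 : ∀ i, |g i y| < 1 := by
    intro i
    have h2 := hyg i
    have h3 : ((2 : ℝ) • g i) y = 2 * g i y := rfl
    rw [h3, abs_mul, abs_of_pos (by norm_num : (0:ℝ) < 2)] at h2
    linarith
  have h2 : ∀ᶠ Q in (U : Filter (Finset {y : Y // y ∈ slab A ∧ L < |φ (H y)|})), ∀ i, |ψ Q i y| < 1 := by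
    rw [eventually_all]
    intro i
    exact (hg' i y).abs.eventually_lt_const (h1 i)
  have h3 : ∀ᶠ Q in (U : Filter (Finset {y : Y // y ∈ slab A ∧ L < |φ (H y)|})), (⟨y, hyA, hyL⟩ : {y : Y // y ∈ slab A ∧ L < |φ (H y)|}) ∈ Q := by
    have h4 : ∀ᶠ Q in (atTop : Filter (Finset {y : Y // y ∈ slab A ∧ L < |φ (H y)|})),
        (⟨y, hyA, hyL⟩ : {y : Y // y ∈ slab A ∧ L < |φ (H y)|}) ∈ Q := by
      filter_upwards [eventually_ge_atTop {(⟨y, hyA, hyL⟩ : {y : Y // y ∈ slab A ∧ L < |φ (H y)|})}]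
        with Q hQ
      exact hQ (Finset.mem_singleton_self _)
    exact h4.filter_mono (Ultrafilter.of_le _)
  obtain ⟨Q, hQ1, hQ2⟩ := (h2.and h3).exists
  exact hψQ Q _ hQ2 fun i => (hQ1 i).le

end Pool.Agent.H17.WH
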