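import Pool.Agent.H17.HS.Perm

/-!
# Locally uniformly rotund renormability of finite powers
-/

set_option autoImplicit false
open Filter Topology

namespace Pool.Agent.H17.WH

open Pool.Agent.H14WH Pool.Agent.H17.HS

theorem lur_of_subsingleton (X : Type*) [NormedAddCommGroup X] [NormedSpace ℝ X]
    [Subsingleton X] : LURRenormable X := by
  refine ⟨fun x => ‖x‖, ⟨norm_add_le, fun c x => norm_smul c x, 1, 1, one_pos, one_pos, ?_⟩, ?_⟩
  · intro x
    rw [one_mul]
    exact ⟨le_rfl, le_rfl⟩
  · intro x u _ _ _
    have h : (fun n => ‖u n - x‖) = fun _ => (0 : ℝ) := by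
      ext1 n
      rw [Subsingleton.elim (u n - x) 0, norm_zero]
    rw [h]
    exact tendsto_const_nhds

theorem lur_pow {X : Type*} [NormedAddCommGroup X] [NormedSpace ℝ X] (hX : LURRenormable X)
    (n : ℕ) : LURRenormable (Fin n → X) := by
  induction n with
  | zero => exact lur_of_subsingleton _
  | succ n ih =>
    set J : (Fin (n + 1) → X) →L[ℝ] X × (Fin n → X) :=
      (ContinuousLinearMap.proj 0).prod
        (ContinuousLinearMap.pi fun i : Fin n => ContinuousLinearMap.proj i.succ) with hJ
    refine lurRenormable_of_embedding (lurRenormable_prod hX ih) J one_pos ?_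
    intro f
    rw [one_mul, pi_norm_le_iff_of_nonneg (norm_nonneg _)]
    intro i
    have h1 : J f = (f 0, fun i : Fin n => f i.succ) := rfl
    refine Fin.cases ?_ (fun i => ?_) i
    · rw [h1]
      exact norm_fst_le (f 0, fun i : Fin n => f i.succ)
    · rw [h1]
      have h2 := norm_le_pi_norm (fun i : Fin n => f i.succ) i
      exact h2.trans (norm_snd_le (f 0, fun i : Fin n => f i.succ))

end Pool.Agent.H17.WH
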