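import Pool.Agent.H17.WH.Basic

/-!
# Functionals that vanish on a finite-codimensional subspace, and dependent tuples
-/

set_option autoImplicit false
open Filter Topology

namespace Pool.Agent.H17.WH

variable {Y : Type*} [NormedAddCommGroup Y] [NormedSpace ℝ Y]

/-- a functional that vanishes on the common kernel is a linear combination -/
theorem mem_span_of_perp (A : Finset (StrongDual ℝ Y)) (f : StrongDual ℝ Y)
    (hf : ∀ y ∈ perp A, f y = 0) : ∃ c : A → ℝ, f = ∑ l : A, c l • (l : StrongDual ℝ Y) := by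
  have h1 : f.toLinearMap ∈ Submodule.span ℝ
      (Set.range fun l : A => (l : StrongDual ℝ Y).toLinearMap) := by
    apply mem_span_of_iInf_ker_le_ker
    intro y hy
    rw [Submodule.mem_iInf] at hy
    exact hf y fun l hl => hy ⟨l, hl⟩
  rw [Submodule.mem_span_range_iff_exists_fun] at h1
  obtain ⟨c, hc⟩ := h1
  refine ⟨c, ?_⟩
  ext y
  have := LinearMap.congr_fun hc y
  rw [sum_apply]
  rw [_root_.LinearMap.sum_apply] at this
  exact this.symm

/-- elements of a finite-dimensional span have controlled coefficients -/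
theorem exists_coeff {V : Type*} [NormedAddCommGroup V] [NormedSpace ℝ V] {ι : Type*} [Fintype ι]
    (v : ι → V) : ∃ D : ℝ, 0 ≤ D ∧ ∀ f ∈ Submodule.span ℝ (Set.range v),
      ∃ c : ι → ℝ, f = ∑ i, c i • v i ∧ ∀ i, |c i| ≤ D * ‖f‖ := by
  set L : (ι → ℝ) →ₗ[ℝ] V := Fintype.linearCombination ℝ v with hL
  obtain ⟨g, hg⟩ := LinearMap.exists_rightInverse_of_surjective L.rangeRestrict
    (LinearMap.range_rangeRestrict L)
  set G : LinearMap.range L →L[ℝ] (ι → ℝ) := LinearMap.toContinuousLinearMap g with hG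
  refine ⟨‖G‖, G.opNorm_nonneg, ?_⟩
  intro f hf
  have hfL : f ∈ LinearMap.range L := by
    rw [hL, Fintype.range_linearCombination]
    exact hf
  refine ⟨g ⟨f, hfL⟩, ?_, ?_⟩
  · have h3 : L.rangeRestrict (g ⟨f, hfL⟩) = ⟨f, hfL⟩ := LinearMap.congr_fun hg _
    have h4 := congrArg Subtype.val h3
    have h5 : L (g ⟨f, hfL⟩) = f := h4
    have h6 : ∀ x : ι → ℝ, L x = ∑ i, x i • v i := fun x => by
      rw [hL, Fintype.linearCombination_apply]
    rw [h6] at h5
    exact h5.symm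
  · intro i
    have h4 : ‖G ⟨f, hfL⟩‖ ≤ ‖G‖ * ‖(⟨f, hfL⟩ : LinearMap.range L)‖ := G.le_opNorm _
    have h5 : ‖G ⟨f, hfL⟩ i‖ ≤ ‖G ⟨f, hfL⟩‖ := norm_le_pi_norm (G ⟨f, hfL⟩) i
    exact h5.trans h4

/-- Lemma 2 -/
theorem exists_R (A : Finset (StrongDual ℝ Y)) (M : ℝ) : ∃ R : ℝ, 1 ≤ R ∧
    ∀ f : StrongDual ℝ Y, ‖f‖ ≤ M → (∀ y ∈ perp A, f y = 0) →
      ∀ y, (∀ l ∈ A, R * |l y| ≤ 1) → |f y| ≤ 1 / 2 := by
  classical
  obtain ⟨D, hD0, hDc⟩ := exists_coeff (fun l : A => (l : StrongDual ℝ Y))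
  refine ⟨1 + 2 * (A.card * (D * |M|)), by
    have : 0 ≤ 2 * ((A.card : ℝ) * (D * |M|)) := by positivity
    linarith, ?_⟩
  intro f hfM hf y hy
  obtain ⟨c', hc'⟩ := mem_span_of_perp A f hf
  obtain ⟨c, hc, hcD⟩ := hDc f (by
    rw [Submodule.mem_span_range_iff_exists_fun]
    exact ⟨c', hc'.symm⟩)
  have h2 : f y = ∑ l : A, c l * (l : StrongDual ℝ Y) y := by
    conv_lhs => rw [hc]
    rw [sum_apply]
    rfl
  have h3 : ∀ l : A, |c l| ≤ D * |M| := by
    intro l
    exact (hcD l).trans (mul_le_mul_of_nonneg_left (hfM.trans (le_abs_self _)) hD0)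
  have hq : (0 : ℝ) ≤ D * |M| := by positivity
  set R : ℝ := 1 + 2 * (A.card * (D * |M|)) with hR
  have hRpos : 0 < R := by positivity
  have h4 : |f y| ≤ A.card * (D * |M| * R⁻¹) := by
    rw [h2]
    calc |∑ l : A, c l * (l : StrongDual ℝ Y) y|
        ≤ ∑ l : A, |c l * (l : StrongDual ℝ Y) y| := Finset.abs_sum_le_sum_abs _ _
      _ ≤ ∑ _l : A, D * |M| * R⁻¹ := by
        refine Finset.sum_le_sum fun l _ => ?_
        rw [abs_mul]
        have h5 : |(l : StrongDual ℝ Y) y| ≤ R⁻¹ := by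
          have := hy l l.2
          rw [← le_inv_mul_iff₀ hRpos, mul_one] at this
          exact this
        exact mul_le_mul (h3 l) h5 (abs_nonneg _) hq
      _ = A.card * (D * |M| * R⁻¹) := by
        rw [Finset.sum_const, Finset.card_univ, nsmul_eq_mul, Fintype.card_coe]
  refine h4.trans ?_
  rw [← mul_assoc, ← div_eq_mul_inv, div_le_iff₀ hRpos, hR]
  have h5 : (0 : ℝ) ≤ A.card * (D * |M|) := by positivity
  linarith

/-- Lemma 3 -/
theorem drop (A : Finset (StrongDual ℝ Y)) (m : ℕ) (K R : ℝ)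
    (hR : ∀ f : StrongDual ℝ Y, ‖f‖ ≤ (m + 1) * K → (∀ y ∈ perp A, f y = 0) →
      ∀ y, (∀ l ∈ A, R * |l y| ≤ 1) → |f y| ≤ 1 / 2)
    (ξ : Fin (m + 1) → StrongDual ℝ Y) (hξ : ∀ i, ‖ξ i‖ ≤ K)
    (hdep : ¬ LinearIndependent ℝ fun i => res (perp A) (ξ i)) :
    ∃ ψ : Fin m → StrongDual ℝ Y, (∀ i, ‖ψ i‖ ≤ 2 * (m + 1) * K) ∧
      ∀ y, (∀ l ∈ A, R * |l y| ≤ 1) → y ∈ tslab ψ → y ∈ tslab ξ := by
  classical
  rw [Fintype.not_linearIndependent_iff] at hdep
  obtain ⟨g, hg, i₁, hi₁⟩ := hdep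
  obtain ⟨i₀, hi₀⟩ := Finite.exists_max fun i => |g i|
  have hpos : 0 < |g i₀| := lt_of_lt_of_le (abs_pos.2 hi₁) (hi₀ i₁)
  have hne : g i₀ ≠ 0 := abs_pos.1 hpos
  set c : Fin (m + 1) → ℝ := fun i => (g i₀)⁻¹ * g i with hc
  have hc0 : c i₀ = 1 := by
    rw [hc]
    exact inv_mul_cancel₀ hne
  have hc1 : ∀ i, |c i| ≤ 1 := by
    intro i
    rw [hc]
    show |(g i₀)⁻¹ * g i| ≤ 1
    rw [abs_mul, abs_inv, inv_mul_le_iff₀ hpos, mul_one]
    exact hi₀ i
  set f : StrongDual ℝ Y := ∑ i, c i • ξ i with hf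
  have hfp : ∀ y ∈ perp A, f y = 0 := by
    intro y hy
    have h1 : (∑ i, g i • res (perp A) (ξ i)) ⟨y, hy⟩ = 0 := by
      rw [hg]
      rfl
    rw [sum_apply] at h1
    have h2 : f y = (g i₀)⁻¹ * ∑ i, (g i • res (perp A) (ξ i)) ⟨y, hy⟩ := by
      rw [hf, sum_apply, Finset.mul_sum]
      refine Finset.sum_congr rfl fun i _ => ?_
      show (g i₀)⁻¹ * g i * ξ i y = (g i₀)⁻¹ * (g i * ξ i y)
      ring
    rw [h2, h1, mul_zero]
  have hK : 0 ≤ K := (norm_nonneg _).trans (hξ i₀)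
  have hfn : ‖f‖ ≤ (m + 1) * K := by
    calc ‖f‖ ≤ ∑ i, ‖c i • ξ i‖ := norm_sum_le _ _
      _ ≤ ∑ _i : Fin (m + 1), K := by
        refine Finset.sum_le_sum fun i _ => ?_
        rw [norm_smul, Real.norm_eq_abs]
        calc |c i| * ‖ξ i‖ ≤ 1 * ‖ξ i‖ :=
              mul_le_mul_of_nonneg_right (hc1 i) (norm_nonneg _)
          _ ≤ K := by
            rw [one_mul]
            exact hξ i
      _ = (m + 1) * K := by
        rw [Finset.sum_const, Finset.card_univ, Fintype.card_fin, nsmul_eq_mul]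
        push_cast
        ring
  have hm : (0 : ℝ) < 2 * (m + 1) := by positivity
  refine ⟨fun j => (2 * ((m : ℝ) + 1)) • ξ (i₀.succAbove j), ?_, ?_⟩
  · intro j
    rw [norm_smul, Real.norm_eq_abs, abs_of_pos hm]
    exact mul_le_mul_of_nonneg_left (hξ _) hm.le
  · intro y hyA hyψ
    have h1 : ∀ j, |ξ (i₀.succAbove j) y| ≤ 1 / (2 * (m + 1)) := by
      intro j
      have h2 := hyψ j
      have h3 : ((2 * ((m : ℝ) + 1)) • ξ (i₀.succAbove j)) y =
          (2 * ((m : ℝ) + 1)) * ξ (i₀.succAbove j) y := rfl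
      rw [h3, abs_mul, abs_of_pos hm] at h2
      rw [le_div_iff₀ hm]
      linarith
    have hle1 : 1 / (2 * ((m : ℝ) + 1)) ≤ 1 := by
      rw [div_le_one hm]
      have : (0 : ℝ) ≤ m := Nat.cast_nonneg _
      linarith
    intro i
    rcases Fin.eq_self_or_eq_succAbove i₀ i with rfl | ⟨j, rfl⟩
    · have h4 : f y = ξ i y + ∑ j, c (i.succAbove j) * ξ (i.succAbove j) y := by
        rw [hf, sum_apply, Fin.sum_univ_succAbove _ i]
        show c i * ξ i y + _ = _
        rw [hc0, one_mul]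
        rfl
      have h5 := hR f hfn hfp y hyA
      have h6 : |∑ j, c (i.succAbove j) * ξ (i.succAbove j) y| ≤ m * (1 / (2 * (m + 1))) := by
        calc |∑ j, c (i.succAbove j) * ξ (i.succAbove j) y|
            ≤ ∑ j, |c (i.succAbove j) * ξ (i.succAbove j) y| := Finset.abs_sum_le_sum_abs _ _
          _ ≤ ∑ _j : Fin m, (1 / (2 * ((m : ℝ) + 1))) := by
            refine Finset.sum_le_sum fun j _ => ?_
            rw [abs_mul]
            calc |c (i.succAbove j)| * |ξ (i.succAbove j) y|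
                ≤ 1 * |ξ (i.succAbove j) y| :=
                  mul_le_mul_of_nonneg_right (hc1 _) (abs_nonneg _)
              _ ≤ _ := by
                rw [one_mul]
                exact h1 j
          _ = m * (1 / (2 * (m + 1))) := by
            rw [Finset.sum_const, Finset.card_univ, Fintype.card_fin, nsmul_eq_mul]
      have h7 : (m : ℝ) * (1 / (2 * (m + 1))) ≤ 1 / 2 := by
        rw [mul_one_div, div_le_div_iff₀ hm (by norm_num)]
        linarith
      have h8 : ξ i y = f y - ∑ j, c (i.succAbove j) * ξ (i.succAbove j) y := by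
        rw [h4]
        ring
      rw [h8]
      calc |f y - ∑ j, c (i.succAbove j) * ξ (i.succAbove j) y|
          ≤ |f y| + |∑ j, c (i.succAbove j) * ξ (i.succAbove j) y| := abs_sub _ _
        _ ≤ 1 := by linarith
    · exact (h1 j).trans hle1

end Pool.Agent.H17.WH
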