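import Pool.Agent.H17.WH.Pk
import Pool.Agent.H17.WH.Gauss
import Pool.Agent.H17.WH.Lower

/-!
# The two functionals, the dimension estimate and the full rank lemma
-/

set_option autoImplicit false
open Filter Topology

namespace Pool.Agent.H17.WH

variable {X Y : Type*} [NormedAddCommGroup X] [NormedSpace ℝ X]
  [NormedAddCommGroup Y] [NormedSpace ℝ Y]

/-- minimality of `m + 1` -/
structure Setup (H : Y → X) (m : ℕ) (A : Finset (StrongDual ℝ Y)) (K C : ℝ) : Prop where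
  wc : WCont H
  K1 : 1 ≤ K
  C1 : 1 ≤ C
  pos : PProp H (m + 1) A K C
  neg : ∀ (A' : Finset (StrongDual ℝ Y)) (K' C' : ℝ), ¬ PProp H m A' K' C'

/-- the span of the restrictions of a tuple -/
def sp (Z : Submodule ℝ Y) {k : ℕ} (ξ : Fin k → StrongDual ℝ Y) :
    Submodule ℝ (StrongDual ℝ Z) := Submodule.span ℝ (Set.range fun i => res Z (ξ i))

theorem Good.mono {H : Y → X} {A : Finset (StrongDual ℝ Y)} {K C C' : ℝ} {k : ℕ}
    {θ : StrongDual ℝ X} {ξ : Fin k → StrongDual ℝ Y} (h : Good H A K C θ ξ) (hC : C ≤ C') :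
    Good H A K C' θ ξ :=
  ⟨h.1, fun y hy hyξ => (h.2 y hy hyξ).trans (mul_le_mul_of_nonneg_right hC (norm_nonneg _))⟩

theorem Good.smul {H : Y → X} {A : Finset (StrongDual ℝ Y)} {K C : ℝ} {k : ℕ}
    {θ : StrongDual ℝ X} {ξ : Fin k → StrongDual ℝ Y} (h : Good H A K C θ ξ) (c : ℝ) :
    Good H A K C (c • θ) ξ := by
  refine ⟨h.1, fun y hy hyξ => ?_⟩
  have h1 : (c • θ) (H y) = c * θ (H y) := rfl
  rw [h1, abs_mul, norm_smul, Real.norm_eq_abs]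
  have h2 := mul_le_mul_of_nonneg_left (h.2 y hy hyξ) (abs_nonneg c)
  calc |c| * |θ (H y)| ≤ |c| * (C * ‖θ‖) := h2
    _ = C * (|c| * ‖θ‖) := by ring

theorem Good.neg {H : Y → X} {A : Finset (StrongDual ℝ Y)} {K C : ℝ} {k : ℕ}
    {θ : StrongDual ℝ X} {ξ : Fin k → StrongDual ℝ Y} (h : Good H A K C θ ξ) :
    Good H A K C (-θ) ξ := by
  refine ⟨h.1, fun y hy hyξ => ?_⟩
  have h1 : (-θ) (H y) = -(θ (H y)) := rfl
  rw [h1, abs_neg, norm_neg]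
  exact h.2 y hy hyξ

theorem exists_strict {H : Y → X} {k : ℕ} {A : Finset (StrongDual ℝ Y)} {K C : ℝ}
    (h : PProp H k A K C) (θ : StrongDual ℝ X) :
    ∃ ξ : Fin k → StrongDual ℝ Y, Good H A K C θ ξ := by
  obtain ⟨ξ, hξ, hξ'⟩ := h (‖θ‖⁻¹ • θ) (by
    rw [norm_smul, norm_inv, norm_norm]
    exact inv_mul_le_one)
  refine ⟨ξ, hξ, fun y hy hyξ => ?_⟩
  have h1 := hξ' y hy hyξ
  have h2 : (‖θ‖⁻¹ • θ) (H y) = ‖θ‖⁻¹ * θ (H y) := rfl
  rw [h2, abs_mul, abs_inv, abs_norm] at h1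
  rcases (norm_nonneg θ).eq_or_lt with h0 | h0
  · have hθ : θ = 0 := norm_eq_zero.1 h0.symm
    rw [hθ, norm_zero, mul_zero]
    simp
  · rw [inv_mul_le_iff₀ h0] at h1
    linarith

/-- the first functional -/
structure First (H : Y → X) (m : ℕ) (A : Finset (StrongDual ℝ Y)) (K C : ℝ)
    (φ₁ : StrongDual ℝ X) (Q₁ : Finset Y) (B : Finset (StrongDual ℝ Y)) : Prop where
  norm_le : ‖φ₁‖ ≤ 1
  slab : ∀ p ∈ Q₁, p ∈ slab A
  cover : ∀ ψ : Fin m → StrongDual ℝ Y, (∀ i, ‖ψ i‖ ≤ 2 ^ m * (m + 1) * (3 * (m + 1) * K)) →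
    ∃ p ∈ Q₁, p ∈ tslab ψ ∧ 1 + 40 * C < |φ₁ (H p)|
  sub : A ⊆ B
  osc : ∀ p ∈ Q₁, ∀ y ∈ perp B, |φ₁ (H (p + y)) - φ₁ (H p)| ≤ 1
  small : ∀ y ∈ Pool.Agent.H17.WH.slab B, |φ₁ (H y)| ≤ 1

theorem Setup.exists_first {H : Y → X} {m : ℕ} {A : Finset (StrongDual ℝ Y)} {K C : ℝ}
    (hs : Setup H m A K C) (h0 : H 0 = 0) : ∃ φ₁ Q₁ B, First H m A K C φ₁ Q₁ B := by
  classical
  obtain ⟨φ₁, hφ₁, Q₁, hQ₁, hcov⟩ := neg_pprop
    (hs.neg A (2 * (2 ^ m * (m + 1) * (3 * (m + 1) * K))) (1 + 40 * C))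
  have hwc := fun p : Y => hs.wc φ₁ p 1 one_pos
  choose D hD using hwc
  refine ⟨φ₁, Q₁, A ∪ (D 0 ∪ Q₁.biUnion D), hφ₁, hQ₁, hcov, Finset.subset_union_left, ?_, ?_⟩
  · intro p hp y hy
    apply hD p
    intro l hl
    have h1 : l y = 0 := hy l (Finset.mem_union_right _ (Finset.mem_union_right _
      (Finset.mem_biUnion.2 ⟨p, hp, hl⟩)))
    rw [add_sub_cancel_left, h1, abs_zero]
    exact zero_le_one
  · intro y hy
    have h1 := hD 0 y (by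
      intro l hl
      rw [sub_zero]
      exact hy l (Finset.mem_union_right _ (Finset.mem_union_left _ hl)))
    rw [h0, map_zero, sub_zero] at h1
    exact h1

/-- Lemma 1 -/
theorem dim_est {H : Y → X} {m : ℕ} {A : Finset (StrongDual ℝ Y)} {K C : ℝ}
    (hs : Setup H m A K C) {φ₁ : StrongDual ℝ X} {Q₁ : Finset Y} {B : Finset (StrongDual ℝ Y)}
    (h1 : First H m A K C φ₁ Q₁ B) {n : ℕ} (hn : n ≤ 3) (θ : Fin n → StrongDual ℝ X)
    (ξ : Fin n → Fin (m + 1) → StrongDual ℝ Y) (hξ : ∀ i, Good H A K (2 * C) (θ i) (ξ i))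
    (b : ℝ) (hb : b ≠ 0) (hsum : ∑ i, θ i = b • φ₁)
    (hle : 2 * C * ∑ i, ‖θ i‖ ≤ |b| * (40 * C)) :
    Module.finrank ℝ (Submodule.span ℝ (Set.range fun p : Fin n × Fin (m + 1) =>
      res (perp B) (ξ p.1 p.2))) + (m + 1) ≤ n * (m + 1) := by
  have hK : 0 ≤ K := zero_le_one.trans hs.K1
  have key := dim_core (fun p : Fin n × Fin (m + 1) => ξ p.1 p.2) K
    (fun p => (hξ p.1).1 p.2) (perp B) m {p | p ∈ Q₁ ∧ 1 + 40 * C < |φ₁ (H p)|} (by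
      rintro p ⟨hp, hpL⟩ y hy
      by_contra hcon
      push Not at hcon
      have hpy : p + y ∈ slab A := by
        intro l hl
        rw [map_add, hy l (h1.sub hl), add_zero]
        exact h1.slab p hp l hl
      have h2 : ∀ i, |θ i (H (p + y))| ≤ 2 * C * ‖θ i‖ := fun i =>
        (hξ i).2 _ hpy fun j => hcon (i, j)
      have h3 : |b| * |φ₁ (H (p + y))| ≤ |b| * (40 * C) := by
        refine le_trans ?_ hle
        have h4 : b * φ₁ (H (p + y)) = ∑ i, θ i (H (p + y)) := by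
          have h5 : (b • φ₁) (H (p + y)) = b * φ₁ (H (p + y)) := rfl
          rw [← h5, ← hsum, sum_apply]
        rw [← abs_mul, h4, Finset.mul_sum]
        exact (Finset.abs_sum_le_sum_abs _ _).trans (Finset.sum_le_sum fun i _ => h2 i)
      have h4 : |φ₁ (H (p + y))| ≤ 40 * C := le_of_mul_le_mul_left h3 (abs_pos.2 hb)
      have h5 := h1.osc p hp y hy
      have h6 : |φ₁ (H p)| ≤ |φ₁ (H (p + y))| + |φ₁ (H (p + y)) - φ₁ (H p)| := by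
        have := abs_sub_abs_le_abs_sub (φ₁ (H p)) (φ₁ (H (p + y)))
        rw [abs_sub_comm] at this
        linarith
      linarith) (2 ^ m * (m + 1) * (3 * (m + 1) * K)) (by
      rw [Fintype.card_prod, Fintype.card_fin, Fintype.card_fin]
      apply mul_le_mul_of_nonneg_left _ (by positivity)
      push_cast
      have h2 : (n : ℝ) ≤ 3 := by exact_mod_cast hn
      have h3 : (0 : ℝ) ≤ (m + 1) * K := by positivity
      nlinarith) (by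
      intro ψ hψ
      obtain ⟨p, hp, hpψ, hpL⟩ := h1.cover ψ hψ
      exact ⟨p, ⟨hp, hpL⟩, hpψ⟩)
  rw [Fintype.card_prod, Fintype.card_fin, Fintype.card_fin] at key
  omega

/-- the second functional -/
structure Second (H : Y → X) (m : ℕ) (K C : ℝ) (B : Finset (StrongDual ℝ Y))
    (φ₂ : StrongDual ℝ X) (Q₂ : Finset Y) (R r : ℝ) : Prop where
  norm_le : ‖φ₂‖ ≤ 1
  R1 : 1 ≤ R
  hR : ∀ f : StrongDual ℝ Y, ‖f‖ ≤ (m + 1) * K → (∀ y ∈ perp B, f y = 0) →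
      ∀ y, (∀ l ∈ B, R * |l y| ≤ 1) → |f y| ≤ 1 / 2
  slab : ∀ p ∈ Q₂, ∀ l ∈ B, R * |l p| ≤ 1
  cover : ∀ ψ : Fin m → StrongDual ℝ Y, (∀ i, ‖ψ i‖ ≤ 2 * (m + 1) * K) →
    ∃ p ∈ Q₂, p ∈ tslab ψ ∧ 4 + 8 * C < |φ₂ (H p)|
  r0 : 0 < r
  r1 : r ≤ 1 / 4
  rQ : ∀ p ∈ Q₂, r * ‖H p‖ ≤ 1

theorem mem_slab_image [DecidableEq (StrongDual ℝ Y)] {B : Finset (StrongDual ℝ Y)} {R : ℝ}
    (hR : 0 ≤ R) {p : Y} (hp : p ∈ slab (B.image fun l => R • l)) : ∀ l ∈ B, R * |l p| ≤ 1 := by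
  intro l hl
  have h1 := hp _ (Finset.mem_image_of_mem _ hl)
  have h2 : (R • l) p = R * l p := rfl
  rw [h2, abs_mul, abs_of_nonneg hR] at h1
  exact h1

theorem Setup.exists_second {H : Y → X} {m : ℕ} {A : Finset (StrongDual ℝ Y)} {K C : ℝ}
    (hs : Setup H m A K C) (B : Finset (StrongDual ℝ Y)) :
    ∃ φ₂ Q₂ R r, Second H m K C B φ₂ Q₂ R r := by
  classical
  obtain ⟨R, hR1, hR⟩ := exists_R B ((m + 1) * K)
  obtain ⟨φ₂, hφ₂, Q₂, hQ₂, hcov⟩ := neg_pprop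
    (hs.neg (B.image fun l => R • l) (2 * (2 * (m + 1) * K)) (4 + 8 * C))
  set M := ∑ p ∈ Q₂, ‖H p‖ with hM
  have hM0 : 0 ≤ M := Finset.sum_nonneg fun _ _ => norm_nonneg _
  refine ⟨φ₂, Q₂, R, 1 / (4 + M), hφ₂, hR1, hR, ?_, hcov, by positivity, ?_, ?_⟩
  · intro p hp
    exact mem_slab_image (zero_le_one.trans hR1) (hQ₂ p hp)
  · exact one_div_le_one_div_of_le (by norm_num) (by linarith)
  · intro p hp
    have h1 : ‖H p‖ ≤ M := Finset.single_le_sum (f := fun p => ‖H p‖)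
      (fun _ _ => norm_nonneg _) hp
    rw [one_div, inv_mul_le_iff₀ (by positivity)]
    linarith

/-- Lemma 4 -/
theorem full_rank {H : Y → X} {m : ℕ} {A : Finset (StrongDual ℝ Y)} {K C : ℝ}
    (hs : Setup H m A K C) {φ₁ : StrongDual ℝ X} {Q₁ : Finset Y} {B : Finset (StrongDual ℝ Y)}
    (h1 : First H m A K C φ₁ Q₁ B) {φ₂ : StrongDual ℝ X} {Q₂ : Finset Y} {R r : ℝ}
    (h2 : Second H m K C B φ₂ Q₂ R r) {u : StrongDual ℝ X} (hu : u ∈ Metric.ball φ₂ r) {b : ℝ}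
    (hb : |b| ≤ 1) {ξ : Fin (m + 1) → StrongDual ℝ Y}
    (hξ : Good H A K (2 * C) (u + b • φ₁) ξ) :
    LinearIndependent ℝ fun i => res (perp B) (ξ i) := by
  by_contra hdep
  obtain ⟨ψ, hψ, hψ'⟩ := drop B m K R h2.hR ξ hξ.1 hdep
  obtain ⟨p, hp, hpψ, hpL⟩ := h2.cover ψ hψ
  have hpB : ∀ l ∈ B, R * |l p| ≤ 1 := h2.slab p hp
  have hpξ : p ∈ tslab ξ := hψ' p hpB hpψ
  have hpsB : p ∈ slab B := by
    intro l hl
    have h3 := hpB l hl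
    have h4 := h2.R1
    have h5 := abs_nonneg (l p)
    nlinarith
  have hpsA : p ∈ slab A := slab_anti h1.sub hpsB
  have h3 := hξ.2 p hpsA hpξ
  have h4 := h1.small p hpsB
  have h5 : (u + b • φ₁) (H p) = u (H p) + b * φ₁ (H p) := rfl
  rw [h5] at h3
  rw [Metric.mem_ball, dist_eq_norm] at hu
  have h6 : |(u - φ₂) (H p)| ≤ 1 := by
    have h7 := (u - φ₂).le_opNorm (H p)
    rw [Real.norm_eq_abs] at h7
    calc |(u - φ₂) (H p)| ≤ ‖u - φ₂‖ * ‖H p‖ := h7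
      _ ≤ r * ‖H p‖ := mul_le_mul_of_nonneg_right hu.le (norm_nonneg _)
      _ ≤ 1 := h2.rQ p hp
  have h7 : (u - φ₂) (H p) = u (H p) - φ₂ (H p) := rfl
  rw [h7] at h6
  have h8 : |b * φ₁ (H p)| ≤ 1 := by
    rw [abs_mul]
    exact mul_le_one₀ hb (abs_nonneg _) h4
  have hun : ‖u‖ ≤ 5 / 4 := by
    have h9 : ‖u‖ ≤ ‖φ₂‖ + ‖u - φ₂‖ := by
      have : u = φ₂ + (u - φ₂) := by abel
      conv_lhs => rw [this]
      exact norm_add_le _ _
    have := h2.norm_le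
    have := h2.r1
    linarith
  have hnorm : ‖u + b • φ₁‖ ≤ 9 / 4 := by
    have h9 := norm_add_le u (b • φ₁)
    rw [norm_smul, Real.norm_eq_abs] at h9
    have h10 : |b| * ‖φ₁‖ ≤ 1 := mul_le_one₀ hb (norm_nonneg _) h1.norm_le
    linarith
  have hC := hs.C1
  have h9 : 2 * C * ‖u + b • φ₁‖ ≤ 2 * C * (9 / 4) :=
    mul_le_mul_of_nonneg_left hnorm (by linarith)
  have h10 : φ₂ (H p) = (u (H p) + b * φ₁ (H p)) - b * φ₁ (H p) - (u (H p) - φ₂ (H p)) := by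
    ring
  have h11 : |φ₂ (H p)| ≤ |u (H p) + b * φ₁ (H p)| + |b * φ₁ (H p)| + |u (H p) - φ₂ (H p)| := by
    have e1 := abs_sub ((u (H p) + b * φ₁ (H p)) - b * φ₁ (H p)) (u (H p) - φ₂ (H p))
    have e2 := abs_sub (u (H p) + b * φ₁ (H p)) (b * φ₁ (H p))
    rw [← h10] at e1
    linarith
  linarith

end Pool.Agent.H17.WH
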