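import Mathlib

/-!
# Families of subspaces over an open cone: definition, and the first step of the representation
-/

set_option autoImplicit false
open Filter Topology

namespace Pool.Agent.H17.WH

/-- A family of `k`-dimensional subspaces `E θ` of `W`, for `θ` in an open convex cone `O`. -/
structure Fam {V W : Type*} [NormedAddCommGroup V] [NormedSpace ℝ V] [NormedAddCommGroup W]
    [NormedSpace ℝ W] (k : ℕ) (O : Set V) (E : V → Submodule ℝ W) : Prop where
  isOpen : IsOpen O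
  nonempty : O.Nonempty
  add_mem : ∀ {θ θ' : V}, θ ∈ O → θ' ∈ O → θ + θ' ∈ O
  smul_mem : ∀ {θ : V} {c : ℝ}, θ ∈ O → 0 < c → c • θ ∈ O
  fd : ∀ θ : V, FiniteDimensional ℝ (E θ)
  dim : ∀ {θ : V}, θ ∈ O → Module.finrank ℝ (E θ) = k
  smul : ∀ {θ : V} {c : ℝ}, θ ∈ O → 0 < c → E (c • θ) = E θ
  e2 : ∀ {θ θ' : V}, θ ∈ O → θ' ∈ O →
    Module.finrank ℝ ↥(E θ ⊔ E θ' ⊔ E (θ + θ')) ≤ 2 * k
  e3a : ∀ {θ : V}, θ ∈ O → ∀ F : Submodule ℝ W, FiniteDimensional ℝ F → Disjoint (E θ) F →
    ∀ᶠ θ' in 𝓝 θ, Disjoint (E θ') F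
  e3b : ∀ {θ : V}, θ ∈ O → ∀ (u : ℕ → V) (τ : ℕ → Fin k → W) (t : Fin k → W),
    Tendsto u atTop (𝓝 θ) → Tendsto τ atTop (𝓝 t) → LinearIndependent ℝ t →
    (∀ᶠ n in atTop, E (u n) = Submodule.span ℝ (Set.range (τ n))) →
    E θ = Submodule.span ℝ (Set.range t)
  e4 : ∀ {θ : V}, θ ∈ O → ∀ F : Submodule ℝ W, FiniteDimensional ℝ F → ∀ U ∈ 𝓝 θ,
    ∃ θ' ∈ U, θ' ∈ O ∧ Disjoint (E θ') F

section sub

variable {W : Type*} [NormedAddCommGroup W] [NormedSpace ℝ W]

theorem finrank_sup_of_disjoint {A B : Submodule ℝ W} [FiniteDimensional ℝ A]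
    [FiniteDimensional ℝ B] (h : Disjoint A B) :
    Module.finrank ℝ ↥(A ⊔ B) = Module.finrank ℝ A + Module.finrank ℝ B := by
  have h1 := Submodule.finrank_sup_add_finrank_inf_eq A B
  rw [disjoint_iff.1 h, finrank_bot] at h1
  simpa using h1

/-- graphs: if `A` is a complement of `F` in `E ⊕ F`, it is a graph over `E` -/
theorem graph_of_disjoint {A E F : Submodule ℝ W} [FiniteDimensional ℝ A]
    [FiniteDimensional ℝ E] [FiniteDimensional ℝ F]
    (hdim : Module.finrank ℝ A = Module.finrank ℝ E) (hEF : Disjoint E F)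
    (hAle : A ≤ E ⊔ F) (hAF : Disjoint A F) : ∀ e ∈ E, ∃ w ∈ F, e + w ∈ A := by
  have h1 : A ⊔ F ≤ E ⊔ F := sup_le hAle le_sup_right
  have h2 : A ⊔ F = E ⊔ F := by
    apply Submodule.eq_of_le_of_finrank_le h1
    rw [finrank_sup_of_disjoint hEF, finrank_sup_of_disjoint hAF, hdim]
  intro e he
  have h3 : e ∈ A ⊔ F := by
    rw [h2]
    exact Submodule.mem_sup_left he
  obtain ⟨a, ha, f, hf, rfl⟩ := Submodule.mem_sup.1 h3
  exact ⟨-f, F.neg_mem hf, by simpa using ha⟩

/-- conversely a graph is disjoint from `F` -/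
theorem disjoint_of_graph {A E F : Submodule ℝ W} [FiniteDimensional ℝ A]
    [FiniteDimensional ℝ E] [FiniteDimensional ℝ F]
    (hdim : Module.finrank ℝ A = Module.finrank ℝ E) (hEF : Disjoint E F)
    (hg : ∀ e ∈ E, ∃ w ∈ F, e + w ∈ A) : Disjoint A F := by
  have h1 : E ⊔ F ≤ A ⊔ F := by
    refine sup_le ?_ le_sup_right
    intro e he
    obtain ⟨w, hw, hew⟩ := hg e he
    have : e = (e + w) + (-w) := by abel
    rw [this]
    exact Submodule.add_mem_sup hew (F.neg_mem hw)
  have h2 := Submodule.finrank_mono h1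
  rw [finrank_sup_of_disjoint hEF] at h2
  have h3 := Submodule.finrank_sup_add_finrank_inf_eq A F
  have h4 : Module.finrank ℝ ↥(A ⊓ F) = 0 := by omega
  rw [disjoint_iff]
  exact Submodule.finrank_eq_zero.1 h4

end sub

section fam

variable {V W : Type*} [NormedAddCommGroup V] [NormedSpace ℝ V] [NormedAddCommGroup W]
    [NormedSpace ℝ W] {k : ℕ} {O : Set V} {E : V → Submodule ℝ W}

theorem Fam.le_sup (hE : Fam k O E) {θ θ' : V} (h : θ ∈ O) (h' : θ' ∈ O)
    (hd : Disjoint (E θ) (E θ')) : E (θ + θ') ≤ E θ ⊔ E θ' := by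
  have := hE.fd
  have h1 : E θ ⊔ E θ' ≤ E θ ⊔ E θ' ⊔ E (θ + θ') := le_sup_left
  have h2 : E θ ⊔ E θ' = E θ ⊔ E θ' ⊔ E (θ + θ') := by
    apply Submodule.eq_of_le_of_finrank_le h1
    rw [finrank_sup_of_disjoint hd, hE.dim h, hE.dim h']
    have := hE.e2 h h'
    omega
  rw [h2]
  exact le_sup_right

/-- (a) -/
theorem Fam.disjoint_add (hE : Fam k O E) {θ₀ θ : V} (h₀ : θ₀ ∈ O) (h : θ ∈ O)
    (hd : Disjoint (E θ₀) (E θ)) : Disjoint (E (θ₀ + θ)) (E θ) := by
  have := hE.fd
  obtain ⟨θ', -, h', hd'⟩ := hE.e4 h (E θ₀ ⊔ E θ) inferInstance Set.univ univ_mem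
  have hd0' : Disjoint (E θ₀) (E θ') := (hd'.mono_right le_sup_left).symm
  have hd1' : Disjoint (E θ') (E θ) := hd'.mono_right le_sup_right
  -- the number `s'`
  obtain ⟨s', hs', hs'd⟩ : ∃ s' : ℝ, 0 < s' ∧ Disjoint (E (θ₀ + s' • θ')) (E θ') := by
    have h1 := hE.e3a h₀ (E θ') inferInstance hd0'
    have h2 : Tendsto (fun s : ℝ => θ₀ + s • θ') (𝓝 0) (𝓝 θ₀) := by
      have : Continuous fun s : ℝ => θ₀ + s • θ' := by fun_prop
      simpa using this.tendsto 0
    have h3 := h2.eventually h1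
    have h4 : ∀ᶠ s : ℝ in 𝓝[>] 0, Disjoint (E (θ₀ + s • θ')) (E θ') :=
      h3.filter_mono nhdsWithin_le_nhds
    obtain ⟨s, hs1, hs2⟩ := (h4.and self_mem_nhdsWithin).exists
    exact ⟨s, hs2, hs1⟩
  -- the number `s₂`
  obtain ⟨m, hm⟩ : ∃ m : ℕ, Disjoint (E ((1 / ((m : ℝ) + 1)) • θ + s' • θ')) (E θ) := by
    have h1 := hE.e3a h' (E θ) inferInstance hd1'
    have h2 : Tendsto (fun m : ℕ => θ' + ((1 / ((m : ℝ) + 1)) * s'⁻¹) • θ) atTop (𝓝 θ') := by
      have h3 : Tendsto (fun m : ℕ => (1 / ((m : ℝ) + 1)) * s'⁻¹) atTop (𝓝 (0 * s'⁻¹)) :=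
        tendsto_one_div_add_atTop_nhds_zero_nat.mul_const _
      rw [zero_mul] at h3
      have h4 : Tendsto (fun s : ℝ => θ' + s • θ) (𝓝 0) (𝓝 θ') := by
        have : Continuous fun s : ℝ => θ' + s • θ := by fun_prop
        simpa using this.tendsto 0
      exact h4.comp h3
    obtain ⟨m, hm⟩ := (h2.eventually h1).exists
    refine ⟨m, ?_⟩
    have h5 : (1 / ((m : ℝ) + 1)) • θ + s' • θ' =
        s' • (θ' + ((1 / ((m : ℝ) + 1)) * s'⁻¹) • θ) := by
      rw [smul_add, smul_smul, add_comm]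
      congr 2
      field_simp
    rw [h5, hE.smul _ hs']
    · exact hm
    · exact hE.add_mem h' (hE.smul_mem h (by positivity))
  set s₂ : ℝ := 1 / ((m : ℝ) + 1) with hs₂
  have hs₂pos : 0 < s₂ := by positivity
  set η : V := s₂ • θ + s' • θ' with hη
  have hηO : η ∈ O := hE.add_mem (hE.smul_mem h hs₂pos) (hE.smul_mem h' hs')
  have hηle : E η ≤ E θ' ⊔ E θ := by
    have := hE.le_sup (hE.smul_mem h hs₂pos) (hE.smul_mem h' hs') (by
      rw [hE.smul h hs₂pos, hE.smul h' hs']
      exact hd1'.symm)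
    rw [hE.smul h hs₂pos, hE.smul h' hs', sup_comm] at this
    exact this
  have hA'O : θ₀ + s' • θ' ∈ O := hE.add_mem h₀ (hE.smul_mem h' hs')
  have hA'le : E (θ₀ + s' • θ') ≤ E θ₀ ⊔ E θ' := by
    have := hE.le_sup h₀ (hE.smul_mem h' hs') (by
      rw [hE.smul h' hs']
      exact hd0')
    rw [hE.smul h' hs'] at this
    exact this
  -- directness
  have dir : ∀ t ∈ E θ', t ∈ E θ₀ ⊔ E θ → t = 0 := fun t ht ht' =>
    Submodule.disjoint_def.1 hd' t ht ht'
  have dir0 : Disjoint (E θ₀) (E θ ⊔ E θ') := by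
    rw [Submodule.disjoint_def]
    intro e he he'
    obtain ⟨n, hn, t, ht, rfl⟩ := Submodule.mem_sup.1 he'
    have h1 : t = 0 := dir t ht (by
      have : t = (n + t) + (-n) := by abel
      rw [this]
      exact Submodule.add_mem_sup he ((E θ).neg_mem hn))
    rw [h1, add_zero] at he ⊢
    exact Submodule.disjoint_def.1 hd n he hn
  have hηd : Disjoint (E η) (E θ₀ ⊔ E θ) := by
    rw [Submodule.disjoint_def]
    intro x hx hx'
    obtain ⟨t, ht, n, hn, rfl⟩ := Submodule.mem_sup.1 (hηle hx)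
    have h1 : t = 0 := dir t ht (by
      have : t = (t + n) + (-n) := by abel
      rw [this]
      exact Submodule.add_mem _ hx' (Submodule.mem_sup_right ((E θ).neg_mem hn)))
    rw [h1, zero_add] at hx ⊢
    exact Submodule.disjoint_def.1 hm n hx hn
  have hA'd : Disjoint (E (θ₀ + s' • θ')) (E θ) := by
    rw [Submodule.disjoint_def]
    intro x hx hx'
    obtain ⟨e, he, t, ht, rfl⟩ := Submodule.mem_sup.1 (hA'le hx)
    have h1 : t = 0 := dir t ht (by
      have : t = -e + (e + t) := by abel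
      rw [this]
      exact Submodule.add_mem_sup ((E θ₀).neg_mem he) hx')
    rw [h1, add_zero] at hx' ⊢
    exact Submodule.disjoint_def.1 hd e he hx'
  -- the spaces `A_s`
  have hAle : ∀ s : ℝ, 0 ≤ s → θ₀ + s • θ ∈ O ∧ E (θ₀ + s • θ) ≤ E θ₀ ⊔ E θ := by
    intro s hs
    rcases hs.eq_or_lt with rfl | hs
    · rw [zero_smul, add_zero]
      exact ⟨h₀, le_sup_left⟩
    · refine ⟨hE.add_mem h₀ (hE.smul_mem h hs), ?_⟩
      have := hE.le_sup h₀ (hE.smul_mem h hs) (by
        rw [hE.smul h hs]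
        exact hd)
      rw [hE.smul h hs] at this
      exact this
  have claim : ∀ s₁ : ℝ, 0 ≤ s₁ → Disjoint (E (θ₀ + s₁ • θ)) (E θ) →
      Disjoint (E (θ₀ + (s₁ + s₂) • θ)) (E θ) := by
    intro s₁ hs₁ hdis
    have hs₁₂ : 0 < s₁ + s₂ := by linarith
    obtain ⟨hO1, hle1⟩ := hAle s₁ hs₁
    obtain ⟨hO2, hle2⟩ := hAle (s₁ + s₂) hs₁₂.le
    set S : V := θ₀ + (s₁ + s₂) • θ + s' • θ' with hS
    have hSO : S ∈ O := hE.add_mem hO2 (hE.smul_mem h' hs')
    have hS1 : E S ≤ E (θ₀ + s₁ • θ) ⊔ E η := by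
      have h1 : S = (θ₀ + s₁ • θ) + η := by
        rw [hS, hη]
        module
      rw [h1]
      exact hE.le_sup hO1 hηO (hηd.mono_right hle1).symm
    have hS2 : E S ≤ E (θ₀ + s' • θ') ⊔ E θ := by
      have h1 : S = (θ₀ + s' • θ') + (s₁ + s₂) • θ := by
        rw [hS]
        module
      rw [h1]
      have := hE.le_sup hA'O (hE.smul_mem h hs₁₂) (by
        rw [hE.smul h hs₁₂]
        exact hA'd)
      rw [hE.smul h hs₁₂] at this
      exact this
    have hS3 : E S ≤ E (θ₀ + (s₁ + s₂) • θ) ⊔ E θ' := by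
      have := hE.le_sup hO2 (hE.smul_mem h' hs') (by
        rw [hE.smul h' hs']
        exact (hd'.mono_right hle2).symm)
      rw [hE.smul h' hs'] at this
      exact this
    have hSd : Disjoint (E S) (E θ ⊔ E θ') := by
      rw [Submodule.disjoint_def]
      intro v hv hv'
      -- first decomposition
      obtain ⟨a, ha, y, hy, hay⟩ := Submodule.mem_sup.1 (hS1 hv)
      obtain ⟨e, he, w, hw, hew⟩ := Submodule.mem_sup.1 (hle1 ha)
      have he0 : e = 0 := Submodule.disjoint_def.1 dir0 e he (by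
        have : e = v + (-y) + (-w) := by
          rw [← hay, ← hew]
          abel
        rw [this]
        refine Submodule.add_mem _ (Submodule.add_mem _ hv' ?_) ?_
        · rw [sup_comm]
          exact Submodule.neg_mem _ (hηle hy)
        · exact Submodule.mem_sup_left ((E θ).neg_mem hw))
      have haw : a = w := by rw [← hew, he0, zero_add]
      have ha0 : a = 0 := Submodule.disjoint_def.1 hdis a ha (by rw [haw]; exact hw)
      have hvη : v ∈ E η := by
        rw [← hay, ha0, zero_add]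
        exact hy
      -- second decomposition
      obtain ⟨a', ha', n, hn, han⟩ := Submodule.mem_sup.1 (hS2 hv)
      obtain ⟨e', he', t, ht, het⟩ := Submodule.mem_sup.1 (hA'le ha')
      have he0' : e' = 0 := Submodule.disjoint_def.1 dir0 e' he' (by
        have : e' = v + (-n + -t) := by
          rw [← han, ← het]
          abel
        rw [this]
        exact Submodule.add_mem _ hv' (Submodule.add_mem_sup ((E θ).neg_mem hn)
          ((E θ').neg_mem ht)))
      have hat : a' = t := by rw [← het, he0', zero_add]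
      have ha0' : a' = 0 := Submodule.disjoint_def.1 hs'd a' ha' (by rw [hat]; exact ht)
      have hvn : v ∈ E θ := by
        rw [← han, ha0', zero_add]
        exact hn
      exact Submodule.disjoint_def.1 hm v hvη hvn
    have hg1 := graph_of_disjoint (A := E S) (E := E θ₀) (F := E θ ⊔ E θ')
      (by rw [hE.dim hSO, hE.dim h₀]) dir0 (by
        refine hS2.trans (sup_le (hA'le.trans (sup_le le_sup_left ?_)) ?_)
        · exact le_sup_right.trans le_sup_right
        · exact le_sup_left.trans le_sup_right) hSd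
    refine disjoint_of_graph (A := E (θ₀ + (s₁ + s₂) • θ)) (E := E θ₀) (F := E θ)
      (by rw [hE.dim hO2, hE.dim h₀]) hd ?_
    intro e he
    obtain ⟨w, hw, hew⟩ := hg1 e he
    obtain ⟨n, hn, t, ht, rfl⟩ := Submodule.mem_sup.1 hw
    obtain ⟨a, ha, t', ht', hat⟩ := Submodule.mem_sup.1 (hS3 hew)
    have h1 : t - t' = 0 := dir _ ((E θ').sub_mem ht ht') (by
      have h2 : t - t' = a + (-e + -n) := by
        have h3 : a = e + (n + t) - t' := by
          rw [← hat]
          abel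
        rw [h3]
        abel
      rw [h2]
      exact Submodule.add_mem _ (hle2 ha) (Submodule.add_mem_sup ((E θ₀).neg_mem he)
        ((E θ).neg_mem hn)))
    refine ⟨n, hn, ?_⟩
    have h2 : e + n = a := by
      have h3 : a = e + n + (t - t') := by
        have h4 : a = e + (n + t) - t' := by
          rw [← hat]
          abel
        rw [h4]
        abel
      rw [h3, h1, add_zero]
    rw [h2]
    exact ha
  have hall : ∀ j : ℕ, Disjoint (E (θ₀ + ((j : ℝ) * s₂) • θ)) (E θ) := by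
    intro j
    induction j with
    | zero =>
      rw [Nat.cast_zero, zero_mul, zero_smul, add_zero]
      exact hd
    | succ j ih =>
      have := claim _ (by positivity) ih
      have h1 : (((j + 1 : ℕ) : ℝ) * s₂) = (j : ℝ) * s₂ + s₂ := by
        push_cast
        ring
      rw [h1]
      exact this
  have hfin := hall (m + 1)
  have h1 : (((m + 1 : ℕ) : ℝ) * s₂) = 1 := by
    rw [hs₂]
    push_cast
    field_simp
  rw [h1, one_smul] at hfin
  exact hfin

end fam

end Pool.Agent.H17.WH
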