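import Pool.Agent.H17.WH.TRa

/-!
# The additive representation
-/

set_option autoImplicit false
open Filter Topology

namespace Pool.Agent.H17.WH

section sub

variable {W : Type*} [NormedAddCommGroup W] [NormedSpace ℝ W]

theorem span_eq_of_li {k : ℕ} {A : Submodule ℝ W} [FiniteDimensional ℝ A]
    (hdim : Module.finrank ℝ A = k) {w : Fin k → W} (hw : ∀ j, w j ∈ A)
    (hli : LinearIndependent ℝ w) : Submodule.span ℝ (Set.range w) = A := by
  apply Submodule.eq_of_le_of_finrank_eq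
  · rw [Submodule.span_le]
    rintro _ ⟨j, rfl⟩
    exact hw j
  · rw [finrank_span_eq_card hli, Fintype.card_fin, hdim]

end sub

variable {V W : Type*} [NormedAddCommGroup V] [NormedSpace ℝ V] [NormedAddCommGroup W]
    [NormedSpace ℝ W] {k : ℕ} {O : Set V} {E : V → Submodule ℝ W}

/-- `w` represents `E (θ₀ + θ)` as a graph over `E θ₀` with values in `E θ` -/
def IsT (E : V → Submodule ℝ W) (θ₀ : V) (e : Fin k → W) (θ : V) (w : Fin k → W) : Prop :=
  ∀ j, w j ∈ E θ ∧ e j + w j ∈ E (θ₀ + θ)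

/-- the generic elements -/
def InG (O : Set V) (E : V → Submodule ℝ W) (θ₀ θ : V) : Prop := θ ∈ O ∧ Disjoint (E θ) (E θ₀)

/-- the data fixed in this file -/
structure Base (k : ℕ) (O : Set V) (E : V → Submodule ℝ W) (θ₀ : V) (e : Fin k → W) : Prop where
  fam : Fam k O E
  mem : θ₀ ∈ O
  li : LinearIndependent ℝ e
  span : Submodule.span ℝ (Set.range e) = E θ₀

section base

variable {θ₀ : V} {e : Fin k → W} (hB : Base k O E θ₀ e)

include hB

theorem Base.e_mem (j : Fin k) : e j ∈ E θ₀ := by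
  rw [← hB.span]
  exact Submodule.subset_span ⟨j, rfl⟩

theorem Base.sum_mem_of {A : Submodule ℝ W} {w : Fin k → W} (hw : ∀ j, w j ∈ A) (c : Fin k → ℝ) :
    ∑ j, c j • w j ∈ A := A.sum_mem fun j _ => A.smul_mem _ (hw j)

theorem Base.exists_isT {θ : V} (h : InG O E θ₀ θ) : ∃ w, IsT E θ₀ e θ w := by
  have := hB.fam.fd
  have h1 := graph_of_disjoint (A := E (θ₀ + θ)) (E := E θ₀) (F := E θ)
    (by rw [hB.fam.dim (hB.fam.add_mem hB.mem h.1), hB.fam.dim hB.mem]) h.2.symm
    (hB.fam.le_sup hB.mem h.1 h.2.symm) (hB.fam.disjoint_add hB.mem h.1 h.2.symm)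
  choose! f hf hf' using h1
  exact ⟨fun j => f (e j), fun j => ⟨hf _ (hB.e_mem j), hf' _ (hB.e_mem j)⟩⟩

theorem Base.unique {θ : V} (h : InG O E θ₀ θ) {x y z : W} (hy : y ∈ E θ) (hz : z ∈ E θ)
    (hxy : x + y ∈ E (θ₀ + θ)) (hxz : x + z ∈ E (θ₀ + θ)) : y = z := by
  have h1 := hB.fam.disjoint_add hB.mem h.1 h.2.symm
  have h2 : y - z = 0 := Submodule.disjoint_def.1 h1 _ (by
    have : y - z = (x + y) - (x + z) := by abel
    rw [this]
    exact Submodule.sub_mem _ hxy hxz) (Submodule.sub_mem _ hy hz)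
  exact sub_eq_zero.1 h2

theorem Base.isT_unique {θ : V} (h : InG O E θ₀ θ) {w w' : Fin k → W} (hw : IsT E θ₀ e θ w)
    (hw' : IsT E θ₀ e θ w') : w = w' := by
  ext1 j
  exact hB.unique h (hw j).1 (hw' j).1 (hw j).2 (hw' j).2

theorem Base.isT_li {θ : V} (h : InG O E θ₀ θ) {w : Fin k → W} (hw : IsT E θ₀ e θ w) :
    LinearIndependent ℝ w := by
  rw [Fintype.linearIndependent_iff]
  intro c hc
  have h1 := hB.fam.disjoint_add h.1 hB.mem h.2
  have h2 : ∑ j, c j • e j = 0 := Submodule.disjoint_def.1 h1 _ (by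
    have h3 : ∑ j, c j • e j = ∑ j, c j • (e j + w j) := by
      simp only [smul_add, Finset.sum_add_distrib]
      rw [hc, add_zero]
    rw [h3, add_comm θ θ₀]
    exact hB.sum_mem_of (fun j => (hw j).2) c) (hB.sum_mem_of hB.e_mem c)
  exact Fintype.linearIndependent_iff.1 hB.li c h2

theorem Base.isT_span {θ : V} (h : InG O E θ₀ θ) {w : Fin k → W} (hw : IsT E θ₀ e θ w) :
    Submodule.span ℝ (Set.range w) = E θ := by
  have := hB.fam.fd
  exact span_eq_of_li (hB.fam.dim h.1) (fun j => (hw j).1) (hB.isT_li h hw)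

theorem Base.add_li {θ : V} (h : InG O E θ₀ θ) {w : Fin k → W} (hw : ∀ j, w j ∈ E θ) :
    LinearIndependent ℝ fun j => e j + w j := by
  rw [Fintype.linearIndependent_iff]
  intro c hc
  simp only [smul_add, Finset.sum_add_distrib] at hc
  have h2 : ∑ j, c j • e j = 0 := Submodule.disjoint_def.1 h.2 _ (by
    have h3 : ∑ j, c j • e j = -∑ j, c j • w j := eq_neg_of_add_eq_zero_left hc
    rw [h3]
    exact Submodule.neg_mem _ (hB.sum_mem_of hw c)) (hB.sum_mem_of hB.e_mem c)
  exact Fintype.linearIndependent_iff.1 hB.li c h2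

theorem Base.add_span {θ : V} (h : InG O E θ₀ θ) {w : Fin k → W} (hw : IsT E θ₀ e θ w) :
    Submodule.span ℝ (Set.range fun j => e j + w j) = E (θ₀ + θ) := by
  have := hB.fam.fd
  exact span_eq_of_li (hB.fam.dim (hB.fam.add_mem hB.mem h.1)) (fun j => (hw j).2)
    (hB.add_li h fun j => (hw j).1)

/-- (b) -/
theorem Base.isT_add {θ θ' : V} (h : InG O E θ₀ θ) (h' : θ' ∈ O)
    (hd : Disjoint (E θ') (E θ₀ ⊔ E θ)) {w w' : Fin k → W} (hw : IsT E θ₀ e θ w)
    (hw' : IsT E θ₀ e θ' w') :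
    InG O E θ₀ (θ + θ') ∧ IsT E θ₀ e (θ + θ') (fun j => w j + w' j) := by
  have := hB.fam.fd
  have hG' : InG O E θ₀ θ' := ⟨h', hd.mono_right le_sup_left⟩
  have hθθ' : Disjoint (E θ) (E θ') := (hd.mono_right le_sup_right).symm
  have hle : E (θ + θ') ≤ E θ ⊔ E θ' := hB.fam.le_sup h.1 h' hθθ'
  have dir : ∀ t ∈ E θ', t ∈ E θ₀ ⊔ E θ → t = 0 := fun t ht ht' =>
    Submodule.disjoint_def.1 hd t ht ht'
  have dir' : ∀ t ∈ E θ, t ∈ E θ₀ ⊔ E θ' → t = 0 := by
    intro t ht ht'
    obtain ⟨a, ha, b, hb, hab⟩ := Submodule.mem_sup.1 ht'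
    have h1 : b = 0 := dir b hb (by
      have : b = -a + t := by
        rw [← hab]
        abel
      rw [this]
      exact Submodule.add_mem_sup (Submodule.neg_mem _ ha) ht)
    rw [h1, add_zero] at hab
    exact Submodule.disjoint_def.1 h.2 t ht (by rw [← hab]; exact ha)
  have hG : InG O E θ₀ (θ + θ') := by
    refine ⟨hB.fam.add_mem h.1 h', ?_⟩
    rw [Submodule.disjoint_def]
    intro x hx hx0
    obtain ⟨a, ha, b, hb, rfl⟩ := Submodule.mem_sup.1 (hle hx)
    have h1 : b = 0 := dir b hb (by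
      have : b = (a + b) + -a := by abel
      rw [this]
      exact Submodule.add_mem_sup hx0 (Submodule.neg_mem _ ha))
    have h2 : a = 0 := by
      apply Submodule.disjoint_def.1 h.2 a ha
      rw [h1, add_zero] at hx0
      exact hx0
    rw [h1, h2, add_zero]
  refine ⟨hG, ?_⟩
  obtain ⟨u, hu⟩ := hB.exists_isT hG
  have hA1 : E (θ₀ + (θ + θ')) ≤ E (θ₀ + θ) ⊔ E θ' := by
    rw [← add_assoc]
    apply hB.fam.le_sup (hB.fam.add_mem hB.mem h.1) h'
    exact (hd.mono_right (hB.fam.le_sup hB.mem h.1 h.2.symm)).symm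
  have hd2 : Disjoint (E θ) (E θ₀ ⊔ E θ') := by
    rw [Submodule.disjoint_def]
    exact dir'
  have hA2 : E (θ₀ + (θ + θ')) ≤ E (θ₀ + θ') ⊔ E θ := by
    rw [add_comm θ θ', ← add_assoc]
    apply hB.fam.le_sup (hB.fam.add_mem hB.mem h') h.1
    exact (hd2.mono_right (hB.fam.le_sup hB.mem h' hG'.2.symm)).symm
  intro j
  obtain ⟨x, hx, x', hx', hxx'⟩ := Submodule.mem_sup.1 (hle (hu j).1)
  -- the component in `E θ`
  have e1 : x = w j := by
    obtain ⟨a, ha, y, hy, hay⟩ := Submodule.mem_sup.1 (hA1 (hu j).2)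
    have h1 : x' - y = 0 := dir _ (Submodule.sub_mem _ hx' hy) (by
      have h2 : x' - y = a + (-(e j) + -x) := by
        have h3 : a = e j + (x + x') - y := by
          rw [hxx', ← hay]
          abel
        rw [h3]
        abel
      rw [h2]
      exact Submodule.add_mem _ (hB.fam.le_sup hB.mem h.1 h.2.symm ha)
        (Submodule.add_mem_sup (Submodule.neg_mem _ (hB.e_mem j)) (Submodule.neg_mem _ hx)))
    have h4 : e j + x = a := by
      have h5 : a = e j + x + (x' - y) := by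
        have h3 : a = e j + (x + x') - y := by
          rw [hxx', ← hay]
          abel
        rw [h3]
        abel
      rw [h5, h1, add_zero]
    exact hB.unique h hx (hw j).1 (by rw [h4]; exact ha) (hw j).2
  have e2 : x' = w' j := by
    obtain ⟨a, ha, y, hy, hay⟩ := Submodule.mem_sup.1 (hA2 (hu j).2)
    have h1 : x - y = 0 := dir' _ (Submodule.sub_mem _ hx hy) (by
      have h2 : x - y = a + (-(e j) + -x') := by
        have h3 : a = e j + (x + x') - y := by
          rw [hxx', ← hay]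
          abel
        rw [h3]
        abel
      rw [h2]
      exact Submodule.add_mem _ (hB.fam.le_sup hB.mem h' hG'.2.symm ha)
        (Submodule.add_mem_sup (Submodule.neg_mem _ (hB.e_mem j)) (Submodule.neg_mem _ hx')))
    have h4 : e j + x' = a := by
      have h5 : a = e j + x' + (x - y) := by
        have h3 : a = e j + (x + x') - y := by
          rw [hxx', ← hay]
          abel
        rw [h3]
        abel
      rw [h5, h1, add_zero]
    exact hB.unique hG' hx' (hw' j).1 (by rw [h4]; exact ha) (hw' j).2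
  show w j + w' j ∈ E (θ + θ') ∧ e j + (w j + w' j) ∈ E (θ₀ + (θ + θ'))
  rw [← e1, ← e2, hxx']
  exact hu j

/-- (c) -/
theorem Base.isT_add₃ {θ ϑ ω : V} (h : InG O E θ₀ θ) (h' : InG O E θ₀ ϑ) (hω : ω ∈ O)
    (hd : Disjoint (E ω) (E θ₀ ⊔ E θ ⊔ E ϑ)) {w v u : Fin k → W} (hw : IsT E θ₀ e θ w)
    (hv : IsT E θ₀ e ϑ v) (hu : IsT E θ₀ e ω u) :
    InG O E θ₀ (ϑ + (θ + ω)) ∧
      IsT E θ₀ e (ϑ + (θ + ω)) (fun j => v j + (w j + u j)) := by
  have := hB.fam.fd
  have hGω : InG O E θ₀ ω := ⟨hω, hd.mono_right (le_sup_left.trans le_sup_left)⟩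
  obtain ⟨h1, h2⟩ := hB.isT_add h hω (hd.mono_right le_sup_left) hw hu
  refine hB.isT_add h' h1.1 ?_ hv h2
  rw [Submodule.disjoint_def]
  intro x hx hx'
  rw [← hB.isT_span h1 h2, Submodule.mem_span_range_iff_exists_fun] at hx
  obtain ⟨c, hc⟩ := hx
  have h3 : ∑ j, c j • u j = 0 := Submodule.disjoint_def.1 hd _
    (hB.sum_mem_of (fun j => (hu j).1) c) (by
      have h4 : ∑ j, c j • u j = x + -∑ j, c j • w j := by
        rw [← hc]
        simp only [smul_add, Finset.sum_add_distrib]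
        abel
      rw [h4]
      refine Submodule.add_mem _ ?_ (Submodule.neg_mem _ ?_)
      · have h5 : E θ₀ ⊔ E ϑ ≤ E θ₀ ⊔ E θ ⊔ E ϑ := sup_le_sup_right le_sup_left _
        exact h5 hx'
      · exact Submodule.mem_sup_left (Submodule.mem_sup_right
          (hB.sum_mem_of (fun j => (hw j).1) c)))
  have h6 := Fintype.linearIndependent_iff.1 (hB.isT_li hGω hu) c h3
  rw [← hc]
  exact Finset.sum_eq_zero fun j _ => by rw [h6 j, zero_smul]

end base

end Pool.Agent.H17.WH
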